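import Mathlib
import Pool.Agent.Lib.MP_099f24_an.SD.Trace

/-!
# MP_099f24_an, STRUCT package: cutoff functions near a compact set of finite length
-/

namespace Pool.Agent.MP099f24

open MeasureTheory Filter Topology Set Metric
open scoped ENNReal ContDiff

/-- Coverings by balls. -/
theorem str_cover {A : Set ℂ} (hfin : (μH[1] : Measure ℂ) A < ⊤) (hne : A.Nonempty) {δ η : ℝ}
    (hδ : 0 < δ) (hη : 0 < η) :
    ∃ (x : ℕ → ℂ) (r : ℕ → ℝ), (∀ n, 0 < r n ∧ r n ≤ δ ∧ x n ∈ A) ∧
      A ⊆ ⋃ n, ball (x n) (r n) ∧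
      ∑' n, ENNReal.ofReal (r n) ≤ (μH[1] : Measure ℂ) A + ENNReal.ofReal η := by
  obtain ⟨x₀, hx₀⟩ := hne
  have h1 : (⨅ (t : ℕ → Set ℂ) (_ : A ⊆ ⋃ n, t n) (_ : ∀ n, ediam (t n) ≤ ENNReal.ofReal (δ / 2)),
      ∑' n, ⨆ _ : (t n).Nonempty, ediam (t n) ^ (1 : ℝ)) <
        (μH[1] : Measure ℂ) A + ENNReal.ofReal (η / 2) := by
    refine lt_of_le_of_lt ?_ (ENNReal.lt_add_right hfin.ne (by simpa using hη))
    rw [Measure.hausdorffMeasure_apply]
    exact le_iSup₂_of_le (ENNReal.ofReal (δ / 2)) (by simpa using hδ) le_rfl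
  simp only [iInf_lt_iff] at h1
  obtain ⟨t, htA, htd, hts⟩ := h1
  have hex : ∀ n, ∃ x : ℂ, x ∈ A ∧ ((t n ∩ A).Nonempty → x ∈ t n) := by
    intro n
    by_cases h : (t n ∩ A).Nonempty
    · obtain ⟨y, hy1, hy2⟩ := h
      exact ⟨y, hy2, fun _ => hy1⟩
    · exact ⟨x₀, hx₀, fun h' => absurd h' h⟩
  choose x hxA hxt using hex
  classical
  set e : ℕ → ℝ := fun n => min (δ / 2) (η / 2 * (1 / 2) ^ (n + 1)) with he
  have he0 : ∀ n, 0 < e n := fun n => lt_min (half_pos hδ) (by positivity)
  set r : ℕ → ℝ := fun n => (if (t n ∩ A).Nonempty then (ediam (t n)).toReal else 0) + e n with hr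
  have hdf : ∀ n, ediam (t n) ≠ ⊤ := fun n => ((htd n).trans_lt ENNReal.ofReal_lt_top).ne
  have hdr : ∀ n, (ediam (t n)).toReal ≤ δ / 2 := fun n => by
    have := ENNReal.toReal_mono ENNReal.ofReal_ne_top (htd n)
    rwa [ENNReal.toReal_ofReal (by positivity)] at this
  refine ⟨x, r, fun n => ⟨?_, ?_, hxA n⟩, ?_, ?_⟩
  · simp only [hr]
    have := he0 n
    split_ifs
    · have := ENNReal.toReal_nonneg (a := ediam (t n))
      linarith
    · linarith
  · simp only [hr]
    have := min_le_left (δ / 2) (η / 2 * (1 / 2) ^ (n + 1))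
    split_ifs
    · have := hdr n
      simp only [he]
      linarith
    · simp only [he]
      linarith
  · intro y hy
    obtain ⟨n, hn⟩ := mem_iUnion.1 (htA hy)
    refine mem_iUnion.2 ⟨n, ?_⟩
    have hne : (t n ∩ A).Nonempty := ⟨y, hn, hy⟩
    have h2 : edist y (x n) ≤ ediam (t n) := Metric.edist_le_ediam_of_mem hn (hxt n hne)
    have h3 : dist y (x n) ≤ (ediam (t n)).toReal := by
      rw [dist_edist]
      exact ENNReal.toReal_mono (hdf n) h2
    rw [mem_ball]
    simp only [hr, if_pos hne]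
    have := he0 n
    linarith
  · calc ∑' n, ENNReal.ofReal (r n)
        ≤ ∑' n, ((⨆ _ : (t n).Nonempty, ediam (t n) ^ (1 : ℝ)) +
            ENNReal.ofReal (η / 2 * (1 / 2) ^ (n + 1))) := by
          refine ENNReal.tsum_le_tsum fun n => ?_
          simp only [hr]
          split_ifs with h
          · rw [ENNReal.ofReal_add ENNReal.toReal_nonneg (he0 n).le, ENNReal.ofReal_toReal (hdf n)]
            refine add_le_add ?_ (ENNReal.ofReal_le_ofReal (min_le_right _ _))
            have h' : (t n).Nonempty := h.mono inter_subset_left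
            rw [ciSup_pos h', ENNReal.rpow_one]
          · rw [zero_add]
            exact le_add_left (ENNReal.ofReal_le_ofReal (min_le_right _ _))
      _ = (∑' n, ⨆ _ : (t n).Nonempty, ediam (t n) ^ (1 : ℝ)) +
            ∑' n : ℕ, ENNReal.ofReal (η / 2 * (1 / 2) ^ (n + 1)) := ENNReal.tsum_add
      _ ≤ ((μH[1] : Measure ℂ) A + ENNReal.ofReal (η / 2)) + ENNReal.ofReal (η / 2) := by
          refine add_le_add hts.le ?_
          have h4 : HasSum (fun n : ℕ => η / 2 * (1 / 2 : ℝ) ^ (n + 1)) (η / 2) := by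
            have h5 := (hasSum_geometric_two).mul_left (η / 4)
            have h6 : (fun n : ℕ => η / 2 * (1 / 2 : ℝ) ^ (n + 1)) =
                fun n : ℕ => η / 4 * (1 / 2 : ℝ) ^ n := by
              funext n
              ring
            rw [h6]
            have h7 : η / 4 * 2 = η / 2 := by ring
            rw [h7] at h5
            exact h5
          rw [← ENNReal.ofReal_tsum_of_nonneg (fun n => by positivity) h4.summable, h4.tsum_eq]
      _ = (μH[1] : Measure ℂ) A + ENNReal.ofReal η := by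
          rw [add_assoc, ← ENNReal.ofReal_add (by positivity) (by positivity)]
          congr 2
          ring

/-- A finite product of the ball cutoffs. -/
theorem str_prod {ι : Type*} (F : Finset ι) (β : ι → ℂ → ℝ) (hs : ∀ i ∈ F, ContDiff ℝ ∞ (β i))
    (h0 : ∀ i ∈ F, ∀ y, 0 ≤ β i y ∧ β i y ≤ 1) :
    ContDiff ℝ ∞ (fun y => ∏ i ∈ F, β i y) ∧ (∀ y, 0 ≤ ∏ i ∈ F, β i y ∧ ∏ i ∈ F, β i y ≤ 1) ∧
      ∀ y, ‖fderiv ℝ (fun y => ∏ i ∈ F, β i y) y‖ ≤ ∑ i ∈ F, ‖fderiv ℝ (β i) y‖ := by
  classical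
  induction F using Finset.induction_on with
  | empty =>
    refine ⟨by simpa using contDiff_const, fun y => by simp, fun y => by simp⟩
  | insert a F ha ih =>
    obtain ⟨ih1, ih2, ih3⟩ := ih (fun i hi => hs i (Finset.mem_insert_of_mem hi))
      (fun i hi => h0 i (Finset.mem_insert_of_mem hi))
    have ha1 := hs a (Finset.mem_insert_self a F)
    have ha2 := h0 a (Finset.mem_insert_self a F)
    have heq : (fun y => ∏ i ∈ insert a F, β i y) = fun y => β a y * ∏ i ∈ F, β i y := by
      funext y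
      rw [Finset.prod_insert ha]
    rw [heq]
    refine ⟨ha1.mul ih1, ?_, ?_⟩
    · intro y
      rw [Finset.prod_insert ha]
      refine ⟨mul_nonneg (ha2 y).1 (ih2 y).1, ?_⟩
      exact mul_le_one₀ (ha2 y).2 (ih2 y).1 (ih2 y).2
    · intro y
      have h1 : DifferentiableAt ℝ (β a) y := (ha1.differentiable (by simp)) y
      have h2 : DifferentiableAt ℝ (fun y => ∏ i ∈ F, β i y) y := (ih1.differentiable (by simp)) y
      rw [fderiv_fun_mul h1 h2, Finset.sum_insert ha]
      refine (norm_add_le _ _).trans ?_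
      rw [add_comm]
      refine add_le_add ?_ ?_
      · rw [norm_smul, Real.norm_eq_abs, abs_of_nonneg (ih2 y).1]
        exact mul_le_of_le_one_left (norm_nonneg _) (ih2 y).2
      · rw [norm_smul, Real.norm_eq_abs, abs_of_nonneg (ha2 y).1]
        exact (mul_le_of_le_one_left (norm_nonneg _) (ha2 y).2).trans (ih3 y)

theorem str_beta {M : ℝ} (hM : ∀ t, |deriv Real.smoothTransition t| ≤ M) (x : ℂ) {r : ℝ}
    (hr : 0 < r) (y : ℂ) :
    (2 * r < dist y x → traceZ x r r y = 1 ∧ fderiv ℝ (traceZ x r r) y = 0) ∧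
    ‖fderiv ℝ (traceZ x r r) y‖ ≤ 2 * M / r := by
  have hM0 : 0 ≤ M := (abs_nonneg _).trans (hM 0)
  have h1 : 2 * r < dist y x → traceZ x r r y = 1 ∧ fderiv ℝ (traceZ x r r) y = 0 := by
    intro h
    refine ⟨traceZ_ge x hr hr (by linarith), ?_⟩
    have h2 : traceZ x r r =ᶠ[𝓝 y] fun _ => (1 : ℝ) := by
      have h3 : IsOpen {z : ℂ | 2 * r < dist z x} :=
        isOpen_lt continuous_const (continuous_id.dist continuous_const)
      filter_upwards [h3.mem_nhds h] with z hz
      exact traceZ_ge x hr hr (by have : 2 * r < dist z x := hz; linarith)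
    rw [h2.fderiv_eq]
    simp
  refine ⟨h1, ?_⟩
  by_cases h : 2 * r < dist y x
  · rw [(h1 h).2, norm_zero]
    positivity
  · push Not at h
    refine ContinuousLinearMap.opNorm_le_bound _ (by positivity) fun v => ?_
    rw [traceZ_fderiv, norm_mul, Real.norm_eq_abs, Real.norm_eq_abs, abs_div, abs_mul]
    have e1 : (r + r) ^ 2 - r ^ 2 = 3 * r ^ 2 := by ring
    rw [e1, abs_of_pos (show (0 : ℝ) < 2 by norm_num), abs_of_pos (show 0 < 3 * r ^ 2 by positivity)]
    have h3 : |(inner ℝ (y - x) v : ℝ)| ≤ 2 * r * ‖v‖ := by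
      refine (abs_real_inner_le_norm _ _).trans ?_
      rw [dist_eq_norm] at h
      gcongr
    calc |deriv Real.smoothTransition ((‖y - x‖ ^ 2 - r ^ 2) / (3 * r ^ 2))| *
          (2 * |(inner ℝ (y - x) v : ℝ)| / (3 * r ^ 2))
        ≤ M * (2 * (2 * r * ‖v‖) / (3 * r ^ 2)) := by
          gcongr
          exact hM _
      _ = (4 / 3) * M / r * ‖v‖ := by
          field_simp
          ring
      _ ≤ 2 * M / r * ‖v‖ := by
          gcongr
          norm_num

/-- Weighted coverings of a compact set of finite length. -/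
theorem str_wcover {K : Set ℂ} (hK : IsCompact K) (hfin : (μH[1] : Measure ℂ) K < ⊤) {φ : ℂ → ℝ}
    (hφ : Continuous φ) {δ η : ℝ} (hδ : 0 < δ) (hη : 0 < η) :
    ∃ (F : Finset (ℕ × ℕ)) (x : ℕ × ℕ → ℂ) (r : ℕ × ℕ → ℝ),
      (∀ i ∈ F, 0 < r i ∧ r i ≤ δ) ∧ K ⊆ ⋃ i ∈ F, ball (x i) (r i) ∧
      ∑ i ∈ F, ENNReal.ofReal ((|φ (x i)| + η) * r i) ≤
        (∫⁻ y in K, ENNReal.ofReal (|φ y| + 2 * η) ∂(μH[1] : Measure ℂ)) + ENNReal.ofReal η := by
  classical
  -- levels
  obtain ⟨B, hB⟩ := hK.exists_bound_of_continuousOn hφ.continuousOn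
  obtain ⟨N, hN⟩ := exists_nat_gt (B / η)
  set A : ℕ → Set ℂ := fun k => K ∩ {y | k * η ≤ |φ y| ∧ |φ y| < (k + 1) * η} with hA
  have hAm : ∀ k, MeasurableSet (A k) := by
    intro k
    refine hK.measurableSet.inter ?_
    exact (measurableSet_le measurable_const hφ.abs.measurable).inter
      (measurableSet_lt hφ.abs.measurable measurable_const)
  have hAd : Pairwise (Function.onFun Disjoint A) := by
    intro k l hkl
    rw [Function.onFun, Set.disjoint_left]
    rintro y ⟨-, h1, h2⟩ ⟨-, h3, h4⟩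
    apply hkl
    have e1 : (k : ℝ) < l + 1 := lt_of_mul_lt_mul_right (h1.trans_lt h4) hη.le
    have e2 : (l : ℝ) < k + 1 := lt_of_mul_lt_mul_right (h3.trans_lt h2) hη.le
    have e1' : k < l + 1 := by exact_mod_cast e1
    have e2' : l < k + 1 := by exact_mod_cast e2
    omega
  have hAfin : ∀ k, (μH[1] : Measure ℂ) (A k) < ⊤ := fun k =>
    (measure_mono inter_subset_left).trans_lt hfin
  set η' : ℝ := 1 / ((N : ℝ) + 3) ^ 2 with hη'
  have hη'0 : 0 < η' := by positivity
  have hcov : ∀ k : ℕ, ∃ (x : ℕ → ℂ) (r : ℕ → ℝ), (A k).Nonempty →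
      (∀ n, 0 < r n ∧ r n ≤ δ ∧ x n ∈ A k) ∧ A k ⊆ ⋃ n, ball (x n) (r n) ∧
      ∑' n, ENNReal.ofReal (r n) ≤ (μH[1] : Measure ℂ) (A k) + ENNReal.ofReal η' := by
    intro k
    by_cases hk : (A k).Nonempty
    · obtain ⟨x, r, h1, h2, h3⟩ := str_cover (hAfin k) hk hδ hη'0
      exact ⟨x, r, fun _ => ⟨h1, h2, h3⟩⟩
    · exact ⟨fun _ => 0, fun _ => 0, fun h => absurd h hk⟩
  choose x r hxr using hcov
  set I : Set (ℕ × ℕ) := {i | i.1 ≤ N ∧ (A i.1).Nonempty} with hI
  have hKcov : K ⊆ ⋃ i ∈ I, ball (x i.1 i.2) (r i.1 i.2) := by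
    intro y hy
    set k := ⌊|φ y| / η⌋₊ with hk
    have h0 : 0 ≤ |φ y| / η := by positivity
    have h1 : (k : ℝ) ≤ |φ y| / η := Nat.floor_le h0
    have h2 : |φ y| / η < k + 1 := Nat.lt_floor_add_one _
    rw [le_div_iff₀ hη] at h1
    rw [div_lt_iff₀ hη] at h2
    have hyA : y ∈ A k := ⟨hy, h1, h2⟩
    have hkN : k ≤ N := by
      have h3 : |φ y| / η < N := lt_of_le_of_lt (by have := hB y hy; rw [Real.norm_eq_abs] at this; gcongr) hN
      have h4 : (k : ℝ) < N := lt_of_le_of_lt (Nat.floor_le h0) h3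
      exact_mod_cast h4.le
    obtain ⟨n, hn⟩ := mem_iUnion.1 ((hxr k ⟨y, hyA⟩).2.1 hyA)
    exact mem_iUnion₂.2 ⟨(k, n), ⟨hkN, ⟨y, hyA⟩⟩, hn⟩
  obtain ⟨F, hFI, hFfin, hFcov⟩ := hK.elim_finite_subcover_image
    (b := I) (c := fun i : ℕ × ℕ => ball (x i.1 i.2) (r i.1 i.2)) (fun i _ => isOpen_ball) hKcov
  refine ⟨hFfin.toFinset, fun i => x i.1 i.2, fun i => r i.1 i.2, ?_, ?_, ?_⟩
  · intro i hi
    have hi' := hFI (hFfin.mem_toFinset.1 hi)
    have := ((hxr i.1 hi'.2).1 i.2)
    exact ⟨this.1, this.2.1⟩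
  · simpa using hFcov
  · -- the sum
    have hterm : ∀ i ∈ hFfin.toFinset, ENNReal.ofReal ((|φ (x i.1 i.2)| + η) * r i.1 i.2) ≤
        ENNReal.ofReal (((i.1 : ℝ) + 2) * η) * ENNReal.ofReal (r i.1 i.2) := by
      intro i hi
      have hi' := hFI (hFfin.mem_toFinset.1 hi)
      have h1 := ((hxr i.1 hi'.2).1 i.2)
      rw [← ENNReal.ofReal_mul (by positivity)]
      refine ENNReal.ofReal_le_ofReal ?_
      have h2 : |φ (x i.1 i.2)| < ((i.1 : ℝ) + 1) * η := h1.2.2.2.2
      have h3 := h1.1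
      gcongr
      linarith
    have hFsub : hFfin.toFinset ⊆ ((Finset.range (N + 1)).filter fun k => (A k).Nonempty) ×ˢ
        (hFfin.toFinset.image Prod.snd) := by
      intro i hi
      have hi' := hFI (hFfin.mem_toFinset.1 hi)
      rw [Finset.mem_product, Finset.mem_filter, Finset.mem_range]
      exact ⟨⟨Nat.lt_succ_of_le hi'.1, hi'.2⟩, Finset.mem_image_of_mem _ hi⟩
    calc ∑ i ∈ hFfin.toFinset, ENNReal.ofReal ((|φ (x i.1 i.2)| + η) * r i.1 i.2)
        ≤ ∑ i ∈ hFfin.toFinset, ENNReal.ofReal (((i.1 : ℝ) + 2) * η) *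
            ENNReal.ofReal (r i.1 i.2) := Finset.sum_le_sum hterm
      _ ≤ ∑ i ∈ ((Finset.range (N + 1)).filter fun k => (A k).Nonempty) ×ˢ
            (hFfin.toFinset.image Prod.snd), ENNReal.ofReal (((i.1 : ℝ) + 2) * η) *
            ENNReal.ofReal (r i.1 i.2) := Finset.sum_le_sum_of_subset hFsub
      _ = ∑ k ∈ (Finset.range (N + 1)).filter fun k => (A k).Nonempty,
            ENNReal.ofReal (((k : ℝ) + 2) * η) *
            ∑ n ∈ hFfin.toFinset.image Prod.snd, ENNReal.ofReal (r k n) := by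
          rw [Finset.sum_product]
          refine Finset.sum_congr rfl fun k _ => ?_
          rw [Finset.mul_sum]
      _ ≤ ∑ k ∈ (Finset.range (N + 1)).filter fun k => (A k).Nonempty,
            ENNReal.ofReal (((k : ℝ) + 2) * η) *
            ((μH[1] : Measure ℂ) (A k) + ENNReal.ofReal η') := by
          refine Finset.sum_le_sum fun k hk => ?_
          gcongr
          exact (ENNReal.sum_le_tsum _).trans (hxr k (Finset.mem_filter.1 hk).2).2.2
      _ ≤ ∑ k ∈ Finset.range (N + 1), (ENNReal.ofReal (((k : ℝ) + 2) * η) *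
            (μH[1] : Measure ℂ) (A k) + ENNReal.ofReal (((k : ℝ) + 2) * η * η')) := by
          refine (Finset.sum_le_sum_of_subset (Finset.filter_subset _ _)).trans ?_
          refine Finset.sum_le_sum fun k _ => ?_
          rw [mul_add, ENNReal.ofReal_mul (by positivity : (0 : ℝ) ≤ ((k : ℝ) + 2) * η)]
      _ = (∑ k ∈ Finset.range (N + 1), ENNReal.ofReal (((k : ℝ) + 2) * η) *
            (μH[1] : Measure ℂ) (A k)) +
            ∑ k ∈ Finset.range (N + 1), ENNReal.ofReal (((k : ℝ) + 2) * η * η') :=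
          Finset.sum_add_distrib
      _ ≤ _ := by
          refine add_le_add ?_ ?_
          · calc ∑ k ∈ Finset.range (N + 1), ENNReal.ofReal (((k : ℝ) + 2) * η) *
                  (μH[1] : Measure ℂ) (A k)
                ≤ ∑ k ∈ Finset.range (N + 1), ∫⁻ y in A k, ENNReal.ofReal (|φ y| + 2 * η)
                    ∂(μH[1] : Measure ℂ) := by
                  refine Finset.sum_le_sum fun k _ => ?_
                  rw [← setLIntegral_const]
                  refine setLIntegral_mono' (hAm k) fun y hy => ?_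
                  refine ENNReal.ofReal_le_ofReal ?_
                  have := hy.2.1
                  linarith
              _ = ∫⁻ y in ⋃ k ∈ Finset.range (N + 1), A k, ENNReal.ofReal (|φ y| + 2 * η)
                    ∂(μH[1] : Measure ℂ) := by
                  rw [lintegral_biUnion_finset]
                  · exact fun k _ l _ hkl => hAd hkl
                  · exact fun k _ => hAm k
              _ ≤ _ := by
                  refine lintegral_mono_set ?_
                  exact iUnion₂_subset fun k _ => inter_subset_left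
          · rw [← ENNReal.ofReal_sum_of_nonneg (fun k _ => by positivity)]
            refine ENNReal.ofReal_le_ofReal ?_
            calc ∑ k ∈ Finset.range (N + 1), ((k : ℝ) + 2) * η * η'
                ≤ ∑ k ∈ Finset.range (N + 1), ((N : ℝ) + 3) * η * η' := by
                  refine Finset.sum_le_sum fun k hk => ?_
                  have h1 : (k : ℝ) ≤ N := by
                    have := Finset.mem_range.1 hk
                    exact_mod_cast Nat.lt_succ_iff.1 this
                  gcongr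
                  linarith
              _ = ((N : ℝ) + 1) * (((N : ℝ) + 3) * η * η') := by
                  rw [Finset.sum_const, Finset.card_range, nsmul_eq_mul]
                  push_cast
                  ring
              _ = η * (((N : ℝ) + 1) / ((N : ℝ) + 3)) := by
                  rw [hη']
                  field_simp
              _ ≤ η * 1 := by
                  gcongr
                  rw [div_le_one (by positivity)]
                  linarith
              _ = η := mul_one η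

/-- Cutoff functions near a compact set of finite length. -/
theorem str_cutoff {M : ℝ} (hM : ∀ t, |deriv Real.smoothTransition t| ≤ M) {K : Set ℂ}
    (hK : IsCompact K) (hfin : (μH[1] : Measure ℂ) K < ⊤) {φ : ℂ → ℝ}
    (hφ : Continuous φ) (hφc : HasCompactSupport φ) {η : ℝ} (hη : 0 < η) :
    ∃ χ : ℂ → ℝ, ContDiff ℝ ∞ χ ∧ (∀ y, 0 ≤ χ y ∧ χ y ≤ 1) ∧
      (∃ U, IsOpen U ∧ K ⊆ U ∧ ∀ y ∈ U, χ y = 0) ∧
      (volume : Measure ℂ) {y | χ y ≠ 1} ≤ ENNReal.ofReal η ∧
      ∫⁻ y, ENNReal.ofReal |φ y| * ‖fderiv ℝ χ y‖ₑ ≤ ENNReal.ofReal (8 * Real.pi * M) *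
        ((∫⁻ y in K, ENNReal.ofReal (|φ y| + 2 * η) ∂(μH[1] : Measure ℂ)) + ENNReal.ofReal η) := by
  have hM0 : 0 ≤ M := (abs_nonneg _).trans (hM 0)
  have hpi := Real.pi_pos
  obtain ⟨δ₀, hδ₀, huc⟩ := Metric.uniformContinuous_iff.1 (hφc.uniformContinuous_of_continuous hφ) η hη
  set W := ∫⁻ y in K, ENNReal.ofReal (|φ y| + 2 * η) ∂(μH[1] : Measure ℂ) with hW
  have hWfin : W < ⊤ := by
    obtain ⟨B, hB⟩ := hK.exists_bound_of_continuousOn hφ.continuousOn
    calc W ≤ ∫⁻ y in K, ENNReal.ofReal (B + 2 * η) ∂(μH[1] : Measure ℂ) := by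
          refine setLIntegral_mono' hK.measurableSet fun y hy => ENNReal.ofReal_le_ofReal ?_
          have := hB y hy
          rw [Real.norm_eq_abs] at this
          linarith
      _ = ENNReal.ofReal (B + 2 * η) * (μH[1] : Measure ℂ) K := setLIntegral_const _ _
      _ < ⊤ := ENNReal.mul_lt_top ENNReal.ofReal_lt_top hfin
  set S := W.toReal + η with hS
  have hS0 : 0 < S := add_pos_of_nonneg_of_pos ENNReal.toReal_nonneg hη
  set δ := min (δ₀ / 4) (η ^ 2 / (4 * Real.pi * S)) with hδ
  have hδ0 : 0 < δ := lt_min (by positivity) (by positivity)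
  obtain ⟨F, x, r, hr, hcov, hsum⟩ := str_wcover hK hfin hφ hδ0 hη
  rw [← hW] at hsum
  set χ : ℂ → ℝ := fun y => ∏ i ∈ F, traceZ (x i) (r i) (r i) y with hχ
  obtain ⟨h1, h2, h3⟩ := str_prod F (fun i => traceZ (x i) (r i) (r i))
    (fun i _ => traceZ_contDiff _ _ _)
    (fun i _ y => ⟨by unfold traceZ; exact Real.smoothTransition.nonneg _,
      by unfold traceZ; exact Real.smoothTransition.le_one _⟩)
  refine ⟨χ, h1, h2, ⟨⋃ i ∈ F, ball (x i) (r i), isOpen_biUnion fun i _ => isOpen_ball, hcov, ?_⟩,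
    ?_, ?_⟩
  · intro y hy
    obtain ⟨i, hi, hyi⟩ := mem_iUnion₂.1 hy
    refine Finset.prod_eq_zero hi ?_
    exact traceZ_le _ (hr i hi).1 (hr i hi).1 (mem_ball.1 hyi).le
  · -- volume
    have hsub : {y | χ y ≠ 1} ⊆ ⋃ i ∈ F, closedBall (x i) (2 * r i) := by
      intro y hy
      by_contra hcon
      apply hy
      rw [hχ]
      refine Finset.prod_eq_one fun i hi => ?_
      refine ((str_beta hM (x i) (hr i hi).1 y).1 ?_).1
      by_contra h
      exact hcon (mem_iUnion₂.2 ⟨i, hi, mem_closedBall.2 (not_lt.1 h)⟩)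
    have hvol : ∀ i ∈ F, (volume : Measure ℂ) (closedBall (x i) (2 * r i)) ≤
        ENNReal.ofReal (4 * Real.pi * δ / η) * ENNReal.ofReal ((|φ (x i)| + η) * r i) := by
      intro i hi
      obtain ⟨hr1, hr2⟩ := hr i hi
      have e1 : (volume : Measure ℂ) (closedBall (x i) (2 * r i)) =
          ENNReal.ofReal (Real.pi * (2 * r i) ^ 2) := by
        rw [Complex.volume_closedBall, ← ENNReal.ofReal_pow (by positivity), mul_comm,
          ENNReal.ofReal_mul Real.pi_pos.le]
        congr 1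
        rw [ENNReal.ofReal, Real.toNNReal_of_nonneg Real.pi_pos.le]
        rfl
      rw [e1, ← ENNReal.ofReal_mul (by positivity)]
      refine ENNReal.ofReal_le_ofReal ?_
      calc Real.pi * (2 * r i) ^ 2 = 4 * Real.pi * r i * r i := by ring
        _ ≤ 4 * Real.pi * δ * r i := by gcongr
        _ = 4 * Real.pi * δ / η * (η * r i) := by field_simp
        _ ≤ 4 * Real.pi * δ / η * ((|φ (x i)| + η) * r i) := by
            gcongr
            linarith [abs_nonneg (φ (x i))]
    calc (volume : Measure ℂ) {y | χ y ≠ 1} ≤ volume (⋃ i ∈ F, closedBall (x i) (2 * r i)) :=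
          measure_mono hsub
      _ ≤ ∑ i ∈ F, volume (closedBall (x i) (2 * r i)) := measure_biUnion_finset_le _ _
      _ ≤ ∑ i ∈ F, ENNReal.ofReal (4 * Real.pi * δ / η) *
            ENNReal.ofReal ((|φ (x i)| + η) * r i) := Finset.sum_le_sum hvol
      _ = ENNReal.ofReal (4 * Real.pi * δ / η) *
            ∑ i ∈ F, ENNReal.ofReal ((|φ (x i)| + η) * r i) := by rw [Finset.mul_sum]
      _ ≤ ENNReal.ofReal (4 * Real.pi * δ / η) * (W + ENNReal.ofReal η) := by gcongr
      _ = ENNReal.ofReal (4 * Real.pi * δ / η) * ENNReal.ofReal S := by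
          congr 1
          rw [hS, ENNReal.ofReal_add ENNReal.toReal_nonneg hη.le, ENNReal.ofReal_toReal hWfin.ne]
      _ ≤ ENNReal.ofReal η := by
          rw [← ENNReal.ofReal_mul (by positivity)]
          refine ENNReal.ofReal_le_ofReal ?_
          have h4 : δ ≤ η ^ 2 / (4 * Real.pi * S) := min_le_right _ _
          rw [le_div_iff₀ (by positivity)] at h4
          rw [div_mul_eq_mul_div, div_le_iff₀ hη]
          linarith
  · -- the gradient
    have hpt : ∀ y, ENNReal.ofReal |φ y| * ‖fderiv ℝ χ y‖ₑ ≤ ∑ i ∈ F,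
        (closedBall (x i) (2 * r i)).indicator
          (fun _ => ENNReal.ofReal ((|φ (x i)| + η) * (2 * M / r i))) y := by
      intro y
      have e1 : ‖fderiv ℝ χ y‖ₑ ≤ ∑ i ∈ F, ‖fderiv ℝ (traceZ (x i) (r i) (r i)) y‖ₑ := by
        have h4 := ENNReal.ofReal_le_ofReal (h3 y)
        rw [ENNReal.ofReal_sum_of_nonneg (fun i _ => norm_nonneg _)] at h4
        simpa only [ofReal_norm] using h4
      refine (mul_le_mul_right e1 _).trans ?_
      rw [Finset.mul_sum]
      refine Finset.sum_le_sum fun i hi => ?_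
      obtain ⟨h5, h6⟩ := str_beta hM (x i) (hr i hi).1 y
      by_cases hy : y ∈ closedBall (x i) (2 * r i)
      · rw [indicator_of_mem hy, ← ofReal_norm, ← ENNReal.ofReal_mul (abs_nonneg _)]
        refine ENNReal.ofReal_le_ofReal ?_
        have h7 : |φ y| ≤ |φ (x i)| + η := by
          have h8 : dist y (x i) < δ₀ := by
            have := mem_closedBall.1 hy
            have h9 := (hr i hi).2
            have h10 : δ ≤ δ₀ / 4 := min_le_left _ _
            linarith
          have h11 := huc h8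
          rw [Real.dist_eq] at h11
          have h12 := abs_sub_abs_le_abs_sub (φ y) (φ (x i))
          linarith
        gcongr
      · rw [indicator_of_notMem hy]
        rw [mem_closedBall, not_le] at hy
        rw [(h5 hy).2, ← ofReal_norm, norm_zero, ENNReal.ofReal_zero, mul_zero]
    calc ∫⁻ y, ENNReal.ofReal |φ y| * ‖fderiv ℝ χ y‖ₑ
        ≤ ∫⁻ y, ∑ i ∈ F, (closedBall (x i) (2 * r i)).indicator
          (fun _ => ENNReal.ofReal ((|φ (x i)| + η) * (2 * M / r i))) y := lintegral_mono hpt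
      _ = ∑ i ∈ F, ENNReal.ofReal ((|φ (x i)| + η) * (2 * M / r i)) *
            volume (closedBall (x i) (2 * r i)) := by
          rw [lintegral_finsetSum]
          · refine Finset.sum_congr rfl fun i _ => ?_
            rw [lintegral_indicator isClosed_closedBall.measurableSet, setLIntegral_const]
          · exact fun i _ => measurable_const.indicator isClosed_closedBall.measurableSet
      _ ≤ ∑ i ∈ F, ENNReal.ofReal (8 * Real.pi * M) * ENNReal.ofReal ((|φ (x i)| + η) * r i) := by
          refine Finset.sum_le_sum fun i hi => ?_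
          obtain ⟨hr1, hr2⟩ := hr i hi
          have e1 : (volume : Measure ℂ) (closedBall (x i) (2 * r i)) =
              ENNReal.ofReal (Real.pi * (2 * r i) ^ 2) := by
            rw [Complex.volume_closedBall, ← ENNReal.ofReal_pow (by positivity), mul_comm,
              ENNReal.ofReal_mul Real.pi_pos.le]
            congr 1
            rw [ENNReal.ofReal, Real.toNNReal_of_nonneg Real.pi_pos.le]
            rfl
          rw [e1, ← ENNReal.ofReal_mul (by positivity), ← ENNReal.ofReal_mul (by positivity)]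
          refine ENNReal.ofReal_le_ofReal (le_of_eq ?_)
          field_simp
          ring
      _ = ENNReal.ofReal (8 * Real.pi * M) * ∑ i ∈ F, ENNReal.ofReal ((|φ (x i)| + η) * r i) := by
          rw [Finset.mul_sum]
      _ ≤ _ := by gcongr

end Pool.Agent.MP099f24
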