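import Mathlib
import Pool.Agent.Lib.MP_099f24_an.ST.Cut

/-!
# MP_099f24_an, STRUCT package: the distributional derivative of a function smooth off `K`
-/

namespace Pool.Agent.MP099f24

open MeasureTheory Filter Topology Set Metric
open scoped ENNReal NNReal ContDiff

/-- A bounded function, locally Lipschitz off the relatively closed set `K`, with locally
integrable gradient. -/
structure StrData (Ω K : Set ℂ) (M : ℝ) (w : ℂ → ℝ) (g : ℂ → ℂ) : Prop where
  isOpen : IsOpen Ω
  sub : K ⊆ Ω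
  rel : IsOpen (Ω \ K)
  fin : ∀ C, IsCompact C → C ⊆ Ω → (μH[1] : Measure ℂ) (K ∩ C) < ⊤
  wm : Measurable w
  wb : ∀ x, |w x| ≤ M
  gm : Measurable g
  lip : ∀ x ∈ Ω \ K, ∃ (L : ℝ≥0), ∃ t ∈ 𝓝 x, LipschitzOnWith L w t
  hw : ∀ᵐ x, x ∈ Ω \ K → HasFDerivAt w (innerSL ℝ (g x)) x
  gi : LocallyIntegrableOn g Ω

theorem str_lip_compact {w : ℂ → ℝ} {C : Set ℂ} (hC : IsCompact C)
    (h : ∀ x ∈ C, ∃ (L : ℝ≥0), ∃ t ∈ 𝓝 x, LipschitzOnWith L w t) :
    ∃ L : ℝ≥0, LipschitzOnWith L w C := by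
  have h' : ∀ x : ℂ, ∃ (L : ℝ≥0) (t : Set ℂ), x ∈ C → t ∈ 𝓝 x ∧ LipschitzOnWith L w t := by
    intro x
    by_cases hx : x ∈ C
    · obtain ⟨L, t, ht, hL⟩ := h x hx
      exact ⟨L, t, fun _ => ⟨ht, hL⟩⟩
    · exact ⟨0, ∅, fun h => absurd h hx⟩
  choose L t hLt using h'
  obtain ⟨F, hFC, hFcov⟩ := hC.elim_nhds_subcover (fun x => interior (t x))
    (fun x hx => interior_mem_nhds.2 (hLt x hx).1)
  obtain ⟨δ, hδ, hδF⟩ := lebesgue_number_lemma_of_metric (ι := F) (c := fun i => interior (t i)) hC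
    (fun i => isOpen_interior) (by
      intro x hx
      obtain ⟨i, hi, hxi⟩ := mem_iUnion₂.1 (hFcov hx)
      exact mem_iUnion.2 ⟨⟨i, hi⟩, hxi⟩)
  have hcont : ContinuousOn w C := by
    intro x hx
    exact ((hLt x hx).2.continuousOn.continuousAt (hLt x hx).1).continuousWithinAt
  obtain ⟨B, hB⟩ := hC.exists_bound_of_continuousOn hcont
  refine ⟨(∑ i ∈ F, L i) + (2 * B / δ).toNNReal, ?_⟩
  refine LipschitzOnWith.of_dist_le_mul fun x hx y hy => ?_
  have hB0 : 0 ≤ B := (norm_nonneg _).trans (hB x hx)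
  rw [NNReal.coe_add, Real.coe_toNNReal _ (by positivity)]
  by_cases hxy : dist y x < δ
  · obtain ⟨⟨i, hi⟩, hi'⟩ := hδF x hx
    have h1 : x ∈ t i := interior_subset (hi' (mem_ball_self hδ))
    have h2 : y ∈ t i := interior_subset (hi' (mem_ball.2 hxy))
    have h3 := (hLt i (hFC i hi)).2.dist_le_mul x h1 y h2
    have h4 : (L i : ℝ) ≤ ((∑ i ∈ F, L i : ℝ≥0) : ℝ) := by
      exact_mod_cast Finset.single_le_sum (f := L) (fun _ _ => zero_le) hi
    refine h3.trans ?_
    gcongr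
    have : 0 ≤ 2 * B / δ := by positivity
    linarith
  · rw [not_lt, dist_comm] at hxy
    have h1 : dist (w x) (w y) ≤ 2 * B := by
      rw [dist_eq_norm]
      have := norm_sub_le (w x) (w y)
      linarith [hB x hx, hB y hy]
    have h2 : 2 * B ≤ 2 * B / δ * dist x y := by
      rw [div_mul_eq_mul_div, le_div_iff₀ hδ]
      gcongr
    have h3 : 0 ≤ ((∑ i ∈ F, L i : ℝ≥0) : ℝ) * dist x y := by positivity
    nlinarith

/-- the singular part of the distributional derivative -/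
noncomputable def strT (w : ℂ → ℝ) (g : ℂ → ℂ) (φ : ℂ → ℝ) (v : ℂ) : ℝ :=
  (∫ x, w x * fderiv ℝ φ x v) + ∫ x, φ x * inner ℝ (g x) v

theorem str_int1 {w : ℂ → ℝ} {M : ℝ} (hwm : Measurable w) (hwb : ∀ x, |w x| ≤ M) {F : ℂ → ℝ}
    (hF : Continuous F) (hFc : HasCompactSupport F) : Integrable (fun x => w x * F x) := by
  refine Integrable.bdd_mul (c := M) (hF.integrable_of_hasCompactSupport hFc)
    hwm.aestronglyMeasurable ?_
  exact Eventually.of_forall fun x => by rw [Real.norm_eq_abs]; exact hwb x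

theorem str_int2 {Ω : Set ℂ} {g : ℂ → ℂ} (hgi : LocallyIntegrableOn g Ω) {F : ℂ → ℝ}
    (hF : Continuous F) (hFc : HasCompactSupport F) (hFs : tsupport F ⊆ Ω) (v : ℂ) :
    Integrable (fun x => F x * inner ℝ (g x) v) := by
  obtain ⟨B, hB⟩ := hF.bounded_above_of_compact_support hFc
  have h1 : IntegrableOn g (tsupport F) := hgi.integrableOn_compact_subset hFs hFc
  have h2 : IntegrableOn (fun x => (inner ℝ (g x) v : ℝ)) (tsupport F) := h1.inner_const v
  have h3 : IntegrableOn (fun x => F x * inner ℝ (g x) v) (tsupport F) := by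
    refine Integrable.bdd_mul (c := B) h2 hF.aestronglyMeasurable ?_
    exact Eventually.of_forall fun x => hB x
  refine (integrableOn_iff_integrable_of_support_subset ?_).1 h3
  intro x hx
  by_contra hcon
  apply hx
  show F x * inner ℝ (g x) v = 0
  rw [image_eq_zero_of_notMem_tsupport hcon, zero_mul]

theorem str_fderiv_mul {φ χ : ℂ → ℝ} (hφ : ContDiff ℝ ∞ φ) (hχ : ContDiff ℝ ∞ χ) (x v : ℂ) :
    fderiv ℝ (fun y => φ y * χ y) x v = φ x * fderiv ℝ χ x v + χ x * fderiv ℝ φ x v := by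
  rw [fderiv_fun_mul ((hφ.differentiable (by simp)) x) ((hχ.differentiable (by simp)) x)]
  rfl

/-- Off `K` there is no singular part. -/
theorem str_T_zero {Ω K : Set ℂ} {M : ℝ} {w : ℂ → ℝ} {g : ℂ → ℂ} (h : StrData Ω K M w g)
    {ζ : ℂ → ℝ} (hζ : ContDiff ℝ ∞ ζ) (hζc : HasCompactSupport ζ) (hζs : tsupport ζ ⊆ Ω \ K)
    (v : ℂ) : strT w g ζ v = 0 := by
  obtain ⟨C, hC, hζC, hCs⟩ := exists_compact_between hζc h.rel hζs
  obtain ⟨L, hL⟩ := str_lip_compact hC (fun x hx => h.lip x (hCs hx))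
  obtain ⟨W, hW, hWw⟩ := hL.extend_real
  obtain ⟨D, hD⟩ := ContDiff.lipschitzWith_of_hasCompactSupport hζc hζ (by simp)
  have h1 := hW.integral_lineDeriv_mul_eq (μ := (volume : Measure ℂ)) hD hζc v
  have h2 : ∫ x, lineDeriv ℝ W x v * ζ x = ∫ x, ζ x * inner ℝ (g x) v := by
    refine integral_congr_ae ?_
    filter_upwards [h.hw] with x hx
    by_cases hxs : x ∈ tsupport ζ
    · have hxi : x ∈ interior C := hζC hxs
      have h3 := hx (hCs (interior_subset hxi))
      have h4 : W =ᶠ[𝓝 x] w := by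
        filter_upwards [isOpen_interior.mem_nhds hxi] with y hy
        exact (hWw (interior_subset hy)).symm
      have h5 := (h3.congr_of_eventuallyEq h4).hasLineDerivAt v
      rw [h5.lineDeriv, innerSL_apply_apply, mul_comm]
    · rw [image_eq_zero_of_notMem_tsupport hxs, mul_zero, zero_mul]
  have h3 : ∫ x, lineDeriv ℝ ζ x (-v) * W x = - ∫ x, w x * fderiv ℝ ζ x v := by
    rw [← integral_neg]
    refine integral_congr_ae (Eventually.of_forall fun x => ?_)
    show lineDeriv ℝ ζ x (-v) * W x = -(w x * fderiv ℝ ζ x v)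
    have h4 : HasLineDerivAt ℝ ζ (fderiv ℝ ζ x (-v)) x (-v) :=
      ((hζ.differentiable (by simp)) x).hasFDerivAt.hasLineDerivAt (-v)
    rw [h4.lineDeriv, map_neg]
    by_cases hxs : x ∈ tsupport ζ
    · rw [← hWw (interior_subset (hζC hxs))]
      ring
    · have h5 : fderiv ℝ ζ x v = 0 := by
        have h6 : fderiv ℝ ζ x = 0 := by
          by_contra hne
          exact hxs (support_fderiv_subset ℝ hne)
        rw [h6]
        rfl
      rw [h5]
      ring
  rw [h2, h3] at h1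
  rw [strT, h1]
  ring

/-- The singular part is controlled by the length of `K`. -/
theorem str_T_bound {Ω K : Set ℂ} {M : ℝ} {w : ℂ → ℝ} {g : ℂ → ℂ} (h : StrData Ω K M w g)
    {M₁ : ℝ} (hM₁ : ∀ t, |deriv Real.smoothTransition t| ≤ M₁)
    {φ : ℂ → ℝ} (hφ : ContDiff ℝ ∞ φ) (hφc : HasCompactSupport φ) (hφs : tsupport φ ⊆ Ω)
    (v : ℂ) : ‖strT w g φ v‖ₑ ≤ ENNReal.ofReal (8 * Real.pi * M₁ * M * ‖v‖) *
      ∫⁻ x in K, ‖φ x‖ₑ ∂(μH[1] : Measure ℂ) := by
  have hM0 : 0 ≤ M := (abs_nonneg _).trans (h.wb 0)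
  have hM₁0 : 0 ≤ M₁ := (abs_nonneg _).trans (hM₁ 0)
  have hpi := Real.pi_pos
  set K₀ := tsupport φ \ (Ω \ K) with hK₀
  have hK₀c : IsCompact K₀ := hφc.diff h.rel
  have hK₀K : K₀ ⊆ K := by
    intro x hx
    by_contra hcon
    exact hx.2 ⟨hφs hx.1, hcon⟩
  have hK₀fin : (μH[1] : Measure ℂ) K₀ < ⊤ := by
    refine (measure_mono ?_).trans_lt (h.fin _ hφc hφs)
    exact fun x hx => ⟨hK₀K hx, hx.1⟩
  have hdφ : Continuous fun x => fderiv ℝ φ x v :=
    (hφ.continuous_fderiv (by simp)).clm_apply continuous_const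
  have hdφc : HasCompactSupport fun x => fderiv ℝ φ x v := hφc.fderiv_apply (𝕜 := ℝ) v
  obtain ⟨B₁, hB₁⟩ := hdφ.bounded_above_of_compact_support hdφc
  obtain ⟨B₀, hB₀⟩ := hφ.continuous.bounded_above_of_compact_support hφc
  have hB₀0 : 0 ≤ B₀ := (norm_nonneg _).trans (hB₀ 0)
  have hB₁0 : 0 ≤ B₁ := (norm_nonneg _).trans (hB₁ 0)
  have hgint : IntegrableOn g (tsupport φ) := h.gi.integrableOn_compact_subset hφs hφc
  -- the estimate for each cutoff
  have key : ∀ η : ℝ, 0 < η → ∃ S : Set ℂ, MeasurableSet S ∧ volume S ≤ ENNReal.ofReal η ∧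
      ‖strT w g φ v‖ₑ ≤ ENNReal.ofReal (M * B₁) * ENNReal.ofReal η +
        ENNReal.ofReal (M * ‖v‖) * (ENNReal.ofReal (8 * Real.pi * M₁) *
        ((∫⁻ y in K₀, ENNReal.ofReal (|φ y| + 2 * η) ∂(μH[1] : Measure ℂ)) + ENNReal.ofReal η)) +
        ENNReal.ofReal (B₀ * ‖v‖) * ∫⁻ x in S, ‖g x‖ₑ ∂(volume.restrict (tsupport φ)) := by
    intro η hη
    obtain ⟨χ, hχ, hχ01, ⟨U, hU, hKU, hχU⟩, hχv, hχg⟩ :=
      str_cutoff hM₁ hK₀c hK₀fin hφ.continuous hφc hη
    have hSm : MeasurableSet {y | χ y ≠ 1} :=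
      (measurableSet_eq_fun hχ.continuous.measurable measurable_const).compl
    refine ⟨{y | χ y ≠ 1}, hSm, hχv, ?_⟩
    set ζ : ℂ → ℝ := fun y => φ y * χ y with hζ
    have hζd : ContDiff ℝ ∞ ζ := hφ.mul hχ
    have hζc : HasCompactSupport ζ := hφc.mul_right
    have hζs : tsupport ζ ⊆ Ω \ K := by
      have h1 : tsupport ζ ⊆ tsupport φ ∩ Uᶜ := by
        refine closure_minimal ?_ ((isClosed_tsupport _).inter hU.isClosed_compl)
        intro x hx
        refine ⟨subset_closure ?_, fun hxU => hx ?_⟩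
        · intro h0
          exact hx (by simp [hζ, h0])
        · simp [hζ, hχU x hxU]
      intro x hx
      obtain ⟨h2, h3⟩ := h1 hx
      by_contra hcon
      exact h3 (hKU ⟨h2, hcon⟩)
    have hT0 := str_T_zero h hζd hζc hζs v
    have hdχ : Continuous fun x => φ x * fderiv ℝ χ x v :=
      hφ.continuous.mul ((hχ.continuous_fderiv (by simp)).clm_apply continuous_const)
    have hdχc : HasCompactSupport fun x => φ x * fderiv ℝ χ x v := hφc.mul_right
    have hF1 : Continuous fun x => (1 - χ x) * fderiv ℝ φ x v :=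
      (continuous_const.sub hχ.continuous).mul hdφ
    have hF1c : HasCompactSupport fun x => (1 - χ x) * fderiv ℝ φ x v := hdφc.mul_left
    have hF2 : Continuous fun x => (1 - χ x) * φ x :=
      (continuous_const.sub hχ.continuous).mul hφ.continuous
    have hF2c : HasCompactSupport fun x => (1 - χ x) * φ x := hφc.mul_left
    have hF2s : tsupport (fun x => (1 - χ x) * φ x) ⊆ Ω := by
      refine Subset.trans ?_ hφs
      refine closure_mono fun x hx h0 => hx ?_
      simp [h0]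
    have hdζ : Continuous fun x => fderiv ℝ ζ x v :=
      (hζd.continuous_fderiv (by simp)).clm_apply continuous_const
    have hdζc : HasCompactSupport fun x => fderiv ℝ ζ x v := hζc.fderiv_apply (𝕜 := ℝ) v
    have hdec : strT w g φ v = (∫ x, w x * ((1 - χ x) * fderiv ℝ φ x v)) -
        (∫ x, w x * (φ x * fderiv ℝ χ x v)) + ∫ x, (1 - χ x) * φ x * inner ℝ (g x) v := by
      have e1 : (∫ x, w x * fderiv ℝ φ x v) = (∫ x, w x * ((1 - χ x) * fderiv ℝ φ x v)) +
          ((∫ x, w x * fderiv ℝ ζ x v) - ∫ x, w x * (φ x * fderiv ℝ χ x v)) := by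
        have i1 := str_int1 h.wm h.wb hF1 hF1c
        have i2 := str_int1 h.wm h.wb hdζ hdζc
        have i3 := str_int1 h.wm h.wb hdχ hdχc
        have i4 : Integrable fun x => w x * fderiv ℝ ζ x v - w x * (φ x * fderiv ℝ χ x v) :=
          i2.sub i3
        rw [← integral_sub i2 i3, ← integral_add i1 i4]
        refine integral_congr_ae (Eventually.of_forall fun x => ?_)
        simp only [hζ, str_fderiv_mul hφ hχ]
        ring
      have e2 : (∫ x, φ x * inner ℝ (g x) v) = (∫ x, ζ x * inner ℝ (g x) v) +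
          ∫ x, (1 - χ x) * φ x * inner ℝ (g x) v := by
        rw [← integral_add (str_int2 h.gi hζd.continuous hζc (hζs.trans sdiff_subset) v)
          (str_int2 h.gi hF2 hF2c hF2s v)]
        refine integral_congr_ae (Eventually.of_forall fun x => ?_)
        simp only [hζ]
        ring
      rw [strT] at hT0
      rw [strT, e1, e2]
      linarith
    rw [hdec]
    refine (enorm_add_le _ _).trans ?_
    refine add_le_add ((enorm_sub_le).trans (add_le_add ?_ ?_)) ?_
    · -- first term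
      refine (enorm_integral_le_lintegral_enorm _).trans ?_
      have e3 : ∀ x, ‖w x * ((1 - χ x) * fderiv ℝ φ x v)‖ₑ ≤
          {y | χ y ≠ 1}.indicator (fun _ => ENNReal.ofReal (M * B₁)) x := by
        intro x
        by_cases hx : χ x ≠ 1
        · rw [indicator_of_mem (show x ∈ {y | χ y ≠ 1} from hx), ← ofReal_norm]
          refine ENNReal.ofReal_le_ofReal ?_
          rw [norm_mul, norm_mul, Real.norm_eq_abs, Real.norm_eq_abs (1 - χ x)]
          have h1 : |1 - χ x| ≤ 1 := by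
            rw [abs_le]
            constructor <;> linarith [(hχ01 x).1, (hχ01 x).2]
          calc |w x| * (|1 - χ x| * ‖fderiv ℝ φ x v‖) ≤ M * (1 * B₁) := by
                gcongr
                · exact h.wb x
                · exact hB₁ x
            _ = M * B₁ := by ring
        · rw [not_not] at hx
          simp [hx]
      refine (lintegral_mono e3).trans ?_
      rw [lintegral_indicator hSm, setLIntegral_const]
      gcongr
    · -- second term
      refine (enorm_integral_le_lintegral_enorm _).trans ?_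
      calc ∫⁻ x, ‖w x * (φ x * fderiv ℝ χ x v)‖ₑ
          ≤ ∫⁻ x, ENNReal.ofReal (M * ‖v‖) * (ENNReal.ofReal |φ x| * ‖fderiv ℝ χ x‖ₑ) := by
            refine lintegral_mono fun x => ?_
            rw [← ofReal_norm, ← ofReal_norm, ← ENNReal.ofReal_mul (abs_nonneg _),
              ← ENNReal.ofReal_mul (by positivity)]
            refine ENNReal.ofReal_le_ofReal ?_
            rw [norm_mul, norm_mul, Real.norm_eq_abs, Real.norm_eq_abs]
            calc |w x| * (|φ x| * ‖fderiv ℝ χ x v‖) ≤ M * (|φ x| * (‖fderiv ℝ χ x‖ * ‖v‖)) := by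
                  gcongr
                  · exact h.wb x
                  · exact ContinuousLinearMap.le_opNorm _ _
              _ = M * ‖v‖ * (|φ x| * ‖fderiv ℝ χ x‖) := by ring
        _ = ENNReal.ofReal (M * ‖v‖) * ∫⁻ x, ENNReal.ofReal |φ x| * ‖fderiv ℝ χ x‖ₑ :=
            lintegral_const_mul' _ _ ENNReal.ofReal_ne_top
        _ ≤ _ := by gcongr
    · -- third term
      refine (enorm_integral_le_lintegral_enorm _).trans ?_
      have e3 : ∀ x, ‖(1 - χ x) * φ x * inner ℝ (g x) v‖ₑ ≤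
          ENNReal.ofReal (B₀ * ‖v‖) * ({y | χ y ≠ 1} ∩ tsupport φ).indicator
            (fun x => ‖g x‖ₑ) x := by
        intro x
        by_cases hx : x ∈ {y | χ y ≠ 1} ∩ tsupport φ
        · rw [indicator_of_mem hx, ← ofReal_norm, ← ofReal_norm,
            ← ENNReal.ofReal_mul (by positivity)]
          refine ENNReal.ofReal_le_ofReal ?_
          rw [norm_mul, norm_mul, Real.norm_eq_abs (1 - χ x)]
          have h1 : |1 - χ x| ≤ 1 := by
            rw [abs_le]
            constructor <;> linarith [(hχ01 x).1, (hχ01 x).2]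
          calc |1 - χ x| * ‖φ x‖ * ‖(inner ℝ (g x) v : ℝ)‖ ≤ 1 * B₀ * (‖g x‖ * ‖v‖) := by
                gcongr
                · exact hB₀ x
                · exact norm_inner_le_norm _ _
            _ = B₀ * ‖v‖ * ‖g x‖ := by ring
        · have h1 : (1 - χ x) * φ x = 0 := by
            by_cases h2 : χ x = 1
            · simp [h2]
            · rw [image_eq_zero_of_notMem_tsupport (fun h3 => hx ⟨h2, h3⟩), mul_zero]
          rw [h1, zero_mul, enorm_zero]
          exact zero_le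
      refine (lintegral_mono e3).trans ?_
      rw [lintegral_const_mul' _ _ ENNReal.ofReal_ne_top,
        lintegral_indicator (hSm.inter (isClosed_tsupport _).measurableSet),
        Measure.restrict_restrict hSm]
  -- passing to the limit
  have hpos : ∀ n : ℕ, (0 : ℝ) < 1 / ((n : ℝ) + 1) := fun n => by positivity
  choose S hSm hSv hSk using fun n : ℕ => key (1 / ((n : ℝ) + 1)) (hpos n)
  have hlim : Tendsto (fun n : ℕ => ENNReal.ofReal (1 / ((n : ℝ) + 1))) atTop (𝓝 0) := by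
    have := ENNReal.tendsto_ofReal (tendsto_one_div_add_atTop_nhds_zero_nat (𝕜 := ℝ))
    simpa using this
  have hSlim : Tendsto (fun n => (volume.restrict (tsupport φ)) (S n)) atTop (𝓝 0) := by
    refine tendsto_of_tendsto_of_tendsto_of_le_of_le tendsto_const_nhds hlim
      (fun n => zero_le) (fun n => ?_)
    exact (Measure.le_iff'.1 Measure.restrict_le_self _).trans (hSv n)
  have hglim : Tendsto (fun n => ∫⁻ x in S n, ‖g x‖ₑ ∂(volume.restrict (tsupport φ))) atTop
      (𝓝 0) := by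
    refine tendsto_setLIntegral_zero ?_ hSlim
    exact hgint.2.ne
  have hWlim : Tendsto (fun n : ℕ => ∫⁻ y in K₀, ENNReal.ofReal (|φ y| + 2 * (1 / ((n : ℝ) + 1)))
      ∂(μH[1] : Measure ℂ)) atTop (𝓝 (∫⁻ y in K₀, ‖φ y‖ₑ ∂(μH[1] : Measure ℂ))) := by
    have e1 : ∀ n : ℕ, ∫⁻ y in K₀, ENNReal.ofReal (|φ y| + 2 * (1 / ((n : ℝ) + 1)))
        ∂(μH[1] : Measure ℂ) = (∫⁻ y in K₀, ‖φ y‖ₑ ∂(μH[1] : Measure ℂ)) +
          2 * ENNReal.ofReal (1 / ((n : ℝ) + 1)) * (μH[1] : Measure ℂ) K₀ := by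
      intro n
      rw [← setLIntegral_const, ← lintegral_add_right _ measurable_const]
      refine lintegral_congr fun y => ?_
      rw [ENNReal.ofReal_add (abs_nonneg _) (by positivity), ENNReal.ofReal_mul (by norm_num)]
      congr 1
      · rw [← ofReal_norm, Real.norm_eq_abs]
      · simp
    simp_rw [e1]
    have e2 : Tendsto (fun n : ℕ => 2 * ENNReal.ofReal (1 / ((n : ℝ) + 1)) *
        (μH[1] : Measure ℂ) K₀) atTop (𝓝 (2 * 0 * (μH[1] : Measure ℂ) K₀)) := by
      refine ENNReal.Tendsto.mul_const (ENNReal.Tendsto.const_mul hlim (Or.inr (by simp))) ?_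
      exact Or.inr hK₀fin.ne
    have e3 := e2.const_add (∫⁻ y in K₀, ‖φ y‖ₑ ∂(μH[1] : Measure ℂ))
    simpa using e3
  have hall : Tendsto (fun n : ℕ => ENNReal.ofReal (M * B₁) * ENNReal.ofReal (1 / ((n : ℝ) + 1)) +
        ENNReal.ofReal (M * ‖v‖) * (ENNReal.ofReal (8 * Real.pi * M₁) *
        ((∫⁻ y in K₀, ENNReal.ofReal (|φ y| + 2 * (1 / ((n : ℝ) + 1)))
          ∂(μH[1] : Measure ℂ)) + ENNReal.ofReal (1 / ((n : ℝ) + 1)))) +
        ENNReal.ofReal (B₀ * ‖v‖) * ∫⁻ x in S n, ‖g x‖ₑ ∂(volume.restrict (tsupport φ))) atTop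
      (𝓝 (ENNReal.ofReal (M * B₁) * 0 + ENNReal.ofReal (M * ‖v‖) *
        (ENNReal.ofReal (8 * Real.pi * M₁) *
        ((∫⁻ y in K₀, ‖φ y‖ₑ ∂(μH[1] : Measure ℂ)) + 0)) + ENNReal.ofReal (B₀ * ‖v‖) * 0)) := by
    refine ((ENNReal.Tendsto.const_mul hlim (Or.inr ENNReal.ofReal_ne_top)).add ?_).add
      (ENNReal.Tendsto.const_mul hglim (Or.inr ENNReal.ofReal_ne_top))
    exact ENNReal.Tendsto.const_mul (ENNReal.Tendsto.const_mul (hWlim.add hlim)
      (Or.inr ENNReal.ofReal_ne_top)) (Or.inr ENNReal.ofReal_ne_top)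
  have hfinal := ge_of_tendsto' hall hSk
  refine hfinal.trans ?_
  rw [mul_zero, zero_add, add_zero, mul_zero, add_zero, ← mul_assoc,
    ← ENNReal.ofReal_mul (by positivity)]
  refine mul_le_mul' (ENNReal.ofReal_le_ofReal (le_of_eq (by ring))) ?_
  exact lintegral_mono_set hK₀K

end Pool.Agent.MP099f24
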