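import Mathlib
import Pool.Agent.Lib.MP_099f24_an.Blowup
import Pool.Agent.Lib.MP_099f24_an.MolDeriv
import Pool.Agent.Lib.MP_099f24_an.ChainAux
import Pool.Agent.Lib.MP_099f24_an.Step
import Pool.Agent.Lib.MP_099f24_an.ST.Bound

/-!
# MP_099f24_an, STRUCT package: functions whose weak derivative vanishes

A bounded function which is invariant under a dense set of dilations and whose weak derivative in
the direction `e` vanishes is constant on each side of the line through `0` of direction `e`.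
-/

namespace Pool.Agent.MP099f24

open MeasureTheory Filter Topology Set Metric
open scoped ENNReal NNReal ContDiff

/-- The weak derivative vanishes on the convex open set `H`: the function is constant. -/
theorem str_weak_const {W : ℂ → ℝ} {M : ℝ} (hWm : Measurable W) (hWb : ∀ x, |W x| ≤ M)
    {H : Set ℂ} (hH : IsOpen H) (hconv : Convex ℝ H)
    (h0 : ∀ φ : ℂ → ℝ, ContDiff ℝ ∞ φ → HasCompactSupport φ → tsupport φ ⊆ H → ∀ v : ℂ,
      ∫ x, W x * fderiv ℝ φ x v = 0) :
    ∃ a : ℝ, ∀ᵐ y : ℂ, y ∈ H → W y = a := by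
  have hform : ∀ φ : ℂ → ℝ, ContDiff ℝ ∞ φ → HasCompactSupport φ → tsupport φ ⊆ H → ∀ v : ℂ,
      ∫ x in H, W x * fderiv ℝ φ x v =
        - (∫ x in H, φ x * inner ℝ ((fun _ : ℂ => (0 : ℂ)) x) v) -
          ∫ x in H, φ x * inner ℝ ((fun _ : ℂ => (0 : ℂ)) x) v ∂(μH[1] : Measure ℂ) := by
    intro φ h1 h2 h3 v
    have e1 : ∫ x in H, W x * fderiv ℝ φ x v = ∫ x, W x * fderiv ℝ φ x v := by
      refine setIntegral_eq_integral_of_forall_compl_eq_zero fun x hx => ?_
      have h4 : fderiv ℝ φ x = 0 := by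
        have h5 : x ∉ tsupport (fderiv ℝ φ) := fun h => hx (h3 (tsupport_fderiv_subset ℝ h))
        exact image_eq_zero_of_notMem_tsupport h5
      rw [h4]
      simp
    rw [e1, h0 φ h1 h2 h3 v]
    simp
  -- local integrability
  have hloc : ∀ C : Set ℂ, IsCompact C → IntegrableOn W C := by
    intro C hC
    refine Measure.integrableOn_of_bounded (M := M) hC.measure_lt_top.ne
      hWm.aestronglyMeasurable ?_
    exact Eventually.of_forall fun x => by rw [Real.norm_eq_abs]; exact hWb x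
  -- Lebesgue points
  have hleb : ∀ᵐ y : ℂ, IsApproxLim W y (W y) := by
    have h1 : ∀ n : ℕ, ∀ᵐ y : ℂ, IsApproxLim ((closedBall (0 : ℂ) n).indicator W) y
        ((closedBall (0 : ℂ) n).indicator W y) := fun n =>
      ae_isApproxLim ((integrable_indicator_iff measurableSet_closedBall).2
        (hloc _ (isCompact_closedBall _ _)))
    filter_upwards [ae_all_iff.2 h1] with y hy
    obtain ⟨n, hn⟩ := exists_nat_gt ‖y‖
    have hyn : ball (0 : ℂ) n ∈ 𝓝 y := isOpen_ball.mem_nhds (by rwa [mem_ball_zero_iff])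
    have h2 := hy n
    have h3 : (closedBall (0 : ℂ) n).indicator W y = W y := by
      refine indicator_of_mem ?_ _
      rw [mem_closedBall_zero_iff]
      exact hn.le
    rw [h3] at h2
    refine IsApproxLim.congr_ae hyn ?_ h2
    rw [ae_restrict_iff' measurableSet_ball]
    refine Eventually.of_forall fun z hz => ?_
    exact indicator_of_mem (ball_subset_closedBall hz) _
  -- two Lebesgue points
  have key : ∀ y y' : ℂ, y ∈ H → y' ∈ H → IsApproxLim W y (W y) → IsApproxLim W y' (W y') →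
      W y = W y' := by
    intro y y' hy hy' hly hly'
    have hseg : segment ℝ y y' ⊆ H := hconv.segment_subset hy hy'
    have hsegc : IsCompact (segment ℝ y y') := by
      rw [segment_eq_image ℝ y y']
      refine isCompact_Icc.image ?_
      fun_prop
    obtain ⟨δ, hδ, hδH⟩ := hsegc.exists_cthickening_subset_open hH hseg
    set C := cthickening δ (segment ℝ y y') with hC
    have hCc : IsCompact C := hsegc.cthickening
    have hsubC : ∀ x ∈ segment ℝ y y', ∀ ε : ℝ, ε ≤ δ → closedBall x ε ⊆ C := by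
      intro x hx ε hε z hz
      exact mem_cthickening_of_dist_le z x δ _ hx ((mem_closedBall.1 hz).trans hε)
    have hnhds : ∀ x ∈ segment ℝ y y', C ∈ 𝓝 x := by
      intro x hx
      exact mem_of_superset (closedBall_mem_nhds x hδ) (hsubC x hx δ le_rfl)
    have hends : ∀ x ∈ segment ℝ y y', IsApproxLim W x (W x) →
        Tendsto (fun ε : ℝ => mol (C.indicator W) ε x) (𝓝[>] 0) (𝓝 (W x)) := by
      intro x hx hlx
      have h1 : IsApproxLim (C.indicator W) x (W x) := by
        refine IsApproxLim.congr_ae (hnhds x hx) ?_ hlx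
        rw [ae_restrict_iff' hCc.measurableSet]
        exact Eventually.of_forall fun z hz => (indicator_of_mem hz W).symm
      have h2 : IntegrableOn (C.indicator W) C :=
        ((integrable_indicator_iff hCc.measurableSet).2 (hloc C hCc)).integrableOn
      have h3 := mol_tendsto_of_approxLim (hnhds x hx) h2 h1
      rw [Metric.tendsto_nhds]
      intro η hη
      filter_upwards [h3 η hη] with ε hε
      have := hε 0 (by simp)
      rw [smul_zero, add_zero] at this
      rwa [Real.dist_eq]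
    have heq : ∀ᶠ ε : ℝ in 𝓝[>] 0, mol (C.indicator W) ε y = mol (C.indicator W) ε y' := by
      have hlt : ∀ᶠ ε : ℝ in 𝓝[>] 0, ε < δ := nhdsWithin_le_nhds (Iio_mem_nhds hδ)
      filter_upwards [self_mem_nhdsWithin, hlt] with ε hε hεδ
      have hε0 : (0 : ℝ) < ε := hε
      have hdiff : ContDiff ℝ ∞ (mol (C.indicator W) ε) :=
        mol_contDiff ((integrable_indicator_iff hCc.measurableSet).2 (hloc C hCc)) hε0
      have hder : ∀ x ∈ segment ℝ y y', ‖fderiv ℝ (mol (C.indicator W) ε) x‖ ≤ 0 := by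
        intro x hx
        rw [norm_le_zero_iff]
        ext v
        have h4 := mol_fderiv (Ω := H) (w := W) (g := fun _ => 0) (j := fun _ => 0) (K := C) hCc
          hδH (hloc C hCc) hform hε0 (hsubC x hx ε hεδ.le) v
        rw [h4]
        simp
      have h5 := (convex_segment y y').norm_image_sub_le_of_norm_fderiv_le
        (fun x _ => (hdiff.differentiable (by simp)) x) hder (left_mem_segment ℝ y y')
        (right_mem_segment ℝ y y')
      rw [zero_mul, norm_le_zero_iff, sub_eq_zero] at h5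
      exact h5.symm
    have h6 := hends y (left_mem_segment ℝ y y') hly
    have h7 := hends y' (right_mem_segment ℝ y y') hly'
    exact tendsto_nhds_unique (h6.congr' heq) h7
  rcases eq_or_ne (volume H) 0 with hH0 | hH0
  · refine ⟨0, ?_⟩
    have : ∀ᵐ y : ℂ, y ∉ H := by
      rw [ae_iff]
      simpa using hH0
    filter_upwards [this] with y hy hyH
    exact absurd hyH hy
  · have h8 : ∃ y ∈ H, IsApproxLim W y (W y) := by
      by_contra hcon
      push Not at hcon
      apply hH0
      refine measure_mono_null ?_ (ae_iff.1 hleb)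
      intro y hy
      exact hcon y hy
    obtain ⟨y₀, hy₀, hl₀⟩ := h8
    refine ⟨W y₀, ?_⟩
    filter_upwards [hleb] with y hly hyH
    exact key y y₀ hyH hy₀ hly hl₀

/-- Invariance under rational dilations, in weak form. -/
theorem str_hom_div {W : ℂ → ℝ} {M : ℝ} (hWm : Measurable W) (hWb : ∀ x, |W x| ≤ M)
    (hhom : ∀ q : ℚ, 0 < q → ∀ᵐ y : ℂ, W ((q : ℝ) • y) = W y) {φ : ℂ → ℝ} (hφ : ContDiff ℝ ∞ φ)
    (hφc : HasCompactSupport φ) : ∫ y, W y * (fderiv ℝ φ y y + 2 * φ y) = 0 := by
  have hM0 : 0 ≤ M := (abs_nonneg _).trans (hWb 0)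
  obtain ⟨R, hR0, hR⟩ : ∃ R : ℝ, 0 < R ∧ tsupport φ ⊆ closedBall 0 R := by
    obtain ⟨R, hR⟩ := hφc.isBounded.subset_closedBall 0
    exact ⟨max R 1, by positivity, hR.trans (closedBall_subset_closedBall (le_max_left _ _))⟩
  have hfc : HasCompactSupport (fderiv ℝ φ) := hφc.fderiv (𝕜 := ℝ)
  have hfcont : Continuous (fderiv ℝ φ) := hφ.continuous_fderiv (by simp)
  obtain ⟨D, hD⟩ := hfcont.bounded_above_of_compact_support hfc
  have hD0 : 0 ≤ D := (norm_nonneg _).trans (hD 0)
  have hzero : ∀ y : ℂ, R < ‖y‖ → fderiv ℝ φ y = 0 := by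
    intro y hy
    refine image_eq_zero_of_notMem_tsupport fun h => ?_
    have := hR (tsupport_fderiv_subset ℝ h)
    rw [mem_closedBall_zero_iff] at this
    linarith
  have hI : ∀ t : ℝ, 0 < t → Integrable (fun y : ℂ => W y * φ (t • y)) := by
    intro t ht
    refine Integrable.bdd_mul (c := M) ?_ hWm.aestronglyMeasurable ?_
    · have := bl_scale_integrable (hφ.continuous.integrable_of_hasCompactSupport hφc) 0 ht
      simpa only [zero_add] using this
    · exact Eventually.of_forall fun x => by rw [Real.norm_eq_abs]; exact hWb x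
  have hG := hasDerivAt_integral_of_dominated_loc_of_deriv_le (𝕜 := ℝ) (μ := (volume : Measure ℂ))
    (F := fun t (y : ℂ) => W y * φ (t • y)) (x₀ := (1 : ℝ)) (s := ball (1 : ℝ) (1 / 2))
    (F' := fun t (y : ℂ) => W y * fderiv ℝ φ (t • y) y)
    (bound := (closedBall (0 : ℂ) (2 * R)).indicator fun _ => M * (D * (2 * R)))
    (ball_mem_nhds _ (by norm_num)) ?_ (hI 1 one_pos) ?_ ?_ ?_ ?_
  rotate_left
  · refine Eventually.of_forall fun t => ?_
    exact (hWm.mul (hφ.continuous.measurable.comp (measurable_const_smul t))).aestronglyMeasurable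
  · refine (hWm.mul ?_).aestronglyMeasurable
    refine Continuous.measurable ?_
    exact (hfcont.comp (continuous_const_smul 1)).clm_apply continuous_id
  · refine Eventually.of_forall fun y t ht => ?_
    have ht1 : 1 / 2 < t ∧ t < 3 / 2 := by
      rw [mem_ball, Real.dist_eq, abs_lt] at ht
      constructor <;> linarith [ht.1, ht.2]
    by_cases hy : y ∈ closedBall (0 : ℂ) (2 * R)
    · rw [indicator_of_mem hy, norm_mul]
      rw [mem_closedBall_zero_iff] at hy
      have h1 : ‖fderiv ℝ φ (t • y) y‖ ≤ D * (2 * R) :=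
        (ContinuousLinearMap.le_opNorm _ _).trans
          (mul_le_mul (hD _) hy (norm_nonneg _) hD0)
      refine mul_le_mul ?_ h1 (norm_nonneg _) hM0
      rw [Real.norm_eq_abs]
      exact hWb y
    · rw [indicator_of_notMem hy, hzero]
      · simp
      · rw [mem_closedBall_zero_iff, not_le] at hy
        rw [norm_smul, Real.norm_of_nonneg (by linarith)]
        nlinarith
  · exact (integrable_indicator_iff measurableSet_closedBall).2
      (integrableOn_const (isCompact_closedBall _ _).measure_lt_top.ne)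
  · refine Eventually.of_forall fun y t _ => ?_
    have h1 : HasDerivAt (fun s : ℝ => s • y) y t := by
      simpa using (hasDerivAt_id t).smul_const y
    have h2 := ((hφ.differentiable (by simp)) (t • y)).hasFDerivAt.comp_hasDerivAt t h1
    exact h2.const_mul (W y)
  -- the scaling relation
  have hscale : ∀ q : ℚ, 0 < q → (q : ℝ) ^ 2 * (∫ y, W y * φ ((q : ℝ) • y)) = ∫ y, W y * φ y := by
    intro q hq
    have hq' : (0 : ℝ) < q := by exact_mod_cast hq
    have h1 : ∫ y, W y * φ ((q : ℝ) • y) = ∫ y, W ((q : ℝ) • y) * φ ((q : ℝ) • y) := by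
      refine integral_congr_ae ?_
      filter_upwards [hhom q hq] with y hy
      rw [hy]
    have h2 := bl_scale (fun z => W z * φ z) 0 hq'
    simp only [zero_add] at h2
    rw [h1, h2, ← mul_assoc, mul_inv_cancel₀ (by positivity), one_mul]
  have hder : HasDerivAt (fun t : ℝ => t ^ 2 * ∫ y, W y * φ (t • y))
      (2 * (∫ y, W y * φ y) + ∫ y, W y * fderiv ℝ φ y y) 1 := by
    have h1 := (hasDerivAt_pow 2 (1 : ℝ)).mul hG.2
    refine h1.congr_deriv ?_
    simp
  have hslope := hder.tendsto_slope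
  have htn : Tendsto (fun n : ℕ => (1 : ℝ) + 1 / ((n : ℝ) + 1)) atTop (𝓝[≠] 1) := by
    refine tendsto_nhdsWithin_iff.2 ⟨?_, Eventually.of_forall fun n => ?_⟩
    · have := (tendsto_one_div_add_atTop_nhds_zero_nat (𝕜 := ℝ)).const_add 1
      rwa [add_zero] at this
    · have : (0 : ℝ) < 1 / ((n : ℝ) + 1) := by positivity
      show (1 : ℝ) + 1 / ((n : ℝ) + 1) ≠ 1
      linarith
  have h3 := hslope.comp htn
  have h4 : ∀ n : ℕ, (slope (fun t : ℝ => t ^ 2 * ∫ y, W y * φ (t • y)) 1 ∘
      fun n : ℕ => (1 : ℝ) + 1 / ((n : ℝ) + 1)) n = 0 := by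
    intro n
    have h5 := hscale (1 + 1 / ((n : ℚ) + 1)) (by positivity)
    push_cast at h5
    have h6 := hscale 1 one_pos
    push_cast at h6
    rw [Function.comp_apply, slope_def_field]
    rw [h5, h6, sub_self, zero_div]
  have h7 : (2 * (∫ y, W y * φ y) + ∫ y, W y * fderiv ℝ φ y y) = 0 := by
    refine tendsto_nhds_unique h3 ?_
    rw [show (slope (fun t : ℝ => t ^ 2 * ∫ y, W y * φ (t • y)) 1 ∘
      fun n : ℕ => (1 : ℝ) + 1 / ((n : ℝ) + 1)) = fun _ => 0 from funext h4]
    exact tendsto_const_nhds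
  have i1 := hI 1 one_pos
  simp only [one_smul] at i1
  have i2 := hG.1
  simp only [one_smul] at i2
  calc ∫ y, W y * (fderiv ℝ φ y y + 2 * φ y)
      = ∫ y, (2 * (W y * φ y) + W y * fderiv ℝ φ y y) :=
        integral_congr_ae (Eventually.of_forall fun y => by
          show W y * (fderiv ℝ φ y y + 2 * φ y) = 2 * (W y * φ y) + W y * fderiv ℝ φ y y
          ring)
    _ = 2 * (∫ y, W y * φ y) + ∫ y, W y * fderiv ℝ φ y y := by
        rw [integral_add (i1.const_mul 2) i2, integral_const_mul]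
    _ = 0 := h7

theorem str_inner_eq (x y : ℂ) : inner ℝ x y = x.re * y.re + x.im * y.im := by
  rw [Complex.inner, Complex.mul_re, Complex.conj_re, Complex.conj_im]
  ring

theorem str_unit {ν : ℂ} (hν : ‖ν‖ = 1) : ν.re ^ 2 + ν.im ^ 2 = 1 := by
  have h := Complex.sq_norm ν
  rw [hν, Complex.normSq_apply] at h
  nlinarith

theorem str_decomp {ν : ℂ} (hν : ‖ν‖ = 1) (y : ℂ) :
    y = (inner ℝ y ν : ℝ) • ν + (inner ℝ y (Complex.I * ν) : ℝ) • (Complex.I * ν) := by
  have h := str_unit hν
  rw [str_inner_eq, str_inner_eq]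
  apply Complex.ext
  · simp
    linear_combination (-y.re) * h
  · simp
    linear_combination (-y.im) * h

theorem str_inner_IL {ν : ℂ} : inner ℝ (Complex.I * ν) ν = (0 : ℝ) := by
  rw [str_inner_eq]
  simp
  ring

theorem str_inner_II {ν : ℂ} (hν : ‖ν‖ = 1) :
    inner ℝ (Complex.I * ν) (Complex.I * ν) = (1 : ℝ) := by
  have h := str_unit hν
  rw [str_inner_eq]
  simp
  linear_combination h

/-- Invariance under rational dilations and vanishing derivative in the direction `i ν`: the
function is constant on the half plane `{y | 0 < ⟪y, ν⟫}`. -/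
theorem str_half_const {W : ℂ → ℝ} {M : ℝ} (hWm : Measurable W) (hWb : ∀ x, |W x| ≤ M)
    (hhom : ∀ q : ℚ, 0 < q → ∀ᵐ y : ℂ, W ((q : ℝ) • y) = W y) {ν : ℂ} (hν : ‖ν‖ = 1)
    (he : ∀ φ : ℂ → ℝ, ContDiff ℝ ∞ φ → HasCompactSupport φ →
      ∫ x, W x * fderiv ℝ φ x (Complex.I * ν) = 0) :
    ∃ a : ℝ, ∀ᵐ y : ℂ, 0 < inner ℝ y ν → W y = a := by
  have hlin : ContDiff ℝ ∞ (fun y : ℂ => (inner ℝ y ν : ℝ)) := contDiff_id.inner ℝ contDiff_const
  have hline : ContDiff ℝ ∞ (fun y : ℂ => (inner ℝ y (Complex.I * ν) : ℝ)) :=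
    contDiff_id.inner ℝ contDiff_const
  have hfd : ∀ e y v : ℂ, fderiv ℝ (fun y : ℂ => (inner ℝ y e : ℝ)) y v = inner ℝ v e := by
    intro e y v
    have h := ((hasFDerivAt_id (𝕜 := ℝ) y).inner ℝ (hasFDerivAt_const e y)).fderiv
    have h' : fderiv ℝ (fun y : ℂ => (inner ℝ y e : ℝ)) y = _ := h
    rw [h']
    simp [fderivInnerCLM_apply]
  have hνν : inner ℝ ν ν = (1 : ℝ) := by
    rw [real_inner_self_eq_norm_sq, hν]
    norm_num
  refine str_weak_const hWm hWb (H := {y : ℂ | 0 < inner ℝ y ν})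
    (isOpen_lt continuous_const hlin.continuous) ?_ ?_
  · intro x hx y hy s t hs ht hst
    have hx' : 0 < inner ℝ x ν := hx
    have hy' : 0 < inner ℝ y ν := hy
    show 0 < inner ℝ (s • x + t • y) ν
    rw [inner_add_left, real_inner_smul_left, real_inner_smul_left]
    rcases hs.eq_or_lt with h0 | h0
    · rw [← h0] at hst ⊢
      rw [zero_add] at hst
      rw [hst]
      linarith
    · have := mul_pos h0 hx'
      have := mul_nonneg ht hy'.le
      linarith
  intro φ hφ hφc hφs v
  -- the auxiliary test functions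
  set φ' : ℂ → ℝ := fun y => φ y * (inner ℝ y ν)⁻¹ with hφ'
  have hmul : ∀ y, φ' y * inner ℝ y ν = φ y := by
    intro y
    by_cases hy : y ∈ tsupport φ
    · have h1 : (0 : ℝ) < inner ℝ y ν := hφs hy
      show φ y * (inner ℝ y ν)⁻¹ * inner ℝ y ν = φ y
      rw [mul_assoc, inv_mul_cancel₀ h1.ne', mul_one]
    · show φ y * (inner ℝ y ν)⁻¹ * inner ℝ y ν = φ y
      rw [image_eq_zero_of_notMem_tsupport hy]
      simp
  have hφ's : ContDiff ℝ ∞ φ' := by
    rw [contDiff_iff_contDiffAt]
    intro y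
    by_cases hy : y ∈ tsupport φ
    · have h1 : (0 : ℝ) < inner ℝ y ν := hφs hy
      exact hφ.contDiffAt.mul (hlin.contDiffAt.inv h1.ne')
    · have h1 : φ' =ᶠ[𝓝 y] fun _ => 0 := by
        filter_upwards [(isClosed_tsupport φ).isOpen_compl.mem_nhds hy] with z hz
        show φ z * (inner ℝ z ν)⁻¹ = 0
        rw [image_eq_zero_of_notMem_tsupport hz, zero_mul]
      exact contDiffAt_const.congr_of_eventuallyEq h1
  have hφ'c : HasCompactSupport φ' := hφc.mul_right
  set ψ : ℂ → ℝ := fun y => φ' y * inner ℝ y (Complex.I * ν) with hψ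
  have hψs : ContDiff ℝ ∞ ψ := hφ's.mul hline
  have hψc : HasCompactSupport ψ := hφ'c.mul_right
  have hprod : ∀ e y v : ℂ, fderiv ℝ (fun y : ℂ => φ' y * (inner ℝ y e : ℝ)) y v =
      φ' y * inner ℝ v e + inner ℝ y e * fderiv ℝ φ' y v := by
    intro e y v
    have h1 : ContDiff ℝ ∞ (fun y : ℂ => (inner ℝ y e : ℝ)) := contDiff_id.inner ℝ contDiff_const
    rw [str_fderiv_mul hφ's h1 y v, hfd]
  -- the pointwise identities
  have hφν : ∀ y, fderiv ℝ φ y ν = φ' y + inner ℝ y ν * fderiv ℝ φ' y ν := by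
    intro y
    have h1 := hprod ν y ν
    rw [show (fun y : ℂ => φ' y * (inner ℝ y ν : ℝ)) = φ from funext hmul, hνν, mul_one] at h1
    exact h1
  have hψe : ∀ y, fderiv ℝ ψ y (Complex.I * ν) =
      φ' y + inner ℝ y (Complex.I * ν) * fderiv ℝ φ' y (Complex.I * ν) := by
    intro y
    have h1 := hprod (Complex.I * ν) y (Complex.I * ν)
    rw [str_inner_II hν, mul_one] at h1
    exact h1
  have hyy : ∀ y, fderiv ℝ φ' y y = inner ℝ y ν * fderiv ℝ φ' y ν +
      inner ℝ y (Complex.I * ν) * fderiv ℝ φ' y (Complex.I * ν) := by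
    intro y
    have h1 := congrArg (fderiv ℝ φ' y) (str_decomp hν y)
    rw [map_add, map_smul, map_smul, smul_eq_mul, smul_eq_mul] at h1
    exact h1
  have hid : ∀ y, fderiv ℝ φ y ν =
      (fderiv ℝ φ' y y + 2 * φ' y) - fderiv ℝ ψ y (Complex.I * ν) := by
    intro y
    rw [hφν, hψe, hyy]
    ring
  have hint : ∀ {χ : ℂ → ℝ}, ContDiff ℝ ∞ χ → HasCompactSupport χ → ∀ e : ℂ,
      Integrable (fun y => W y * fderiv ℝ χ y e) := by
    intro χ h1 h2 e
    exact str_int1 hWm hWb ((h1.continuous_fderiv (by simp)).clm_apply continuous_const)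
      (h2.fderiv_apply (𝕜 := ℝ) e)
  have hν0 : ∫ y, W y * fderiv ℝ φ y ν = 0 := by
    have h1 := str_hom_div hWm hWb hhom hφ's hφ'c
    have h2 := he ψ hψs hψc
    have h3 : ∫ y, W y * fderiv ℝ φ y ν = ∫ y, (W y * (fderiv ℝ φ' y y + 2 * φ' y) -
        W y * fderiv ℝ ψ y (Complex.I * ν)) := by
      refine integral_congr_ae (Eventually.of_forall fun y => ?_)
      show W y * fderiv ℝ φ y ν = W y * (fderiv ℝ φ' y y + 2 * φ' y) -
        W y * fderiv ℝ ψ y (Complex.I * ν)
      rw [hid]
      ring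
    rw [h3, integral_sub, h1, h2, sub_zero]
    · refine str_int1 hWm hWb ?_ ?_
      · exact ((hφ's.continuous_fderiv (by simp)).clm_apply continuous_id).add
          (continuous_const.mul hφ's.continuous)
      · refine HasCompactSupport.add ?_ ?_
        · refine (hφ'c.fderiv (𝕜 := ℝ)).mono ?_
          intro y hy h0
          apply hy
          show fderiv ℝ φ' y y = 0
          rw [h0]
          rfl
        · exact hφ'c.mul_left
    · exact hint hψs hψc _
  have hv := str_decomp hν v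
  have h1 : ∀ y, W y * fderiv ℝ φ y v = inner ℝ v ν * (W y * fderiv ℝ φ y ν) +
      inner ℝ v (Complex.I * ν) * (W y * fderiv ℝ φ y (Complex.I * ν)) := by
    intro y
    have h2 := congrArg (fderiv ℝ φ y) hv
    rw [map_add, map_smul, map_smul, smul_eq_mul, smul_eq_mul] at h2
    rw [h2]
    ring
  calc ∫ y, W y * fderiv ℝ φ y v = ∫ y, (inner ℝ v ν * (W y * fderiv ℝ φ y ν) +
      inner ℝ v (Complex.I * ν) * (W y * fderiv ℝ φ y (Complex.I * ν))) :=
        integral_congr_ae (Eventually.of_forall h1)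
    _ = 0 := by
        rw [integral_add ((hint hφ hφc _).const_mul _) ((hint hφ hφc _).const_mul _),
          integral_const_mul, integral_const_mul, hν0, he φ hφ hφc]
        simp

theorem str_inner_LI {ν : ℂ} : inner ℝ ν (Complex.I * ν) = (0 : ℝ) := by
  rw [str_inner_eq]
  simp
  ring

/-- Test functions which detect the jump of a step function. -/
theorem str_step_test {ν : ℂ} (hν : ‖ν‖ = 1) {ε : ℝ} (hε : 0 < ε) (hε1 : ε < 1 / 2) :
    ∃ φ : ℂ → ℝ, ContDiff ℝ ∞ φ ∧ (∀ y, 0 ≤ φ y) ∧ (∀ y, φ y ≤ 1) ∧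
      tsupport φ ⊆ closedBall 0 1 ∧ ∃ c : ℝ, 2 * (1 - 2 * ε) ≤ c ∧
        ∀ a b : ℝ, ∫ y, blStep a b ν y * fderiv ℝ φ y ν = -((a - b) * c) := by
  let b₁ : ContDiffBump (0 : ℝ) := ⟨ε / 2, ε, by positivity, by linarith⟩
  let b₂ : ContDiffBump (0 : ℝ) := ⟨1 - 2 * ε, 1 - ε, by linarith, by linarith⟩
  have hs₁ : ContDiff ℝ ∞ b₁ := b₁.contDiff
  have hs₂ : ContDiff ℝ ∞ b₂ := b₂.contDiff
  have hc₁ : HasCompactSupport b₁ := b₁.hasCompactSupport
  have hc₂ : HasCompactSupport b₂ := b₂.hasCompactSupport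
  have hlin : ∀ e : ℂ, ContDiff ℝ ∞ (fun y : ℂ => (inner ℝ y e : ℝ)) := fun e =>
    contDiff_id.inner ℝ contDiff_const
  set φ : ℂ → ℝ := fun y => b₁ (inner ℝ y ν) * b₂ (inner ℝ y (Complex.I * ν)) with hφ
  have hφs : ContDiff ℝ ∞ φ := (hs₁.comp (hlin ν)).mul (hs₂.comp (hlin _))
  have hnorm : ∀ y : ℂ, ‖y‖ ^ 2 = (inner ℝ y ν) ^ 2 + (inner ℝ y (Complex.I * ν)) ^ 2 := by
    intro y
    have h := str_unit hν
    rw [Complex.sq_norm, Complex.normSq_apply, str_inner_eq, str_inner_eq]
    simp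
    linear_combination (-(y.re ^ 2 + y.im ^ 2)) * h
  have hsupp : ∀ y, φ y ≠ 0 → y ∈ closedBall (0 : ℂ) 1 := by
    intro y hy
    have h1 : b₁ (inner ℝ y ν) ≠ 0 := fun h => hy (by simp only [hφ, h, zero_mul])
    have h2 : b₂ (inner ℝ y (Complex.I * ν)) ≠ 0 := fun h => hy (by simp only [hφ, h, mul_zero])
    have h3 : inner ℝ y ν ∈ ball (0 : ℝ) ε := by
      have : inner ℝ y ν ∈ Function.support b₁ := h1
      rwa [b₁.support_eq] at this
    have h4 : inner ℝ y (Complex.I * ν) ∈ ball (0 : ℝ) (1 - ε) := by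
      have : inner ℝ y (Complex.I * ν) ∈ Function.support b₂ := h2
      rwa [b₂.support_eq] at this
    rw [mem_ball_zero_iff, Real.norm_eq_abs] at h3 h4
    rw [mem_closedBall_zero_iff]
    have h5 : (inner ℝ y ν : ℝ) ^ 2 ≤ ε ^ 2 := sq_le_sq' (by linarith [abs_lt.1 h3]) (abs_lt.1 h3).2.le
    have h6 : (inner ℝ y (Complex.I * ν) : ℝ) ^ 2 ≤ (1 - ε) ^ 2 :=
      sq_le_sq' (by linarith [abs_lt.1 h4]) (abs_lt.1 h4).2.le
    have h7 := hnorm y
    nlinarith [norm_nonneg y]
  have hts : tsupport φ ⊆ closedBall 0 1 := closure_minimal hsupp isClosed_closedBall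
  refine ⟨φ, hφs, fun y => mul_nonneg b₁.nonneg b₂.nonneg, fun y => ?_, hts,
    ∫ t, b₂ t, ?_, ?_⟩
  · calc φ y ≤ 1 * 1 := mul_le_mul b₁.le_one b₂.le_one b₂.nonneg zero_le_one
      _ = 1 := one_mul 1
  · have h1 : ∫ t in Icc (-(1 - 2 * ε)) (1 - 2 * ε), (1 : ℝ) ≤ ∫ t, b₂ t := by
      have h2 : ∫ t in Icc (-(1 - 2 * ε)) (1 - 2 * ε), (1 : ℝ) =
          ∫ t in Icc (-(1 - 2 * ε)) (1 - 2 * ε), b₂ t := by
        refine setIntegral_congr_fun measurableSet_Icc fun t ht => ?_
        refine (b₂.one_of_mem_closedBall ?_).symm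
        rw [mem_closedBall_zero_iff, Real.norm_eq_abs, abs_le]
        exact ht
      rw [h2]
      exact setIntegral_le_integral (hs₂.continuous.integrable_of_hasCompactSupport hc₂)
        (Eventually.of_forall fun t => b₂.nonneg)
    refine le_trans (le_of_eq ?_) h1
    rw [setIntegral_const, smul_eq_mul, mul_one, Real.volume_real_Icc_of_le (by linarith)]
    ring
  intro a b
  have hfd : ∀ y : ℂ, fderiv ℝ φ y ν =
      deriv b₁ (inner ℝ y ν) * b₂ (inner ℝ y (Complex.I * ν)) := by
    intro y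
    have hL : ∀ e : ℂ, HasFDerivAt (fun y : ℂ => (inner ℝ y e : ℝ)) (innerSL ℝ e) y := by
      intro e
      have h := (innerSL ℝ e).hasFDerivAt (x := y)
      refine h.congr_of_eventuallyEq (Eventually.of_forall fun z => ?_)
      show (inner ℝ z e : ℝ) = innerSL ℝ e z
      rw [innerSL_apply_apply, real_inner_comm]
    have h1 := ((hs₁.differentiable (by simp)) (inner ℝ y ν)).hasDerivAt.comp_hasFDerivAt y (hL ν)
    have h2 := ((hs₂.differentiable (by simp))
      (inner ℝ y (Complex.I * ν))).hasDerivAt.comp_hasFDerivAt y (hL (Complex.I * ν))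
    have h3 := (h1.mul h2).fderiv
    have h4 : fderiv ℝ φ y = _ := h3
    rw [h4]
    simp only [Function.comp_apply, add_apply, smul_apply, innerSL_apply_apply, smul_eq_mul]
    rw [real_inner_comm ν (Complex.I * ν), str_inner_LI, real_inner_self_eq_norm_sq, hν]
    ring
  -- rotation
  have hrot : ∃ c : Circle, (c : ℂ) = ν := ⟨⟨ν, by simpa [Submonoid.unitSphere] using hν⟩, rfl⟩
  obtain ⟨c, hc⟩ := hrot
  have hmp : MeasurePreserving (rotation c) volume volume := (rotation c).measurePreserving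
  have hemb : MeasurableEmbedding (rotation c) := (rotation c).toHomeomorph.measurableEmbedding
  have e1 : ∫ y, blStep a b ν y * fderiv ℝ φ y ν =
      ∫ z : ℂ, (if 0 < z.re then a else b) * (deriv b₁ z.re * b₂ z.im) := by
    rw [← hmp.integral_comp hemb]
    refine integral_congr_ae (Eventually.of_forall fun z => ?_)
    have h1 : inner ℝ (rotation c z) ν = z.re := by
      rw [rotation_apply, hc, str_inner_eq]
      simp
      linear_combination z.re * str_unit hν
    have h2 : inner ℝ (rotation c z) (Complex.I * ν) = z.im := by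
      rw [rotation_apply, hc, str_inner_eq]
      simp
      linear_combination z.im * str_unit hν
    show blStep a b ν (rotation c z) * fderiv ℝ φ (rotation c z) ν = _
    rw [hfd, h1, h2]
    congr 1
    by_cases hz : 0 < z.re
    · rw [bl_step_of_pos (by rw [h1]; exact hz), if_pos hz]
    · rw [bl_step_of_neg (by rw [h1]; exact hz), if_neg hz]
  have hd₁ : Continuous (deriv b₁) := hs₁.continuous_deriv (by simp)
  have hdc₁ : HasCompactSupport (deriv b₁) := hc₁.deriv
  have hi₁ : Integrable (deriv b₁) := hd₁.integrable_of_hasCompactSupport hdc₁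
  have hi₂ : Integrable b₂ := hs₂.continuous.integrable_of_hasCompactSupport hc₂
  have hstep : Measurable (fun s : ℝ => if 0 < s then a else b) :=
    Measurable.ite measurableSet_Ioi measurable_const measurable_const
  have hsi : Integrable (fun s : ℝ => (if 0 < s then a else b) * deriv b₁ s) := by
    refine Integrable.bdd_mul (c := max |a| |b|) hi₁ hstep.aestronglyMeasurable ?_
    refine Eventually.of_forall fun s => ?_
    rw [Real.norm_eq_abs]
    split_ifs
    · exact le_max_left _ _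
    · exact le_max_right _ _
  have hint : Integrable (fun z : ℂ => (if 0 < z.re then a else b) * (deriv b₁ z.re * b₂ z.im)) := by
    have h1 : Integrable (fun p : ℝ × ℝ => ((if 0 < p.1 then a else b) * deriv b₁ p.1) * b₂ p.2)
        (volume.prod volume) := hsi.mul_prod hi₂
    have h2 : MeasurePreserving Complex.measurableEquivRealProd volume volume :=
      Complex.volume_preserving_equiv_real_prod
    have h3 := (h2.integrable_comp_emb (MeasurableEquiv.measurableEmbedding _)
      (g := fun p : ℝ × ℝ => ((if 0 < p.1 then a else b) * deriv b₁ p.1) * b₂ p.2)).2 h1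
    refine h3.congr (Eventually.of_forall fun z => ?_)
    show ((if 0 < z.re then a else b) * deriv b₁ z.re) * b₂ z.im = _
    ring
  rw [e1, st_fubini hint]
  have e2 : ∀ s : ℝ, ∫ t : ℝ, (if 0 < (⟨s, t⟩ : ℂ).re then a else b) *
      (deriv b₁ (⟨s, t⟩ : ℂ).re * b₂ (⟨s, t⟩ : ℂ).im) =
      ((if 0 < s then a else b) * deriv b₁ s) * ∫ t, b₂ t := by
    intro s
    rw [← integral_const_mul]
    refine integral_congr_ae (Eventually.of_forall fun t => ?_)
    show (if 0 < s then a else b) * (deriv b₁ s * b₂ t) = _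
    ring
  simp only [e2]
  rw [integral_mul_const]
  have e3 : ∫ s : ℝ, (if 0 < s then a else b) * deriv b₁ s = -(a - b) := by
    rw [← integral_add_compl (measurableSet_Ioi (a := (0 : ℝ))) hsi]
    have h1 : ∫ s in Ioi (0 : ℝ), (if 0 < s then a else b) * deriv b₁ s = a * -(b₁ 0) := by
      rw [← HasCompactSupport.integral_Ioi_deriv_eq (hs₁.of_le (by simp)) hc₁ 0,
        ← integral_const_mul]
      refine setIntegral_congr_fun measurableSet_Ioi fun s hs => ?_
      have hs' : (0 : ℝ) < s := hs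
      simp only [if_pos hs']
    have h2 : ∫ s in (Ioi (0 : ℝ))ᶜ, (if 0 < s then a else b) * deriv b₁ s = b * b₁ 0 := by
      rw [← HasCompactSupport.integral_Iic_deriv_eq (hs₁.of_le (by simp)) hc₁ 0,
        ← integral_const_mul, compl_Ioi]
      refine setIntegral_congr_fun measurableSet_Iic fun s hs => ?_
      have hs' : ¬ (0 : ℝ) < s := not_lt.2 hs
      simp only [if_neg hs']
    have h3 : b₁ 0 = 1 := b₁.one_of_mem_closedBall (mem_closedBall_self b₁.rIn_pos.le)
    rw [h1, h2, h3]
    ring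
  rw [e3]
  ring

end Pool.Agent.MP099f24
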