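import Mathlib

/-!
# MP_099f24_an, STRUCT package: the upper one-dimensional density is at most one
-/

namespace Pool.Agent.MP099f24

open MeasureTheory Filter Topology Set Metric
open scoped ENNReal ContDiff

theorem str_ediam_le (x : ℂ) (r : ℝ) :
    ediam (closedBall x r) ≤ ENNReal.ofReal (2 * r) := by
  refine Metric.ediam_le_of_forall_dist_le fun y hy z hz => ?_
  have h1 := mem_closedBall.1 hy
  have h2 := mem_closedBall.1 hz
  have := dist_triangle_right y z x
  linarith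

/-- The set of the points of `K` where the upper density exceeds `1 + ε` is `𝓗¹`-null. -/
theorem str_dens_null {K : Set ℂ} (hfin : (μH[1] : Measure ℂ) K < ⊤) {ε : ℝ} (hε : 0 < ε) :
    (μH[1] : Measure ℂ) {x ∈ K | ∃ᶠ r in 𝓝[>] (0 : ℝ),
      ENNReal.ofReal ((1 + ε) * (2 * r)) < (μH[1] : Measure ℂ) (closedBall x r ∩ K)} = 0 := by
  set A := {x ∈ K | ∃ᶠ r in 𝓝[>] (0 : ℝ),
      ENNReal.ofReal ((1 + ε) * (2 * r)) < (μH[1] : Measure ℂ) (closedBall x r ∩ K)} with hA
  set m := (μH[1] : Measure ℂ).restrict K with hm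
  have hmf : IsFiniteMeasure m := ⟨by rwa [hm, Measure.restrict_apply_univ]⟩
  have hAK : A ⊆ K := fun x hx => hx.1
  have hmA : m A = (μH[1] : Measure ℂ) A := by
    rw [hm, Measure.restrict_eq_self _ hAK]
  have hAfin : (μH[1] : Measure ℂ) A ≠ ⊤ := ((measure_mono hAK).trans_lt hfin).ne
  -- coverings
  have key : ∀ δ : ℝ, 0 < δ → ∃ (t : Set ℂ) (r : ℂ → ℝ), t.Countable ∧
      (∀ b ∈ t, 0 < r b ∧ 2 * r b ≤ δ) ∧
      (μH[1] : Measure ℂ) (A \ ⋃ b ∈ t, closedBall b (r b)) = 0 ∧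
      ENNReal.ofReal (1 + ε) * ∑' b : t, ENNReal.ofReal (2 * r b) ≤
        (μH[1] : Measure ℂ) A + ENNReal.ofReal δ := by
    intro δ hδ
    obtain ⟨U, hAU, hU, hmU⟩ := Set.exists_isOpen_le_add A m (ε := ENNReal.ofReal δ)
      (by simpa using hδ)
    set f : ℂ → Set ℝ := fun x => {r | closedBall x r ⊆ U ∧
      ENNReal.ofReal ((1 + ε) * (2 * r)) < (μH[1] : Measure ℂ) (closedBall x r ∩ K)} with hf
    have hfne : ∀ x ∈ A, ∀ δ' > 0, (f x ∩ Ioo 0 δ').Nonempty := by
      intro x hx δ' hδ'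
      obtain ⟨η, hη, hηU⟩ := Metric.isOpen_iff.1 hU x (hAU hx)
      have h1 : ∀ᶠ r in 𝓝[>] (0 : ℝ), r ∈ Ioo 0 (min δ' η) :=
        Ioo_mem_nhdsGT (lt_min hδ' hη)
      obtain ⟨r, hr1, hr2⟩ := (hx.2.and_eventually h1).exists
      refine ⟨r, ⟨?_, hr1⟩, hr2.1, hr2.2.trans_le (min_le_left _ _)⟩
      exact (closedBall_subset_ball (hr2.2.trans_le (min_le_right _ _))).trans hηU
    obtain ⟨t, r, htc, htA, htr, htn, htd⟩ := Besicovitch.exists_disjoint_closedBall_covering_ae
      m f A hfne (fun _ => δ / 2) (fun _ _ => half_pos hδ)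
    have hcount : Countable t := htc.to_subtype
    refine ⟨t, r, htc, ?_, ?_, ?_⟩
    · intro b hb
      have := (htr b hb).2
      exact ⟨this.1, by linarith [this.2]⟩
    · rw [← htn, hm, Measure.restrict_eq_self]
      exact sdiff_subset.trans hAK
    · rw [← ENNReal.tsum_mul_left]
      calc ∑' b : t, ENNReal.ofReal (1 + ε) * ENNReal.ofReal (2 * r b)
          ≤ ∑' b : t, m (closedBall (b : ℂ) (r b)) := by
            refine ENNReal.tsum_le_tsum fun b => ?_
            rw [← ENNReal.ofReal_mul (by positivity), hm,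
              Measure.restrict_apply isClosed_closedBall.measurableSet]
            exact (htr b b.2).1.2.le
        _ = m (⋃ b : t, closedBall (b : ℂ) (r b)) := by
            rw [measure_iUnion]
            · intro a b hab
              exact htd a.2 b.2 (fun h => hab (Subtype.ext h))
            · exact fun b => isClosed_closedBall.measurableSet
        _ ≤ m U := measure_mono (iUnion_subset fun b => (htr b b.2).1.1)
        _ ≤ m A + ENNReal.ofReal δ := hmU
        _ = _ := by rw [hmA]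
  have hpos : ∀ n : ℕ, (0 : ℝ) < 1 / ((n : ℝ) + 1) := fun n => by positivity
  choose t r htc hr hnull hsum using fun n : ℕ => key (1 / ((n : ℝ) + 1)) (hpos n)
  have hcountable : ∀ n, Countable (t n) := fun n => (htc n).to_subtype
  have hlim : Tendsto (fun n : ℕ => 1 / ((n : ℝ) + 1)) atTop (𝓝 0) :=
    tendsto_one_div_add_atTop_nhds_zero_nat
  set N := ⋃ n, A \ ⋃ b ∈ t n, closedBall b (r n b) with hN
  have hN0 : (μH[1] : Measure ℂ) N = 0 := measure_iUnion_null hnull
  have h1 := Measure.hausdorffMeasure_le_liminf_tsum (ι := fun n => t n) 1 (A \ N) (l := atTop)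
    (fun n : ℕ => ENNReal.ofReal (1 / ((n : ℝ) + 1)))
    (by simpa using ENNReal.tendsto_ofReal hlim)
    (fun n b => closedBall (b : ℂ) (r n b))
    (Eventually.of_forall fun n b => (str_ediam_le _ _).trans
      (ENNReal.ofReal_le_ofReal (hr n b b.2).2))
    (Eventually.of_forall fun n => by
      intro x hx
      by_contra hcon
      apply hx.2
      refine mem_iUnion.2 ⟨n, hx.1, fun h => hcon ?_⟩
      obtain ⟨b, hb, hxb⟩ := mem_iUnion₂.1 h
      exact mem_iUnion.2 ⟨⟨b, hb⟩, hxb⟩)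
  have h2 : (μH[1] : Measure ℂ) A ≤ (μH[1] : Measure ℂ) (A \ N) := by
    calc (μH[1] : Measure ℂ) A ≤ (μH[1] : Measure ℂ) ((A \ N) ∪ N) := by
          refine measure_mono fun x hx => ?_
          by_cases hxN : x ∈ N
          · exact Or.inr hxN
          · exact Or.inl ⟨hx, hxN⟩
      _ ≤ (μH[1] : Measure ℂ) (A \ N) + (μH[1] : Measure ℂ) N := measure_union_le _ _
      _ = _ := by rw [hN0, add_zero]
  have hc0 : ENNReal.ofReal (1 + ε) ≠ 0 := by
    rw [Ne, ENNReal.ofReal_eq_zero]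
    linarith
  have h3 : ENNReal.ofReal (1 + ε) * (μH[1] : Measure ℂ) A ≤ (μH[1] : Measure ℂ) A := by
    have h5 : Tendsto (fun n : ℕ => ((μH[1] : Measure ℂ) A +
        ENNReal.ofReal (1 / ((n : ℝ) + 1))) / ENNReal.ofReal (1 + ε))
        atTop (𝓝 ((μH[1] : Measure ℂ) A / ENNReal.ofReal (1 + ε))) := by
      have h6 := (ENNReal.tendsto_ofReal hlim).const_add ((μH[1] : Measure ℂ) A)
      rw [ENNReal.ofReal_zero, add_zero] at h6
      exact ENNReal.Tendsto.div_const h6 (Or.inr hc0)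
    have h4 : (μH[1] : Measure ℂ) A ≤ (μH[1] : Measure ℂ) A / ENNReal.ofReal (1 + ε) := by
      rw [← h5.liminf_eq]
      refine h2.trans (h1.trans (liminf_le_liminf (Eventually.of_forall fun n => ?_)))
      rw [ENNReal.le_div_iff_mul_le (Or.inl hc0) (Or.inl ENNReal.ofReal_ne_top), mul_comm]
      refine le_trans ?_ (hsum n)
      gcongr
      rw [ENNReal.rpow_one]
      exact str_ediam_le _ _
    rw [ENNReal.le_div_iff_mul_le (Or.inl hc0) (Or.inl ENNReal.ofReal_ne_top), mul_comm] at h4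
    exact h4
  by_contra hne
  have h4 : (1 : ℝ≥0∞) < ENNReal.ofReal (1 + ε) := by
    rw [← ENNReal.ofReal_one, ENNReal.ofReal_lt_ofReal_iff (by positivity)]
    linarith
  have h5 := ENNReal.mul_lt_mul_left hne hAfin h4
  rw [one_mul] at h5
  exact absurd h3 (not_le.2 h5)

/-- The upper density is at most one. -/
theorem str_dens {K : Set ℂ} (hfin : (μH[1] : Measure ℂ) K < ⊤) {ε : ℝ} (hε : 0 < ε) :
    ∀ᵐ x ∂((μH[1] : Measure ℂ)), x ∈ K → ∀ᶠ r in 𝓝[>] (0 : ℝ),
      (μH[1] : Measure ℂ) (closedBall x r ∩ K) ≤ ENNReal.ofReal ((1 + ε) * (2 * r)) := by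
  have h := str_dens_null hfin hε
  rw [ae_iff]
  refine measure_mono_null (fun x hx => ?_) h
  simp only [mem_ofPred_eq, Classical.not_imp] at hx
  refine ⟨hx.1, ?_⟩
  rw [Filter.Frequently]
  intro h'
  exact hx.2 (h'.mono fun r hr => not_lt.1 hr)

end Pool.Agent.MP099f24
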