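import Mathlib
import Pool.Agent.Lib.MP_099f24_an.ST.Bound

/-!
# MP_099f24_an, STRUCT package: the density of the singular part
-/

namespace Pool.Agent.MP099f24

open MeasureTheory Filter Topology Set Metric
open scoped ENNReal NNReal ContDiff

theorem str_riesz {S : Type*} [AddCommGroup S] [Module ℝ S] {E : Type*} [NormedAddCommGroup E]
    [InnerProductSpace ℝ E] [CompleteSpace E] (L : S →ₗ[ℝ] E) (T : S →ₗ[ℝ] ℝ) (C : ℝ)
    (h : ∀ s, |T s| ≤ C * ‖L s‖) : ∃ e : E, ∀ s, T s = inner ℝ e (L s) := by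
  have hker : LinearMap.ker L ≤ LinearMap.ker T := by
    intro s hs
    rw [LinearMap.mem_ker] at hs ⊢
    have := h s
    rw [hs, norm_zero, mul_zero] at this
    exact abs_nonpos_iff.1 this
  set F₀ : LinearMap.range L →ₗ[ℝ] ℝ :=
    ((LinearMap.ker L).liftQ T hker).comp (L.quotKerEquivRange.symm : _ →ₗ[ℝ] _) with hF₀
  have hF₀s : ∀ s, F₀ ⟨L s, LinearMap.mem_range_self L s⟩ = T s := by
    intro s
    have h1 : L.quotKerEquivRange.symm ⟨L s, LinearMap.mem_range_self L s⟩ =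
        (LinearMap.ker L).mkQ s := by
      rw [LinearEquiv.symm_apply_eq]
      rfl
    rw [hF₀, LinearMap.comp_apply]
    show (LinearMap.ker L).liftQ T hker (L.quotKerEquivRange.symm _) = T s
    rw [h1]
    rfl
  have hbd : ∀ x : LinearMap.range L, ‖F₀ x‖ ≤ C * ‖x‖ := by
    rintro ⟨y, s, rfl⟩
    rw [hF₀s s, Real.norm_eq_abs]
    exact h s
  obtain ⟨G, hG, -⟩ := exists_extension_norm_eq (LinearMap.range L) (F₀.mkContinuous C hbd)
  refine ⟨(InnerProductSpace.toDual ℝ E).symm G, fun s => ?_⟩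
  rw [InnerProductSpace.toDual_symm_apply]
  have := hG ⟨L s, LinearMap.mem_range_self L s⟩
  rw [← hF₀s s]
  exact this.symm

/-- the space of test functions supported in `B` -/
def strTest (B : Set ℂ) : Submodule ℝ (ℂ → ℝ) where
  carrier := {φ | ContDiff ℝ ∞ φ ∧ HasCompactSupport φ ∧ tsupport φ ⊆ B}
  add_mem' := by
    rintro φ ψ ⟨h1, h2, h3⟩ ⟨h4, h5, h6⟩
    refine ⟨h1.add h4, h2.add h5, ?_⟩
    exact (tsupport_add φ ψ).trans (union_subset h3 h6)
  zero_mem' := by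
    refine ⟨contDiff_const, HasCompactSupport.zero, ?_⟩
    rw [tsupport, Function.support_zero, closure_empty]
    exact empty_subset _
  smul_mem' := by
    rintro c φ ⟨h1, h2, h3⟩
    refine ⟨h1.const_smul c, h2.smul_left (f := fun _ => c), ?_⟩
    refine Subset.trans (closure_mono ?_) h3
    intro x hx h0
    exact hx (by simp [h0])

theorem str_T_add {Ω K : Set ℂ} {M : ℝ} {w : ℂ → ℝ} {g : ℂ → ℂ} (h : StrData Ω K M w g)
    {φ ψ : ℂ → ℝ} (hφ : φ ∈ strTest Ω) (hψ : ψ ∈ strTest Ω) (v : ℂ) :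
    strT w g (φ + ψ) v = strT w g φ v + strT w g ψ v := by
  have hd : ∀ {φ : ℂ → ℝ}, φ ∈ strTest Ω → Integrable fun x => w x * fderiv ℝ φ x v := by
    intro φ hφ
    exact str_int1 h.wm h.wb ((hφ.1.continuous_fderiv (by simp)).clm_apply continuous_const)
      (hφ.2.1.fderiv_apply (𝕜 := ℝ) v)
  have hi : ∀ {φ : ℂ → ℝ}, φ ∈ strTest Ω → Integrable fun x => φ x * inner ℝ (g x) v := by
    intro φ hφ
    exact str_int2 h.gi hφ.1.continuous hφ.2.1 hφ.2.2 v
  have e1 : ∫ x, w x * fderiv ℝ (φ + ψ) x v = (∫ x, w x * fderiv ℝ φ x v) +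
      ∫ x, w x * fderiv ℝ ψ x v := by
    rw [← integral_add (hd hφ) (hd hψ)]
    refine integral_congr_ae (Eventually.of_forall fun x => ?_)
    show w x * fderiv ℝ (φ + ψ) x v = w x * fderiv ℝ φ x v + w x * fderiv ℝ ψ x v
    rw [fderiv_add ((hφ.1.differentiable (by simp)) x) ((hψ.1.differentiable (by simp)) x)]
    show w x * (fderiv ℝ φ x v + fderiv ℝ ψ x v) = _
    ring
  have e2 : ∫ x, (φ + ψ) x * inner ℝ (g x) v = (∫ x, φ x * inner ℝ (g x) v) +
      ∫ x, ψ x * inner ℝ (g x) v := by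
    rw [← integral_add (hi hφ) (hi hψ)]
    refine integral_congr_ae (Eventually.of_forall fun x => ?_)
    show (φ x + ψ x) * inner ℝ (g x) v = _
    ring
  unfold strT
  rw [e1, e2]
  ring

theorem str_T_smul {w : ℂ → ℝ} {g : ℂ → ℂ} (c : ℝ) (φ : ℂ → ℝ) (v : ℂ)
    (hφ : Differentiable ℝ φ) : strT w g (c • φ) v = c * strT w g φ v := by
  unfold strT
  rw [mul_add, ← integral_const_mul, ← integral_const_mul]
  congr 1
  · refine integral_congr_ae (Eventually.of_forall fun x => ?_)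
    show w x * fderiv ℝ (c • φ) x v = c * (w x * fderiv ℝ φ x v)
    rw [fderiv_const_smul (hφ x)]
    show w x * (c * fderiv ℝ φ x v) = _
    ring
  · refine integral_congr_ae (Eventually.of_forall fun x => ?_)
    show c * φ x * inner ℝ (g x) v = _
    ring

theorem str_T_dir {Ω K : Set ℂ} {M : ℝ} {w : ℂ → ℝ} {g : ℂ → ℂ} (h : StrData Ω K M w g)
    {φ : ℂ → ℝ} (hφ : φ ∈ strTest Ω) (v : ℂ) :
    strT w g φ v = v.re * strT w g φ 1 + v.im * strT w g φ Complex.I := by
  have hd : ∀ v, Integrable fun x => w x * fderiv ℝ φ x v := by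
    intro v
    exact str_int1 h.wm h.wb ((hφ.1.continuous_fderiv (by simp)).clm_apply continuous_const)
      (hφ.2.1.fderiv_apply (𝕜 := ℝ) v)
  have hi : ∀ v, Integrable fun x => φ x * inner ℝ (g x) v := fun v =>
    str_int2 h.gi hφ.1.continuous hφ.2.1 hφ.2.2 v
  have hv : v = v.re • (1 : ℂ) + v.im • Complex.I := by
    apply Complex.ext <;> simp
  have e1 : ∫ x, w x * fderiv ℝ φ x v = v.re * (∫ x, w x * fderiv ℝ φ x 1) +
      v.im * ∫ x, w x * fderiv ℝ φ x Complex.I := by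
    rw [← integral_const_mul, ← integral_const_mul,
      ← integral_add ((hd 1).const_mul _) ((hd Complex.I).const_mul _)]
    refine integral_congr_ae (Eventually.of_forall fun x => ?_)
    show w x * fderiv ℝ φ x v = v.re * (w x * fderiv ℝ φ x 1) +
      v.im * (w x * fderiv ℝ φ x Complex.I)
    conv_lhs => rw [hv, map_add, map_smul, map_smul, smul_eq_mul, smul_eq_mul]
    ring
  have e2 : ∫ x, φ x * inner ℝ (g x) v = v.re * (∫ x, φ x * inner ℝ (g x) 1) +
      v.im * ∫ x, φ x * inner ℝ (g x) Complex.I := by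
    rw [← integral_const_mul, ← integral_const_mul,
      ← integral_add ((hi 1).const_mul _) ((hi Complex.I).const_mul _)]
    refine integral_congr_ae (Eventually.of_forall fun x => ?_)
    show φ x * inner ℝ (g x) v = v.re * (φ x * inner ℝ (g x) 1) +
      v.im * (φ x * inner ℝ (g x) Complex.I)
    conv_lhs => rw [hv, inner_add_right, real_inner_smul_right, real_inner_smul_right]
    ring
  unfold strT
  rw [e1, e2]
  ring

theorem str_K_meas {Ω K : Set ℂ} {M : ℝ} {w : ℂ → ℝ} {g : ℂ → ℂ} (h : StrData Ω K M w g) :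
    MeasurableSet K := by
  have : K = Ω \ (Ω \ K) := by
    rw [sdiff_sdiff_right_self]
    exact (inter_eq_self_of_subset_right h.sub).symm
  rw [this]
  exact h.isOpen.measurableSet.diff h.rel.measurableSet

/-- The singular part has a density with respect to the length of `K`. -/
theorem str_density {Ω K : Set ℂ} {M : ℝ} {w : ℂ → ℝ} {g : ℂ → ℂ} (h : StrData Ω K M w g)
    {B : Set ℂ} (hB : IsOpen B) (hBc : IsCompact (closure B)) (hBΩ : closure B ⊆ Ω) :
    ∃ f : ℂ → ℂ, Measurable f ∧ IntegrableOn f (K ∩ B) (μH[1] : Measure ℂ) ∧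
      ∀ φ : ℂ → ℝ, ContDiff ℝ ∞ φ → HasCompactSupport φ → tsupport φ ⊆ B → ∀ v : ℂ,
        strT w g φ v = - ∫ x in K ∩ B, φ x * inner ℝ (f x) v ∂(μH[1] : Measure ℂ) := by
  have hM0 : 0 ≤ M := (abs_nonneg _).trans (h.wb 0)
  obtain ⟨M₁, hM₁0, hM₁⟩ := trace_beta_bound
  have hpi := Real.pi_pos
  set m := (μH[1] : Measure ℂ).restrict (K ∩ B) with hm
  have hmf : IsFiniteMeasure m := by
    refine ⟨?_⟩
    rw [hm, Measure.restrict_apply_univ]
    exact (measure_mono (inter_subset_inter_right _ subset_closure)).trans_lt (h.fin _ hBc hBΩ)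
  have hsub : strTest B ≤ strTest Ω := by
    rintro φ ⟨h1, h2, h3⟩
    exact ⟨h1, h2, h3.trans (subset_closure.trans hBΩ)⟩
  have hmem : ∀ φ ∈ strTest B, MemLp φ 2 m := by
    rintro φ ⟨h1, h2, h3⟩
    exact h1.continuous.memLp_of_hasCompactSupport h2
  -- the linear maps
  let L : strTest B →ₗ[ℝ] Lp ℝ 2 m :=
    { toFun := fun φ => (hmem φ.1 φ.2).toLp φ.1
      map_add' := fun φ ψ => by
        rw [← MemLp.toLp_add]
        rfl
      map_smul' := fun c φ => by
        rw [RingHom.id_apply, ← MemLp.toLp_const_smul]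
        rfl }
  let T : ℂ → strTest B →ₗ[ℝ] ℝ := fun v =>
    { toFun := fun φ => strT w g φ.1 v
      map_add' := fun φ ψ => str_T_add h (hsub φ.2) (hsub ψ.2) v
      map_smul' := fun c φ => str_T_smul c φ.1 v (φ.2.1.differentiable (by simp)) }
  have hbd : ∀ v (φ : strTest B), |T v φ| ≤
      8 * Real.pi * M₁ * M * ‖v‖ * (m univ).toReal ^ (1 / 2 : ℝ) * ‖L φ‖ := by
    intro v φ
    have h1 := str_T_bound h hM₁ φ.2.1 φ.2.2.1 (φ.2.2.2.trans (subset_closure.trans hBΩ)) v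
    have h2 : ∫⁻ x in K, ‖φ.1 x‖ₑ ∂(μH[1] : Measure ℂ) = ∫⁻ x, ‖φ.1 x‖ₑ ∂m := by
      rw [hm, ← lintegral_indicator (str_K_meas h),
        ← lintegral_indicator ((str_K_meas h).inter hB.measurableSet)]
      refine lintegral_congr fun x => ?_
      by_cases hxK : x ∈ K
      · by_cases hxB : x ∈ B
        · rw [indicator_of_mem hxK, indicator_of_mem (show x ∈ K ∩ B from ⟨hxK, hxB⟩)]
        · rw [indicator_of_mem hxK, indicator_of_notMem (fun h => hxB h.2),
            image_eq_zero_of_notMem_tsupport (fun h => hxB (φ.2.2.2 h)), enorm_zero]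
      · rw [indicator_of_notMem hxK, indicator_of_notMem (fun h => hxK h.1)]
    have h3 : ∫⁻ x, ‖φ.1 x‖ₑ ∂m ≤ ENNReal.ofReal (‖L φ‖ * (m univ).toReal ^ (1 / 2 : ℝ)) := by
      have h4 := eLpNorm_le_eLpNorm_mul_rpow_measure_univ (p := 1) (q := 2) (μ := m)
        (by norm_num) (hmem φ.1 φ.2).1
      rw [eLpNorm_one_eq_lintegral_enorm] at h4
      refine h4.trans (le_of_eq ?_)
      have h5 : eLpNorm φ.1 2 m = ENNReal.ofReal ‖L φ‖ := by
        show eLpNorm φ.1 2 m = ENNReal.ofReal ‖(hmem φ.1 φ.2).toLp φ.1‖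
        rw [Lp.norm_toLp, ENNReal.ofReal_toReal (hmem φ.1 φ.2).2.ne]
      rw [h5, ENNReal.ofReal_mul (norm_nonneg _)]
      congr 1
      have h6 : (1 / (1 : ℝ≥0∞).toReal - 1 / (2 : ℝ≥0∞).toReal) = (1 / 2 : ℝ) := by
        simp
        norm_num
      rw [h6, ← ENNReal.ofReal_rpow_of_nonneg ENNReal.toReal_nonneg (by norm_num),
        ENNReal.ofReal_toReal (measure_ne_top _ _)]
    rw [h2] at h1
    have h4 : ‖strT w g φ.1 v‖ₑ ≤ ENNReal.ofReal (8 * Real.pi * M₁ * M * ‖v‖ *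
        (‖L φ‖ * (m univ).toReal ^ (1 / 2 : ℝ))) := by
      rw [ENNReal.ofReal_mul (by positivity)]
      exact h1.trans (by gcongr)
    rw [← ofReal_norm, ENNReal.ofReal_le_ofReal_iff (by positivity), Real.norm_eq_abs] at h4
    show |strT w g φ.1 v| ≤ _
    linarith
  obtain ⟨e1, he1⟩ := str_riesz L (T 1) _ (hbd 1)
  obtain ⟨e2, he2⟩ := str_riesz L (T Complex.I) _ (hbd Complex.I)
  have hform : ∀ (e : Lp ℝ 2 m) (φ : strTest B), inner ℝ e (L φ) = ∫ x, e x * φ.1 x ∂m := by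
    intro e φ
    rw [L2.inner_def]
    refine integral_congr_ae ?_
    have h5 : (L φ : ℂ → ℝ) =ᵐ[m] φ.1 := MemLp.coeFn_toLp (hmem φ.1 φ.2)
    filter_upwards [h5] with x hx
    rw [hx]
    simp [mul_comm]
  have hei : ∀ e : Lp ℝ 2 m, Integrable e m := fun e => (Lp.memLp e).integrable (by norm_num)
  set F : ℂ → ℂ := fun x => -((e1 x : ℂ) + (e2 x : ℂ) * Complex.I) with hF
  have hFi : Integrable F m := by
    refine (((hei e1).ofReal (𝕜 := ℂ)).add (((hei e2).ofReal (𝕜 := ℂ)).mul_const Complex.I)).neg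
  obtain ⟨f, hfm, hfF⟩ : ∃ f : ℂ → ℂ, Measurable f ∧ F =ᵐ[m] f :=
    ⟨hFi.1.mk F, hFi.1.stronglyMeasurable_mk.measurable, hFi.1.ae_eq_mk⟩
  refine ⟨f, hfm, hFi.congr hfF, ?_⟩
  intro φ h1 h2 h3 v
  have hφ : φ ∈ strTest B := ⟨h1, h2, h3⟩
  have k1 := he1 ⟨φ, hφ⟩
  have k2 := he2 ⟨φ, hφ⟩
  rw [hform] at k1 k2
  have k1' : strT w g φ 1 = ∫ x, e1 x * φ x ∂m := k1
  have k2' : strT w g φ Complex.I = ∫ x, e2 x * φ x ∂m := k2
  obtain ⟨Bd, hBd⟩ := h1.continuous.bounded_above_of_compact_support h2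
  have hi : ∀ e : Lp ℝ 2 m, Integrable (fun x => e x * φ x) m := fun e =>
    (hei e).mul_bdd (c := Bd) h1.continuous.aestronglyMeasurable (Eventually.of_forall hBd)
  rw [str_T_dir h (hsub hφ) v, k1', k2', ← integral_const_mul, ← integral_const_mul,
    ← integral_add ((hi e1).const_mul _) ((hi e2).const_mul _), ← integral_neg]
  refine integral_congr_ae ?_
  filter_upwards [hfF] with x hx
  rw [← hx, hF, Complex.inner]
  simp
  ring

end Pool.Agent.MP099f24
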