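import Mathlib
import Pool.Agent.Lib.MP_099f24_an.ST.Dens
import Pool.Agent.Lib.MP_099f24_an.ST.Riesz

/-!
# MP_099f24_an, STRUCT package: generic points of `K`
-/

namespace Pool.Agent.MP099f24

open MeasureTheory Filter Topology Set Metric
open scoped ENNReal NNReal ContDiff

theorem str_vol_ball (x : ℂ) {r : ℝ} (hr : 0 ≤ r) :
    (volume : Measure ℂ) (ball x r) = ENNReal.ofReal (Real.pi * r ^ 2) := by
  rw [Complex.volume_ball, ← ENNReal.ofReal_pow hr, mul_comm, ENNReal.ofReal_mul Real.pi_pos.le]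
  congr 1
  rw [ENNReal.ofReal, Real.toNNReal_of_nonneg Real.pi_pos.le]
  rfl

/-- A set of finite length is Lebesgue null. -/
theorem str_null {A : Set ℂ} (hfin : (μH[1] : Measure ℂ) A < ⊤) : (volume : Measure ℂ) A = 0 := by
  rcases A.eq_empty_or_nonempty with rfl | hne
  · simp
  have key : ∀ δ : ℝ, 0 < δ → (volume : Measure ℂ) A ≤
      ENNReal.ofReal (Real.pi * δ) * ((μH[1] : Measure ℂ) A + ENNReal.ofReal 1) := by
    intro δ hδ
    obtain ⟨x, r, hr, hcov, hsum⟩ := str_cover hfin hne hδ one_pos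
    calc (volume : Measure ℂ) A ≤ volume (⋃ n, ball (x n) (r n)) := measure_mono hcov
      _ ≤ ∑' n, volume (ball (x n) (r n)) := measure_iUnion_le _
      _ ≤ ∑' n, ENNReal.ofReal (Real.pi * δ) * ENNReal.ofReal (r n) := by
          refine ENNReal.tsum_le_tsum fun n => ?_
          obtain ⟨h1, h2, -⟩ := hr n
          have hpi := Real.pi_pos
          rw [str_vol_ball _ h1.le, ← ENNReal.ofReal_mul (by positivity)]
          refine ENNReal.ofReal_le_ofReal ?_
          calc Real.pi * r n ^ 2 = Real.pi * r n * r n := by ring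
            _ ≤ Real.pi * δ * r n := by gcongr
      _ = ENNReal.ofReal (Real.pi * δ) * ∑' n, ENNReal.ofReal (r n) := ENNReal.tsum_mul_left
      _ ≤ _ := by gcongr
  have h1 : Tendsto (fun n : ℕ => ENNReal.ofReal (Real.pi * (1 / ((n : ℝ) + 1))) *
      ((μH[1] : Measure ℂ) A + ENNReal.ofReal 1)) atTop (𝓝 (0 *
      ((μH[1] : Measure ℂ) A + ENNReal.ofReal 1))) := by
    refine ENNReal.Tendsto.mul_const ?_ (Or.inr ?_)
    · have h2 := (tendsto_one_div_add_atTop_nhds_zero_nat (𝕜 := ℝ)).const_mul Real.pi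
      rw [mul_zero] at h2
      simpa using ENNReal.tendsto_ofReal h2
    · exact ENNReal.add_ne_top.2 ⟨hfin.ne, ENNReal.ofReal_ne_top⟩
  rw [zero_mul] at h1
  refine le_antisymm (ge_of_tendsto' h1 fun n => ?_) bot_le
  exact key _ (by positivity)

/-- Generic points of a set of finite length. -/
theorem str_generic {A : Set ℂ} (hA : MeasurableSet A) (hfin : (μH[1] : Measure ℂ) A < ⊤)
    {f g : ℂ → ℂ} (hf : IntegrableOn f A (μH[1] : Measure ℂ)) {B : Set ℂ}
    (hg : IntegrableOn g B) :
    ∀ᵐ x ∂((μH[1] : Measure ℂ).restrict A),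
      (∀ ε : ℝ, 0 < ε → ∀ᶠ r in 𝓝[>] (0 : ℝ),
        ((μH[1] : Measure ℂ).restrict A) (closedBall x r) ≤ ENNReal.ofReal ((1 + ε) * (2 * r))) ∧
      Tendsto (fun r : ℝ => r⁻¹ * ∫ y in closedBall x r ∩ A, ‖f y - f x‖ ∂(μH[1] : Measure ℂ))
        (𝓝[>] 0) (𝓝 0) ∧
      Tendsto (fun r : ℝ => r⁻¹ * ∫ y in closedBall x r ∩ B, ‖g y‖) (𝓝[>] 0) (𝓝 0) := by
  set m := (μH[1] : Measure ℂ).restrict A with hm
  have hmf : IsFiniteMeasure m := ⟨by rwa [hm, Measure.restrict_apply_univ]⟩
  -- upper density
  have h1 : ∀ᵐ x ∂m, ∀ n : ℕ, ∀ᶠ r in 𝓝[>] (0 : ℝ),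
      m (closedBall x r) ≤ ENNReal.ofReal ((1 + 1 / ((n : ℝ) + 1)) * (2 * r)) := by
    rw [ae_all_iff]
    intro n
    have h2 := str_dens hfin (ε := 1 / ((n : ℝ) + 1)) (by positivity)
    rw [hm, ae_restrict_iff' hA]
    filter_upwards [h2] with x hx hxA
    filter_upwards [hx hxA] with r hr
    rwa [Measure.restrict_apply isClosed_closedBall.measurableSet]
  -- Lebesgue points
  have h2 := (Besicovitch.vitaliFamily m).ae_tendsto_average_norm_sub
    (f := f) (Integrable.locallyIntegrable hf)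
  -- the gradient
  set ρ : Measure ℂ := (volume.restrict B).withDensity (fun x => ‖g x‖ₑ) with hρ
  have hρf : IsFiniteMeasure ρ := by
    refine isFiniteMeasure_withDensity ?_
    exact hg.2.ne
  have h3 := Besicovitch.ae_tendsto_rnDeriv ρ m
  have h4 : ρ ⟂ₘ m := by
    refine ⟨A, hA, ?_, ?_⟩
    · refine (withDensity_absolutelyContinuous _ _) ?_
      exact (Measure.restrict_le_self _).trans_eq (str_null hfin) |>.antisymm bot_le
    · rw [hm, Measure.restrict_apply hA.compl, compl_inter_self, measure_empty]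
  have h5 := h4.rnDeriv_ae_eq_zero
  filter_upwards [h1, h2, h3, h5] with x hx1 hx2 hx3 hx5
  have hup : ∀ ε : ℝ, 0 < ε → ∀ᶠ r in 𝓝[>] (0 : ℝ),
      m (closedBall x r) ≤ ENNReal.ofReal ((1 + ε) * (2 * r)) := by
    intro ε hε
    obtain ⟨n, hn⟩ := exists_nat_one_div_lt hε
    filter_upwards [hx1 n, self_mem_nhdsWithin] with r hr hr0
    refine hr.trans (ENNReal.ofReal_le_ofReal ?_)
    have : (0 : ℝ) < r := hr0
    gcongr
  have hup4 : ∀ᶠ r in 𝓝[>] (0 : ℝ), m (closedBall x r) ≤ ENNReal.ofReal (4 * r) := by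
    filter_upwards [hup 1 one_pos] with r hr
    refine hr.trans (ENNReal.ofReal_le_ofReal (le_of_eq (by ring)))
  have hup4' : ∀ᶠ r in 𝓝[>] (0 : ℝ), m.real (closedBall x r) ≤ 4 * r := by
    filter_upwards [hup4, self_mem_nhdsWithin] with r hr hr0
    have h0 : (0 : ℝ) < r := hr0
    rw [measureReal_def]
    have := ENNReal.toReal_mono ENNReal.ofReal_ne_top hr
    rwa [ENNReal.toReal_ofReal (by positivity)] at this
  refine ⟨hup, ?_, ?_⟩
  · have h6 := hx2.comp (Besicovitch.tendsto_filterAt m x)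
    have h7 : Tendsto (fun r : ℝ => 4 * ⨍ y in closedBall x r, ‖f y - f x‖ ∂m) (𝓝[>] 0) (𝓝 0) := by
      have := h6.const_mul 4
      rw [mul_zero] at this
      exact this
    refine squeeze_zero' ?_ ?_ h7
    · filter_upwards [self_mem_nhdsWithin] with r hr0
      have h0 : (0 : ℝ) < r := hr0
      exact mul_nonneg (inv_nonneg.2 h0.le) (integral_nonneg fun y => norm_nonneg _)
    · filter_upwards [hup4', self_mem_nhdsWithin] with r hr hr0
      have h0 : (0 : ℝ) < r := hr0
      have h8 : ∫ y in closedBall x r ∩ A, ‖f y - f x‖ ∂(μH[1] : Measure ℂ) =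
          m.real (closedBall x r) * ⨍ y in closedBall x r, ‖f y - f x‖ ∂m := by
        have h9 := measure_smul_setAverage (μ := m) (s := closedBall x r)
          (fun y => ‖f y - f x‖) (measure_ne_top _ _)
        rw [smul_eq_mul] at h9
        rw [h9, hm, Measure.restrict_restrict isClosed_closedBall.measurableSet]
      rw [h8]
      have h10 : 0 ≤ ⨍ y in closedBall x r, ‖f y - f x‖ ∂m := by
        rw [setAverage_eq, smul_eq_mul]
        exact mul_nonneg (inv_nonneg.2 measureReal_nonneg) (integral_nonneg fun y => norm_nonneg _)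
      calc r⁻¹ * (m.real (closedBall x r) * ⨍ y in closedBall x r, ‖f y - f x‖ ∂m)
          ≤ r⁻¹ * (4 * r * ⨍ y in closedBall x r, ‖f y - f x‖ ∂m) := by gcongr
        _ = 4 * ⨍ y in closedBall x r, ‖f y - f x‖ ∂m := by
            field_simp
  · -- the gradient part
    rw [hx5] at hx3
    have h6 : Tendsto (fun r : ℝ => (4 * (ρ (closedBall x r) / m (closedBall x r))).toReal)
        (𝓝[>] 0) (𝓝 0) := by
      have h7 := ENNReal.Tendsto.const_mul (a := 4) hx3 (Or.inr (by norm_num))
      rw [Pi.zero_apply, mul_zero] at h7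
      have h8 := (ENNReal.tendsto_toReal ENNReal.zero_ne_top).comp h7
      exact h8
    have hpos := (Besicovitch.vitaliFamily m).ae_eventually_measure_pos
    refine squeeze_zero' ?_ ?_ h6
    · filter_upwards [self_mem_nhdsWithin] with r hr0
      have h0 : (0 : ℝ) < r := hr0
      exact mul_nonneg (inv_nonneg.2 h0.le) (integral_nonneg fun y => norm_nonneg _)
    · have hfin' : ∀ᶠ r in 𝓝[>] (0 : ℝ), ρ (closedBall x r) / m (closedBall x r) < 1 := by
        have := hx3.eventually_lt_const (u := 1) (by simp)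
        exact this
      filter_upwards [hup4, hfin', self_mem_nhdsWithin] with r hr hr1 hr0
      have h0 : (0 : ℝ) < r := hr0
      have e1 : ∫ y in closedBall x r ∩ B, ‖g y‖ = (ρ (closedBall x r)).toReal := by
        rw [hρ, withDensity_apply _ isClosed_closedBall.measurableSet,
          Measure.restrict_restrict isClosed_closedBall.measurableSet,
          integral_norm_eq_lintegral_enorm]
        exact (hg.mono_set inter_subset_right).1
      rw [e1, ENNReal.toReal_mul, ENNReal.toReal_div]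
      by_cases hm0 : m (closedBall x r) = 0
      · -- then the quotient is infinite unless `ρ` vanishes
        by_cases hρ0 : ρ (closedBall x r) = 0
        · rw [hρ0]
          simp
        · rw [hm0, ENNReal.div_zero hρ0] at hr1
          exact absurd hr1 (by simp)
      · have hmp : 0 < (m (closedBall x r)).toReal :=
          ENNReal.toReal_pos hm0 (measure_ne_top _ _)
        have hm4 : (m (closedBall x r)).toReal ≤ 4 * r := by
          have := ENNReal.toReal_mono ENNReal.ofReal_ne_top hr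
          rwa [ENNReal.toReal_ofReal (by positivity)] at this
        rw [show (4 : ℝ≥0∞).toReal = 4 by simp, inv_mul_eq_div, ← mul_div_assoc,
          div_le_div_iff₀ h0 hmp]
        have := ENNReal.toReal_nonneg (a := ρ (closedBall x r))
        nlinarith

end Pool.Agent.MP099f24
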