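import Mathlib
import Pool.Agent.Lib.MP_099f24_an.ST.BlowA
import Pool.Agent.Lib.MP_099f24_an.ST.Pts
import Pool.Agent.Lib.MP_099f24_an.JumpBasic

/-!
# MP_099f24_an, STRUCT package: the blow-up at generic points of `K`
-/

namespace Pool.Agent.MP099f24

open MeasureTheory Filter Topology Set Metric
open scoped ENNReal NNReal ContDiff

theorem str_limsup_bound {a : ℕ → ℝ} {M : ℝ} (h : ∀ n, |a n| ≤ M) : |limsup a atTop| ≤ M := by
  have h1 : IsBoundedUnder (· ≤ ·) atTop a :=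
    isBoundedUnder_of ⟨M, fun n => (le_abs_self _).trans (h n)⟩
  have h2 : IsBoundedUnder (· ≥ ·) atTop a :=
    isBoundedUnder_of ⟨-M, fun n => (abs_le.1 (h n)).1⟩
  rw [abs_le]
  constructor
  · exact le_limsup_of_frequently_le (Frequently.of_forall fun n => (abs_le.1 (h n)).1) h1
  · exact limsup_le_of_le h2.isCoboundedUnder_le (Eventually.of_forall fun n => (abs_le.1 (h n)).2)

/-- Fubini in the pair (point, direction): at almost every point of `A` the function `w` has radial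
limits in almost every direction which is not orthogonal to `f x`. -/
theorem str_radial {w : ℂ → ℝ} {M : ℝ} (hwm : Measurable w) (hwb : ∀ x, |w x| ≤ M) {A : Set ℂ}
    (hfin : (μH[1] : Measure ℂ) A < ⊤) {f : ℂ → ℂ} (hf : Measurable f)
    (hsl : ∀ v : ℂ, v ≠ 0 → ∀ᵐ x ∂((μH[1] : Measure ℂ).restrict A), inner ℝ (f x) v ≠ (0 : ℝ) →
      ∃ a b : ℝ, Tendsto (fun t : ℝ => w (x + t • v)) (𝓝[>] 0) (𝓝 a) ∧
        Tendsto (fun t : ℝ => w (x - t • v)) (𝓝[>] 0) (𝓝 b) ∧
        |inner ℝ (f x) v| ≤ ‖v‖ * |a - b|) :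
    ∀ᵐ x ∂((μH[1] : Measure ℂ).restrict A), ∃ W : ℂ → ℝ, Measurable W ∧ (∀ v, |W v| ≤ M) ∧
      ∀ᵐ v : ℂ, inner ℝ (f x) v ≠ (0 : ℝ) →
        (∀ q : ℚ, 0 < q →
          Tendsto (fun n : ℕ => w (x + ((q : ℝ) * (2 : ℝ)⁻¹ ^ n) • v)) atTop (𝓝 (W v))) ∧
        |inner ℝ (f x) v| ≤ ‖v‖ * |W v - W (-v)| := by
  set m := (μH[1] : Measure ℂ).restrict A with hm
  have hmf : IsFiniteMeasure m := ⟨by rwa [hm, Measure.restrict_apply_univ]⟩
  set c : ℂ × ℂ → ℝ := fun p => limsup (fun n : ℕ => w (p.1 + ((2 : ℝ)⁻¹ ^ n) • p.2)) atTop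
    with hc
  have hwt : ∀ t : ℝ, Measurable (fun p : ℂ × ℂ => w (p.1 + t • p.2)) := by
    intro t
    refine hwm.comp ?_
    exact measurable_fst.add (measurable_snd.const_smul t)
  have hcm : Measurable c := Measurable.limsup fun n => hwt _
  have hnegm : Measurable (fun p : ℂ × ℂ => (p.1, -p.2)) :=
    measurable_fst.prodMk measurable_snd.neg
  have hinm : Measurable (fun p : ℂ × ℂ => (inner ℝ (f p.1) p.2 : ℝ)) :=
    (hf.comp measurable_fst).inner measurable_snd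
  set P : ℂ → ℂ → Prop := fun x v => inner ℝ (f x) v ≠ (0 : ℝ) →
      (∀ q : {q : ℚ // 0 < q},
        Tendsto (fun n : ℕ => w (x + ((q.1 : ℝ) * (2 : ℝ)⁻¹ ^ n) • v)) atTop (𝓝 (c (x, v)))) ∧
      |inner ℝ (f x) v| ≤ ‖v‖ * |c (x, v) - c (x, -v)| with hP
  have hPm : MeasurableSet {p : ℂ × ℂ | P p.1 p.2} := by
    have h1 : MeasurableSet {p : ℂ × ℂ | (inner ℝ (f p.1) p.2 : ℝ) = 0} :=
      measurableSet_eq_fun hinm measurable_const
    have h2 : ∀ q : {q : ℚ // 0 < q}, MeasurableSet {p : ℂ × ℂ |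
        Tendsto (fun n : ℕ => w (p.1 + ((q.1 : ℝ) * (2 : ℝ)⁻¹ ^ n) • p.2)) atTop (𝓝 (c p))} :=
      fun q => measurableSet_tendsto_fun (fun n => hwt _) hcm
    have h3 : MeasurableSet {p : ℂ × ℂ | |(inner ℝ (f p.1) p.2 : ℝ)| ≤
        ‖p.2‖ * |c p - c (p.1, -p.2)|} :=
      measurableSet_le hinm.abs (measurable_snd.norm.mul (hcm.sub (hcm.comp hnegm)).abs)
    have h4 : {p : ℂ × ℂ | P p.1 p.2} = {p : ℂ × ℂ | (inner ℝ (f p.1) p.2 : ℝ) = 0} ∪
        ((⋂ q : {q : ℚ // 0 < q}, {p : ℂ × ℂ |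
          Tendsto (fun n : ℕ => w (p.1 + ((q.1 : ℝ) * (2 : ℝ)⁻¹ ^ n) • p.2)) atTop (𝓝 (c p))}) ∩
        {p : ℂ × ℂ | |(inner ℝ (f p.1) p.2 : ℝ)| ≤ ‖p.2‖ * |c p - c (p.1, -p.2)|}) := by
      ext p
      simp only [hP, Set.mem_ofPred_eq, mem_union, mem_inter_iff, mem_iInter]
      tauto
    rw [h4]
    exact h1.union ((MeasurableSet.iInter h2).inter h3)
  have hae : ∀ᵐ v : ℂ, ∀ᵐ x ∂m, P x v := by
    have hv0 : ∀ᵐ v : ℂ, v ≠ 0 := Measure.ae_ne volume 0
    filter_upwards [hv0] with v hv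
    filter_upwards [hsl v hv] with x hx hne
    obtain ⟨a, b, ha, hb, hab⟩ := hx hne
    have hpow : ∀ q : ℝ, 0 < q → Tendsto (fun n : ℕ => q * (2 : ℝ)⁻¹ ^ n) atTop (𝓝[>] 0) := by
      intro q hq
      refine tendsto_nhdsWithin_iff.2 ⟨?_, Eventually.of_forall fun n => ?_⟩
      · have h1 := (tendsto_pow_atTop_nhds_zero_of_lt_one (r := (2 : ℝ)⁻¹) (by norm_num)
          (by norm_num)).const_mul q
        rwa [mul_zero] at h1
      · show (0 : ℝ) < q * (2 : ℝ)⁻¹ ^ n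
        positivity
    have hca : c (x, v) = a := by
      have h1 := ha.comp (hpow 1 one_pos)
      simp only [Function.comp_def, one_mul] at h1
      exact h1.limsup_eq
    have hcb : c (x, -v) = b := by
      have h1 := hb.comp (hpow 1 one_pos)
      simp only [Function.comp_def, one_mul] at h1
      have h2 : Tendsto (fun n : ℕ => w (x + (2 : ℝ)⁻¹ ^ n • -v)) atTop (𝓝 b) := by
        refine h1.congr fun n => ?_
        rw [smul_neg, sub_eq_add_neg]
      exact h2.limsup_eq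
    refine ⟨fun q => ?_, ?_⟩
    · rw [hca]
      exact ha.comp (hpow q.1 (by exact_mod_cast q.2))
    · rw [hca, hcb]
      exact hab
  have hae' := (Measure.ae_ae_comm hPm).2 hae
  filter_upwards [hae'] with x hx
  refine ⟨fun v => c (x, v), hcm.comp measurable_prodMk_left, fun v => ?_, ?_⟩
  · exact str_limsup_bound fun n => hwb _
  · filter_upwards [hx] with v hv hne
    obtain ⟨h1, h2⟩ := hv hne
    exact ⟨fun q hq => h1 ⟨q, hq⟩, h2⟩

/-- The rescaled first order identity at a generic point. -/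
theorem str_blow {Ω K : Set ℂ} {M : ℝ} {w : ℂ → ℝ} {g : ℂ → ℂ} (h : StrData Ω K M w g)
    {B : Set ℂ} (hB : IsOpen B) (hBΩ : B ⊆ Ω) (hKB : (μH[1] : Measure ℂ) (K ∩ B) < ⊤) {f : ℂ → ℂ}
    (hfi : IntegrableOn f (K ∩ B) (μH[1] : Measure ℂ))
    (hform : ∀ φ : ℂ → ℝ, ContDiff ℝ ∞ φ → HasCompactSupport φ → tsupport φ ⊆ B → ∀ v : ℂ,
        strT w g φ v = - ∫ x in K ∩ B, φ x * inner ℝ (f x) v ∂(μH[1] : Measure ℂ))
    {x : ℂ} (hx : x ∈ B)
    (h2 : Tendsto (fun r : ℝ => r⁻¹ * ∫ y in closedBall x r ∩ (K ∩ B), ‖f y - f x‖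
      ∂(μH[1] : Measure ℂ)) (𝓝[>] 0) (𝓝 0))
    (h3 : Tendsto (fun r : ℝ => r⁻¹ * ∫ y in closedBall x r ∩ B, ‖g y‖) (𝓝[>] 0) (𝓝 0))
    {φ : ℂ → ℝ} (hφ : ContDiff ℝ ∞ φ) (hφc : HasCompactSupport φ) (v : ℂ) :
    Tendsto (fun r : ℝ => (∫ y, w (x + r • y) * fderiv ℝ φ y v) +
      inner ℝ (f x) v * (r⁻¹ * ∫ z in K ∩ B, φ (r⁻¹ • (z - x)) ∂(μH[1] : Measure ℂ)))
      (𝓝[>] 0) (𝓝 0) := by
  have hKm := str_K_meas h
  obtain ⟨R, hR0, hR⟩ : ∃ R : ℝ, 0 < R ∧ tsupport φ ⊆ closedBall 0 R := by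
    obtain ⟨R, hR⟩ := hφc.isBounded.subset_closedBall 0
    exact ⟨max R 1, by positivity, hR.trans (closedBall_subset_closedBall (le_max_left _ _))⟩
  obtain ⟨D, hD⟩ := hφ.continuous.bounded_above_of_compact_support hφc
  have hD0 : 0 ≤ D := (norm_nonneg _).trans (hD 0)
  have hmulR : Tendsto (fun r : ℝ => R * r) (𝓝[>] 0) (𝓝[>] 0) := by
    refine tendsto_nhdsWithin_iff.2 ⟨?_, ?_⟩
    · have h1 : Tendsto (fun ε : ℝ => R * ε) (𝓝 0) (𝓝 (R * 0)) := tendsto_id.const_mul R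
      rw [mul_zero] at h1
      exact h1.mono_left nhdsWithin_le_nhds
    · filter_upwards [self_mem_nhdsWithin] with ε hε
      have : (0 : ℝ) < ε := hε
      exact mem_Ioi.2 (by positivity)
  have hlim : Tendsto (fun r : ℝ =>
      D * ‖v‖ * R * ((R * r)⁻¹ * ∫ y in closedBall x (R * r) ∩ B, ‖g y‖) +
      D * ‖v‖ * R * ((R * r)⁻¹ * ∫ y in closedBall x (R * r) ∩ (K ∩ B), ‖f y - f x‖
        ∂(μH[1] : Measure ℂ))) (𝓝[>] 0) (𝓝 0) := by
    have h4 := ((h3.comp hmulR).const_mul (D * ‖v‖ * R)).add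
      ((h2.comp hmulR).const_mul (D * ‖v‖ * R))
    simpa only [mul_zero, add_zero, Function.comp_def] using h4
  have hsmall : ∀ᶠ r : ℝ in 𝓝[>] 0, closedBall x (R * r) ⊆ B := by
    obtain ⟨ρ, hρ, hρB⟩ := Metric.isOpen_iff.1 hB x hx
    have h5 : ∀ᶠ r : ℝ in 𝓝[>] 0, R * r < ρ :=
      (tendsto_nhdsWithin_iff.1 hmulR).1.eventually_lt_const hρ
    filter_upwards [h5] with r hr
    exact (closedBall_subset_ball hr).trans hρB
  refine squeeze_zero_norm' ?_ hlim
  filter_upwards [hsmall, self_mem_nhdsWithin] with r hrB hr0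
  have hr : (0 : ℝ) < r := hr0
  set φr : ℂ → ℝ := fun z => φ (r⁻¹ • (z - x)) with hφr
  have hlin : ContDiff ℝ ∞ (fun z : ℂ => r⁻¹ • (z - x)) :=
    (contDiff_id.sub contDiff_const).const_smul r⁻¹
  have hφrs : ContDiff ℝ ∞ φr := hφ.comp hlin
  have hφrsupp : ∀ z, z ∉ closedBall x (R * r) → φr z = 0 := by
    intro z hz
    show φ (r⁻¹ • (z - x)) = 0
    refine image_eq_zero_of_notMem_tsupport fun hmem => hz ?_
    have h6 := hR hmem
    rw [mem_closedBall_zero_iff, norm_smul, Real.norm_of_nonneg (inv_nonneg.2 hr.le),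
      inv_mul_le_iff₀ hr] at h6
    rw [mem_closedBall, dist_eq_norm, mul_comm]
    exact h6
  have hφrts : tsupport φr ⊆ closedBall x (R * r) := by
    refine closure_minimal ?_ isClosed_closedBall
    intro z hz
    by_contra hcon
    exact hz (hφrsupp z hcon)
  have hφrc : HasCompactSupport φr :=
    (isCompact_closedBall x (R * r)).of_isClosed_subset (isClosed_tsupport _) hφrts
  have hφrD : ∀ z, |φr z| ≤ D := fun z => hD _
  have hF := hform φr hφrs hφrc (hφrts.trans hrB) v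
  -- the first integral
  have hfd : ∀ z, fderiv ℝ φr z v = r⁻¹ * fderiv ℝ φ (r⁻¹ • (z - x)) v := by
    intro z
    have h7 : HasFDerivAt (fun z : ℂ => r⁻¹ • (z - x)) (r⁻¹ • ContinuousLinearMap.id ℝ ℂ) z :=
      ((hasFDerivAt_id z).sub_const x).const_smul r⁻¹
    have h8 := (((hφ.differentiable (by simp)) (r⁻¹ • (z - x))).hasFDerivAt.comp z h7).fderiv
    have h9 : fderiv ℝ φr z = _ := h8
    rw [h9]
    simp
  have e1 : ∫ z, w z * fderiv ℝ φr z v = r * ∫ y, w (x + r • y) * fderiv ℝ φ y v := by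
    have h10 := bl_scale (fun z => w z * fderiv ℝ φ (r⁻¹ • (z - x)) v) x hr
    have h11 : ∀ y : ℂ, r⁻¹ • (x + r • y - x) = y := by
      intro y
      rw [add_sub_cancel_left, smul_smul, inv_mul_cancel₀ hr.ne', one_smul]
    simp only [h11] at h10
    rw [h10, ← mul_assoc]
    have h12 : r * (r ^ 2)⁻¹ = r⁻¹ := by field_simp
    rw [h12, ← integral_const_mul]
    refine integral_congr_ae (Eventually.of_forall fun z => ?_)
    show w z * fderiv ℝ φr z v = _
    rw [hfd]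
    ring
  -- the second integral
  have hgi : IntegrableOn g (closedBall x (R * r)) :=
    h.gi.integrableOn_compact_subset (hrB.trans hBΩ) (isCompact_closedBall _ _)
  have b1 : |∫ z, φr z * inner ℝ (g z) v| ≤
      D * ‖v‖ * ∫ y in closedBall x (R * r) ∩ B, ‖g y‖ := by
    have h13 : ∫ z, φr z * inner ℝ (g z) v =
        ∫ z in closedBall x (R * r) ∩ B, φr z * inner ℝ (g z) v := by
      refine (setIntegral_eq_integral_of_forall_compl_eq_zero fun z hz => ?_).symm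
      have : z ∉ closedBall x (R * r) := fun hmem => hz ⟨hmem, hrB hmem⟩
      rw [hφrsupp z this, zero_mul]
    rw [h13, ← integral_const_mul, ← Real.norm_eq_abs]
    refine (norm_integral_le_of_norm_le ((hgi.mono_set inter_subset_left).norm.const_mul _)
      (Eventually.of_forall fun z => ?_))
    rw [norm_mul, Real.norm_eq_abs]
    calc |φr z| * ‖(inner ℝ (g z) v : ℝ)‖ ≤ D * (‖g z‖ * ‖v‖) :=
          mul_le_mul (hφrD z) (norm_inner_le_norm _ _) (norm_nonneg _) hD0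
      _ = D * ‖v‖ * ‖g z‖ := by ring
  -- the third integral
  have hcon : IntegrableOn (fun _ : ℂ => f x) (K ∩ B) (μH[1] : Measure ℂ) :=
    integrableOn_const hKB.ne
  have hint0 : IntegrableOn φr (K ∩ B) (μH[1] : Measure ℂ) :=
    Measure.integrableOn_of_bounded (M := D) hKB.ne hφrs.continuous.aestronglyMeasurable
      (Eventually.of_forall hφrD)
  have hsub : IntegrableOn (fun z => f z - f x) (K ∩ B) (μH[1] : Measure ℂ) := hfi.sub hcon
  have hbdd : IntegrableOn (fun z => φr z * inner ℝ (f z - f x) v) (K ∩ B)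
      (μH[1] : Measure ℂ) := by
    have hF := hsub
    exact Integrable.bdd_mul (c := D) (hF.inner_const v) hφrs.continuous.aestronglyMeasurable
      (Eventually.of_forall hφrD)
  have e2 : ∫ z in K ∩ B, φr z * inner ℝ (f z) v ∂(μH[1] : Measure ℂ) =
      inner ℝ (f x) v * (∫ z in K ∩ B, φr z ∂(μH[1] : Measure ℂ)) +
      ∫ z in K ∩ B, φr z * inner ℝ (f z - f x) v ∂(μH[1] : Measure ℂ) := by
    rw [← integral_const_mul, ← integral_add (hint0.const_mul _) hbdd]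
    refine integral_congr_ae (Eventually.of_forall fun z => ?_)
    show φr z * inner ℝ (f z) v = inner ℝ (f x) v * φr z + φr z * inner ℝ (f z - f x) v
    rw [inner_sub_left]
    ring
  have b2 : |∫ z in K ∩ B, φr z * inner ℝ (f z - f x) v ∂(μH[1] : Measure ℂ)| ≤
      D * ‖v‖ * ∫ y in closedBall x (R * r) ∩ (K ∩ B), ‖f y - f x‖ ∂(μH[1] : Measure ℂ) := by
    have h14 : ∫ z in K ∩ B, φr z * inner ℝ (f z - f x) v ∂(μH[1] : Measure ℂ) =
        ∫ z in closedBall x (R * r) ∩ (K ∩ B), φr z * inner ℝ (f z - f x) v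
          ∂(μH[1] : Measure ℂ) := by
      refine (setIntegral_eq_of_subset_of_forall_sdiff_eq_zero (hKm.inter hB.measurableSet)
        inter_subset_right fun z hz => ?_)
      have : z ∉ closedBall x (R * r) := fun hmem => hz.2 ⟨hmem, hz.1⟩
      rw [hφrsupp z this, zero_mul]
    rw [h14, ← integral_const_mul, ← Real.norm_eq_abs]
    refine (norm_integral_le_of_norm_le ((hsub.mono_set
      inter_subset_right).norm.const_mul _) (Eventually.of_forall fun z => ?_))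
    rw [norm_mul, Real.norm_eq_abs]
    calc |φr z| * ‖(inner ℝ (f z - f x) v : ℝ)‖ ≤ D * (‖f z - f x‖ * ‖v‖) :=
          mul_le_mul (hφrD z) (norm_inner_le_norm _ _) (norm_nonneg _) hD0
      _ = D * ‖v‖ * ‖f z - f x‖ := by ring
  -- conclusion
  have e3 : (∫ y, w (x + r • y) * fderiv ℝ φ y v) +
      inner ℝ (f x) v * (r⁻¹ * ∫ z in K ∩ B, φr z ∂(μH[1] : Measure ℂ)) =
      - (r⁻¹ * ∫ z, φr z * inner ℝ (g z) v) -
        r⁻¹ * ∫ z in K ∩ B, φr z * inner ℝ (f z - f x) v ∂(μH[1] : Measure ℂ) := by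
    unfold strT at hF
    rw [e1, e2] at hF
    have hrr : r⁻¹ * r = 1 := inv_mul_cancel₀ hr.ne'
    have h15 := congrArg (fun t => r⁻¹ * t) hF
    rw [mul_add, ← mul_assoc, hrr, one_mul] at h15
    linear_combination h15
  have h16 : ‖(∫ y, w (x + r • y) * fderiv ℝ φ y v) +
      inner ℝ (f x) v * (r⁻¹ * ∫ z in K ∩ B, φr z ∂(μH[1] : Measure ℂ))‖ ≤
      r⁻¹ * (D * ‖v‖ * ∫ y in closedBall x (R * r) ∩ B, ‖g y‖) +
      r⁻¹ * (D * ‖v‖ * ∫ y in closedBall x (R * r) ∩ (K ∩ B), ‖f y - f x‖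
        ∂(μH[1] : Measure ℂ)) := by
    rw [e3]
    refine (norm_sub_le _ _).trans ?_
    rw [norm_neg, norm_mul, norm_mul, Real.norm_of_nonneg (inv_nonneg.2 hr.le),
      Real.norm_eq_abs, Real.norm_eq_abs]
    have := inv_nonneg.2 hr.le
    gcongr
  refine h16.trans (le_of_eq ?_)
  have hRr : R * (R * r)⁻¹ = r⁻¹ := by field_simp
  rw [← hRr]
  ring

/-- Dyadic pointwise convergence gives the one-sided approximate limit. -/
theorem str_half_avg {w : ℂ → ℝ} {M : ℝ} (hwm : Measurable w) (hwb : ∀ x, |w x| ≤ M) {x ν : ℂ}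
    (hν : ‖ν‖ = 1) {c : ℝ}
    (h : ∀ᵐ y : ℂ, 0 < inner ℝ y ν →
      Tendsto (fun n : ℕ => w (x + ((2 : ℝ)⁻¹ ^ n) • y)) atTop (𝓝 c)) :
    Tendsto (fun r : ℝ => ⨍ y in halfBall x ν r, |w y - c|) (𝓝[>] 0) (𝓝 0) := by
  have hpi := Real.pi_pos
  have hJ : Tendsto (fun n : ℕ => ∫ y in halfBall 0 ν 2, |w (x + ((2 : ℝ)⁻¹ ^ n) • y) - c|)
      atTop (𝓝 0) := by
    have h0 : (0 : ℝ) = ∫ y in halfBall 0 ν 2, (0 : ℝ) := by simp
    rw [h0]
    refine tendsto_integral_of_dominated_convergence (fun _ => M + |c|) ?_ ?_ ?_ ?_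
    · intro n
      refine Measurable.aestronglyMeasurable ?_
      refine ((hwm.comp ?_).sub_const c).abs
      exact measurable_const.add (measurable_const_smul _)
    · exact integrableOn_const (jb_halfBall_finite 0 ν 2)
    · intro n
      refine Eventually.of_forall fun y => ?_
      rw [Real.norm_eq_abs, abs_abs]
      exact (abs_sub _ _).trans (add_le_add (hwb _) le_rfl)
    · rw [ae_restrict_iff' (bl_measurable_halfBall _ _ _)]
      filter_upwards [h] with y hy hyh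
      have h1 : 0 < inner ℝ (y - 0) ν := hyh.2
      rw [sub_zero] at h1
      have h2 := ((hy h1).sub_const c).abs
      rwa [sub_self, abs_zero] at h2
  rw [Metric.tendsto_nhds]
  intro η hη
  have hJη := hJ.eventually_lt_const (show (0 : ℝ) < η * Real.pi / 16 by positivity)
  obtain ⟨N, hN⟩ := eventually_atTop.1 hJη
  have hr1 : ∀ᶠ r : ℝ in 𝓝[>] 0, r < (2 : ℝ)⁻¹ ^ N :=
    nhdsWithin_le_nhds (Iio_mem_nhds (by positivity))
  filter_upwards [hr1, self_mem_nhdsWithin] with r hrN hr0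
  have hr : (0 : ℝ) < r := hr0
  have hrle : r ≤ 1 := hrN.le.trans (pow_le_one₀ (by norm_num) (by norm_num))
  obtain ⟨n, hn1, hn2⟩ := exists_nat_pow_near_of_lt_one hr hrle (y := (2 : ℝ)⁻¹) (by norm_num)
    (by norm_num)
  have hnN : N ≤ n := by
    by_contra hcon
    push Not at hcon
    have h3 : (2 : ℝ)⁻¹ ^ N ≤ (2 : ℝ)⁻¹ ^ (n + 1) :=
      pow_le_pow_of_le_one (by norm_num) (by norm_num) hcon
    linarith
  have hJn := hN n hnN
  set s : ℝ := (2 : ℝ)⁻¹ ^ n with hs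
  have hs0 : 0 < s := by positivity
  have hs2 : s < 2 * r := by
    rw [pow_succ] at hn1
    linarith
  have e1 := bl_scale_set (fun y => |w y - c|) x hs0 (bl_measurable_halfBall 0 ν 2)
    (bl_measurable_halfBall x ν (2 * s)) (bl_mem_halfBall x ν hs0)
  have hloc : IntegrableOn (fun y => |w y - c|) (halfBall x ν (2 * s)) := by
    refine Measure.integrableOn_of_bounded (M := M + |c|) (jb_halfBall_finite x ν _)
      ((hwm.sub_const c).abs).aestronglyMeasurable ?_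
    refine Eventually.of_forall fun y => ?_
    rw [Real.norm_eq_abs, abs_abs]
    exact (abs_sub _ _).trans (add_le_add (hwb _) le_rfl)
  have hsub : halfBall x ν r ⊆ halfBall x ν (2 * s) := by
    intro y hy
    exact ⟨ball_subset_ball (by linarith) hy.1, hy.2⟩
  have e2 : ∫ y in halfBall x ν r, |w y - c| ≤ ∫ y in halfBall x ν (2 * s), |w y - c| :=
    setIntegral_mono_set hloc (Eventually.of_forall fun y => abs_nonneg _) hsub.eventuallyLE
  have e3 : ∫ y in halfBall x ν (2 * s), |w y - c| ≤ s ^ 2 * (η * Real.pi / 16) := by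
    have h4 : s ^ 2 * (∫ y in halfBall 0 ν 2, |w (x + s • y) - c|) =
        ∫ y in halfBall x ν (2 * s), |w y - c| := by
      rw [e1, ← mul_assoc, mul_inv_cancel₀ (by positivity), one_mul]
    rw [← h4]
    gcongr
  have hv := jb_volume_halfBall x hν hr
  have hvpos : 0 < (volume : Measure ℂ).real (halfBall x ν r) :=
    lt_of_lt_of_le (by positivity) hv
  rw [Real.dist_eq, sub_zero, setAverage_eq, smul_eq_mul, abs_mul,
    abs_of_nonneg (inv_nonneg.2 hvpos.le),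
    abs_of_nonneg (integral_nonneg fun y => abs_nonneg (w y - c)), inv_mul_lt_iff₀ hvpos]
  have h5 : s ^ 2 < 4 * r ^ 2 := by nlinarith
  calc ∫ y in halfBall x ν r, |w y - c| ≤ s ^ 2 * (η * Real.pi / 16) := e2.trans e3
    _ < 4 * r ^ 2 * (η * Real.pi / 16) := by
        apply mul_lt_mul_of_pos_right h5
        positivity
    _ = Real.pi * r ^ 2 / 4 * η := by ring
    _ ≤ (volume : Measure ℂ).real (halfBall x ν r) * η := by gcongr

end Pool.Agent.MP099f24
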