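import Mathlib
import Pool.Agent.Lib.MP_099f24_an.ST.BlowB

/-!
# MP_099f24_an, STRUCT package: the jump at generic points of `K`
-/

namespace Pool.Agent.MP099f24

open MeasureTheory Filter Topology Set Metric
open scoped ENNReal NNReal ContDiff

theorem str_half_pow (q : ℝ) (hq : 0 < q) :
    Tendsto (fun n : ℕ => q * (2 : ℝ)⁻¹ ^ n) atTop (𝓝[>] 0) := by
  refine tendsto_nhdsWithin_iff.2 ⟨?_, Eventually.of_forall fun n => ?_⟩
  · have h1 := (tendsto_pow_atTop_nhds_zero_of_lt_one (r := (2 : ℝ)⁻¹) (by norm_num)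
      (by norm_num)).const_mul q
    rwa [mul_zero] at h1
  · show (0 : ℝ) < q * (2 : ℝ)⁻¹ ^ n
    positivity

/-- At a generic point of `K` at which the density `f` does not vanish, `w` has a jump and `f` is
the jump vector. -/
theorem str_jump {Ω K : Set ℂ} {M : ℝ} {w : ℂ → ℝ} {g : ℂ → ℂ} (h : StrData Ω K M w g)
    {B : Set ℂ} (hB : IsOpen B) (hBΩ : B ⊆ Ω) (hKB : (μH[1] : Measure ℂ) (K ∩ B) < ⊤) {f : ℂ → ℂ}
    (hfi : IntegrableOn f (K ∩ B) (μH[1] : Measure ℂ))
    (hform : ∀ φ : ℂ → ℝ, ContDiff ℝ ∞ φ → HasCompactSupport φ → tsupport φ ⊆ B → ∀ v : ℂ,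
        strT w g φ v = - ∫ x in K ∩ B, φ x * inner ℝ (f x) v ∂(μH[1] : Measure ℂ))
    {x : ℂ} (hx : x ∈ B)
    (h1 : ∀ ε : ℝ, 0 < ε → ∀ᶠ r in 𝓝[>] (0 : ℝ),
      ((μH[1] : Measure ℂ).restrict (K ∩ B)) (closedBall x r) ≤ ENNReal.ofReal ((1 + ε) * (2 * r)))
    (h2 : Tendsto (fun r : ℝ => r⁻¹ * ∫ y in closedBall x r ∩ (K ∩ B), ‖f y - f x‖
      ∂(μH[1] : Measure ℂ)) (𝓝[>] 0) (𝓝 0))
    (h3 : Tendsto (fun r : ℝ => r⁻¹ * ∫ y in closedBall x r ∩ B, ‖g y‖) (𝓝[>] 0) (𝓝 0))
    {W : ℂ → ℝ} (hWm : Measurable W) (hWb : ∀ v, |W v| ≤ M)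
    (hW : ∀ᵐ v : ℂ, inner ℝ (f x) v ≠ (0 : ℝ) →
        (∀ q : ℚ, 0 < q →
          Tendsto (fun n : ℕ => w (x + ((q : ℝ) * (2 : ℝ)⁻¹ ^ n) • v)) atTop (𝓝 (W v))) ∧
        |inner ℝ (f x) v| ≤ ‖v‖ * |W v - W (-v)|)
    (hfx : f x ≠ 0) :
    ∃ a b : ℝ, ∃ ν : ℂ, IsJump w x a b ν ∧ f x = (a - b) • ν := by
  have hKm := str_K_meas h
  have hN : 0 < ‖f x‖ := norm_pos_iff.2 hfx
  set ν : ℂ := ‖f x‖⁻¹ • f x with hνdef
  have hν : ‖ν‖ = 1 := by
    rw [hνdef, norm_smul, norm_inv, norm_norm, inv_mul_cancel₀ hN.ne']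
  have hfν : f x = ‖f x‖ • ν := by
    rw [hνdef, smul_smul, mul_inv_cancel₀ hN.ne', one_smul]
  have hin : ∀ v : ℂ, inner ℝ (f x) v = ‖f x‖ * inner ℝ v ν := by
    intro v
    conv_lhs => rw [hfν]
    rw [real_inner_smul_left, real_inner_comm]
  have hνν : inner ℝ ν ν = (1 : ℝ) := by
    rw [real_inner_self_eq_norm_sq, hν]
    norm_num
  -- the a.e. statement without the exceptional line
  have hW' : ∀ᵐ v : ℂ, (∀ q : ℚ, 0 < q →
          Tendsto (fun n : ℕ => w (x + ((q : ℝ) * (2 : ℝ)⁻¹ ^ n) • v)) atTop (𝓝 (W v))) ∧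
        |inner ℝ (f x) v| ≤ ‖v‖ * |W v - W (-v)| := by
    filter_upwards [hW, bl_line hν] with v hv hvν
    refine hv ?_
    rw [hin]
    exact mul_ne_zero hN.ne' hvν
  -- homogeneity
  have hhom : ∀ q : ℚ, 0 < q → ∀ᵐ y : ℂ, W ((q : ℝ) • y) = W y := by
    intro q hq
    have hq' : (0 : ℝ) < q := by exact_mod_cast hq
    have h4 := (Measure.quasiMeasurePreserving_smul (μ := (volume : Measure ℂ)) hq'.ne').ae hW'
    filter_upwards [hW', h4] with y hy hqy
    have h5 := hy.1 q hq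
    have h6 := hqy.1 1 one_pos
    refine tendsto_nhds_unique ?_ h5
    refine h6.congr fun n => ?_
    rw [smul_smul]
    congr 3
    push_cast
    ring
  have hdy : ∀ᵐ v : ℂ, Tendsto (fun n : ℕ => w (x + ((2 : ℝ)⁻¹ ^ n) • v)) atTop (𝓝 (W v)) := by
    filter_upwards [hW'] with v hv
    have h5 := hv.1 1 one_pos
    refine h5.congr fun n => ?_
    push_cast
    rw [one_mul]
  -- dominated convergence
  have hdct : ∀ {φ : ℂ → ℝ}, ContDiff ℝ ∞ φ → HasCompactSupport φ → ∀ v : ℂ,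
      Tendsto (fun n : ℕ => ∫ y, w (x + ((2 : ℝ)⁻¹ ^ n) • y) * fderiv ℝ φ y v) atTop
        (𝓝 (∫ y, W y * fderiv ℝ φ y v)) := by
    intro φ hφ hφc v
    have hd : Continuous (fun y => fderiv ℝ φ y v) :=
      (hφ.continuous_fderiv (by simp)).clm_apply continuous_const
    have hdc : HasCompactSupport (fun y => fderiv ℝ φ y v) := hφc.fderiv_apply (𝕜 := ℝ) v
    refine tendsto_integral_of_dominated_convergence (fun y => M * ‖fderiv ℝ φ y v‖) ?_ ?_ ?_ ?_
    · intro n
      refine Measurable.aestronglyMeasurable ?_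
      refine (h.wm.comp ?_).mul hd.measurable
      exact measurable_const.add (measurable_const_smul _)
    · exact (hd.integrable_of_hasCompactSupport hdc).norm.const_mul M
    · intro n
      refine Eventually.of_forall fun y => ?_
      rw [norm_mul, Real.norm_eq_abs]
      exact mul_le_mul_of_nonneg_right (h.wb _) (norm_nonneg _)
    · filter_upwards [hdy] with y hy
      exact hy.mul_const _
  have hr2 := str_half_pow 1 one_pos
  simp only [one_mul] at hr2
  have hblow : ∀ {φ : ℂ → ℝ}, ContDiff ℝ ∞ φ → HasCompactSupport φ → ∀ v : ℂ,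
      Tendsto (fun n : ℕ => inner ℝ (f x) v * (((2 : ℝ)⁻¹ ^ n)⁻¹ * ∫ z in K ∩ B,
        φ (((2 : ℝ)⁻¹ ^ n)⁻¹ • (z - x)) ∂(μH[1] : Measure ℂ))) atTop
        (𝓝 (-∫ y, W y * fderiv ℝ φ y v)) := by
    intro φ hφ hφc v
    have h5 := (str_blow h hB hBΩ hKB hfi hform hx h2 h3 hφ hφc v).comp hr2
    have h6 := h5.sub (hdct hφ hφc v)
    rw [zero_sub] at h6
    refine h6.congr fun n => ?_
    simp only [Function.comp_apply]
    ring
  have he : ∀ φ : ℂ → ℝ, ContDiff ℝ ∞ φ → HasCompactSupport φ →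
      ∫ y, W y * fderiv ℝ φ y (Complex.I * ν) = 0 := by
    intro φ hφ hφc
    have h5 := hblow hφ hφc (Complex.I * ν)
    rw [hin, str_inner_IL] at h5
    simp only [mul_zero, zero_mul] at h5
    have h6 := tendsto_nhds_unique h5 tendsto_const_nhds
    linarith
  obtain ⟨a, ha⟩ := str_half_const hWm hWb hhom hν he
  obtain ⟨b, hb⟩ := str_half_const hWm hWb hhom (ν := -ν) (by rwa [norm_neg]) (by
    intro φ hφ hφc
    have h5 := he φ hφ hφc
    have h6 : ∀ y, W y * fderiv ℝ φ y (Complex.I * -ν) =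
        -(W y * fderiv ℝ φ y (Complex.I * ν)) := by
      intro y
      rw [mul_neg, map_neg]
      ring
    simp only [h6]
    rw [integral_neg, h5, neg_zero])
  have hWstep : ∀ᵐ y : ℂ, W y = blStep a b ν y := by
    filter_upwards [ha, hb, bl_line hν] with y hya hyb hyν
    by_cases hpos : 0 < inner ℝ y ν
    · rw [bl_step_of_pos hpos, hya hpos]
    · rw [bl_step_of_neg hpos]
      refine hyb ?_
      rw [inner_neg_right]
      have : inner ℝ y ν < (0 : ℝ) := lt_of_le_of_ne (not_lt.1 hpos) hyν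
      linarith
  -- first inequality
  have hle : ‖f x‖ ≤ |a - b| := by
    by_contra hcon
    push Not at hcon
    set O : Set ℂ := {v : ℂ | 0 < inner ℝ v ν ∧ ‖v‖ * |a - b| < |inner ℝ (f x) v|} with hO
    have hOo : IsOpen O := by
      have hcin2 : Continuous (fun v : ℂ => (inner ℝ v ν : ℝ)) :=
        continuous_id.inner continuous_const
      refine (isOpen_lt continuous_const hcin2).inter ?_
      have hcin : Continuous (fun v : ℂ => (inner ℝ (f x) v : ℝ)) :=
        continuous_const.inner continuous_id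
      exact isOpen_lt (continuous_norm.mul continuous_const) hcin.abs
    have hνO : ν ∈ O := by
      refine ⟨by rw [hνν]; exact one_pos, ?_⟩
      rw [hin, hνν, mul_one, hν, one_mul, abs_of_pos hN]
      exact hcon
    have hOpos : 0 < (volume : Measure ℂ) O := hOo.measure_pos volume ⟨ν, hνO⟩
    have hOae : ∀ᵐ v : ℂ, v ∉ O := by
      have hbneg : ∀ᵐ v : ℂ, 0 < inner ℝ (-v) (-ν) → W (-v) = b :=
        (Measure.measurePreserving_neg (volume : Measure ℂ)).quasiMeasurePreserving.ae hb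
      filter_upwards [hW', ha, hbneg] with v hv hva hvb hvO
      have hv1 : 0 < inner ℝ v ν := hvO.1
      have h7 := hv.2
      rw [hva hv1, hvb (by rw [inner_neg_neg]; exact hv1)] at h7
      exact absurd hvO.2 (not_lt.2 h7)
    rw [ae_iff] at hOae
    simp only [not_not] at hOae
    exact absurd hOae hOpos.ne'
  -- second inequality
  have hkey : ∀ ε : ℝ, 0 < ε → ε < 1 / 2 → 0 ≤ a - b ∧
      (a - b) * (1 - 2 * ε) ≤ ‖f x‖ * (1 + ε) := by
    intro ε hε hε1
    obtain ⟨φ, hφ, hφ0, hφ1, hφs, c, hc, hstep⟩ := str_step_test hν hε hε1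
    have hφc : HasCompactSupport φ :=
      (isCompact_closedBall (0 : ℂ) 1).of_isClosed_subset (isClosed_tsupport _) hφs
    have hcpos : 0 < c := by linarith
    have h5 := hblow hφ hφc ν
    have h6 : ∫ y, W y * fderiv ℝ φ y ν = -((a - b) * c) := by
      rw [← hstep a b]
      refine integral_congr_ae ?_
      filter_upwards [hWstep] with y hy
      rw [hy]
    rw [h6, neg_neg, hin, hνν, mul_one] at h5
    have hbd : ∀ᶠ n : ℕ in atTop, 0 ≤ (((2 : ℝ)⁻¹ ^ n)⁻¹ * ∫ z in K ∩ B,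
        φ (((2 : ℝ)⁻¹ ^ n)⁻¹ • (z - x)) ∂(μH[1] : Measure ℂ)) ∧
        (((2 : ℝ)⁻¹ ^ n)⁻¹ * ∫ z in K ∩ B,
        φ (((2 : ℝ)⁻¹ ^ n)⁻¹ • (z - x)) ∂(μH[1] : Measure ℂ)) ≤ 2 * (1 + ε) := by
      filter_upwards [hr2.eventually (h1 ε hε)] with n hn
      set r : ℝ := (2 : ℝ)⁻¹ ^ n with hr
      have hr0 : 0 < r := by positivity
      refine ⟨mul_nonneg (inv_nonneg.2 hr0.le) (integral_nonneg fun z => hφ0 _), ?_⟩
      have hsupp : ∀ z, z ∉ closedBall x r → φ (r⁻¹ • (z - x)) = 0 := by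
        intro z hz
        refine image_eq_zero_of_notMem_tsupport fun hmem => hz ?_
        have h8 := hφs hmem
        rw [mem_closedBall_zero_iff, norm_smul, Real.norm_of_nonneg (inv_nonneg.2 hr0.le),
          inv_mul_le_iff₀ hr0, mul_one] at h8
        rw [mem_closedBall, dist_eq_norm]
        exact h8
      have h9 : ∫ z in K ∩ B, φ (r⁻¹ • (z - x)) ∂(μH[1] : Measure ℂ) =
          ∫ z in closedBall x r ∩ (K ∩ B), φ (r⁻¹ • (z - x)) ∂(μH[1] : Measure ℂ) :=
        setIntegral_eq_of_subset_of_forall_sdiff_eq_zero (hKm.inter hB.measurableSet)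
          inter_subset_right fun z hz => hsupp z fun hmem => hz.2 ⟨hmem, hz.1⟩
      have hfin : (μH[1] : Measure ℂ) (closedBall x r ∩ (K ∩ B)) < ⊤ :=
        (measure_mono inter_subset_right).trans_lt hKB
      have h10 : ∫ z in closedBall x r ∩ (K ∩ B), φ (r⁻¹ • (z - x)) ∂(μH[1] : Measure ℂ) ≤
          ∫ z in closedBall x r ∩ (K ∩ B), (1 : ℝ) ∂(μH[1] : Measure ℂ) := by
        refine integral_mono_of_nonneg (Eventually.of_forall fun z => hφ0 _)
          (integrableOn_const hfin.ne) (Eventually.of_forall fun z => hφ1 _)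
      rw [setIntegral_const, smul_eq_mul, mul_one] at h10
      have h11 : (μH[1] : Measure ℂ).real (closedBall x r ∩ (K ∩ B)) ≤ (1 + ε) * (2 * r) := by
        rw [measureReal_def, ← Measure.restrict_apply isClosed_closedBall.measurableSet]
        refine ENNReal.toReal_le_of_le_ofReal (by positivity) hn
      rw [h9, inv_mul_le_iff₀ hr0]
      linarith
    constructor
    · have h12 : 0 ≤ (a - b) * c := ge_of_tendsto h5 (by
        filter_upwards [hbd] with n hn
        exact mul_nonneg hN.le hn.1)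
      by_contra hcon
      push Not at hcon
      have := mul_neg_of_neg_of_pos hcon hcpos
      linarith
    · have h13 : (a - b) * c ≤ ‖f x‖ * (2 * (1 + ε)) := le_of_tendsto h5 (by
        filter_upwards [hbd] with n hn
        exact mul_le_mul_of_nonneg_left hn.2 hN.le)
      have h14 : 0 ≤ a - b := by
        have h12 : 0 ≤ (a - b) * c := ge_of_tendsto h5 (by
          filter_upwards [hbd] with n hn
          exact mul_nonneg hN.le hn.1)
        by_contra hcon
        push Not at hcon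
        have := mul_neg_of_neg_of_pos hcon hcpos
        linarith
      nlinarith
  have hab0 : 0 ≤ a - b := (hkey (1 / 4) (by norm_num) (by norm_num)).1
  have hle2 : a - b ≤ ‖f x‖ := by
    have h15 : Tendsto (fun n : ℕ => (a - b) * (1 - 2 * (1 / ((n : ℝ) + 1)))) atTop
        (𝓝 ((a - b) * (1 - 2 * 0))) :=
      (tendsto_const_nhds.sub
        ((tendsto_one_div_add_atTop_nhds_zero_nat (𝕜 := ℝ)).const_mul 2)).const_mul _
    have h16 : Tendsto (fun n : ℕ => ‖f x‖ * (1 + (1 / ((n : ℝ) + 1)))) atTop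
        (𝓝 (‖f x‖ * (1 + 0))) :=
      (tendsto_const_nhds.add (tendsto_one_div_add_atTop_nhds_zero_nat (𝕜 := ℝ))).const_mul _
    have h17 := le_of_tendsto_of_tendsto h15 h16 (by
      filter_upwards [eventually_ge_atTop 3] with n hn
      refine (hkey _ (by positivity) ?_).2
      have : (3 : ℝ) ≤ n := by exact_mod_cast hn
      rw [div_lt_div_iff₀ (by positivity) (by norm_num)]
      linarith)
    simpa using h17
  have hab : a - b = ‖f x‖ := by
    rw [abs_of_nonneg hab0] at hle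
    exact le_antisymm hle2 hle
  refine ⟨a, b, ν, ⟨hν, ?_, ?_, ?_⟩, ?_⟩
  · intro heq
    rw [heq, sub_self] at hab
    exact hN.ne hab
  · refine str_half_avg h.wm h.wb hν ?_
    filter_upwards [hdy, ha] with y hy hya hpos
    rwa [hya hpos] at hy
  · refine str_half_avg h.wm h.wb (by rwa [norm_neg]) ?_
    filter_upwards [hdy, hb] with y hy hyb hpos
    rwa [hyb hpos] at hy
  · rw [hab]
    exact hfν

/-- At a generic point of `K` at which the density `f` vanishes, `w` has no jump. -/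
theorem str_nojump {Ω K : Set ℂ} {M : ℝ} {w : ℂ → ℝ} {g : ℂ → ℂ} (h : StrData Ω K M w g)
    {B : Set ℂ} (hB : IsOpen B) (hBΩ : B ⊆ Ω) (hKB : (μH[1] : Measure ℂ) (K ∩ B) < ⊤) {f : ℂ → ℂ}
    (hfi : IntegrableOn f (K ∩ B) (μH[1] : Measure ℂ))
    (hform : ∀ φ : ℂ → ℝ, ContDiff ℝ ∞ φ → HasCompactSupport φ → tsupport φ ⊆ B → ∀ v : ℂ,
        strT w g φ v = - ∫ x in K ∩ B, φ x * inner ℝ (f x) v ∂(μH[1] : Measure ℂ))
    {x : ℂ} (hx : x ∈ B)
    (h2 : Tendsto (fun r : ℝ => r⁻¹ * ∫ y in closedBall x r ∩ (K ∩ B), ‖f y - f x‖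
      ∂(μH[1] : Measure ℂ)) (𝓝[>] 0) (𝓝 0))
    (h3 : Tendsto (fun r : ℝ => r⁻¹ * ∫ y in closedBall x r ∩ B, ‖g y‖) (𝓝[>] 0) (𝓝 0))
    (hfx : f x = 0) : ¬ ∃ a b : ℝ, ∃ ν : ℂ, IsJump w x a b ν := by
  rintro ⟨a, b, ν, hj⟩
  have hν : ‖ν‖ = 1 := hj.1
  have hab : a ≠ b := hj.2.1
  have hloc : ∀ {F : ℂ → ℝ}, Measurable F → ∀ {C : ℝ}, (∀ y, |F y| ≤ C) → ∀ S : Set ℂ,
      (volume : Measure ℂ) S < ⊤ → IntegrableOn F S := by
    intro F hF C hC S hS
    exact Measure.integrableOn_of_bounded (M := C) hS.ne hF.aestronglyMeasurable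
      (Eventually.of_forall fun y => by rw [Real.norm_eq_abs]; exact hC y)
  have hwU : IntegrableOn w (ball x 1) := hloc h.wm h.wb _ measure_ball_lt_top
  have h4 := bl_lim_jump (ball_mem_nhds x one_pos) hwU hj
  obtain ⟨φ, hφ, hφ0, hφ1, hφs, c, hc, hstep⟩ := str_step_test hν (ε := 1 / 4) (by norm_num)
    (by norm_num)
  have hφc : HasCompactSupport φ :=
    (isCompact_closedBall (0 : ℂ) 1).of_isClosed_subset (isClosed_tsupport _) hφs
  have h5 := str_blow h hB hBΩ hKB hfi hform hx h2 h3 hφ hφc ν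
  simp only [hfx, inner_zero_left, zero_mul, add_zero] at h5
  have hd : Continuous (fun y => fderiv ℝ φ y ν) :=
    (hφ.continuous_fderiv (by simp)).clm_apply continuous_const
  have hdc : HasCompactSupport (fun y => fderiv ℝ φ y ν) := hφc.fderiv_apply (𝕜 := ℝ) ν
  obtain ⟨D, hD⟩ := hd.bounded_above_of_compact_support hdc
  have hD0 : 0 ≤ D := (norm_nonneg _).trans (hD 0)
  have hsupp : ∀ y, y ∉ ball (0 : ℂ) 2 → fderiv ℝ φ y ν = 0 := by
    intro y hy
    have h6 : y ∉ tsupport (fderiv ℝ φ) := by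
      intro hmem
      apply hy
      have := hφs (tsupport_fderiv_subset ℝ hmem)
      rw [mem_closedBall_zero_iff] at this
      rw [mem_ball_zero_iff]
      linarith
    rw [image_eq_zero_of_notMem_tsupport h6]
    rfl
  have h7 : Tendsto (fun r : ℝ => ∫ y, w (x + r • y) * fderiv ℝ φ y ν) (𝓝[>] 0)
      (𝓝 (∫ y, blStep a b ν y * fderiv ℝ φ y ν)) := by
    rw [tendsto_iff_norm_sub_tendsto_zero]
    have h8 := h4.const_mul D
    rw [mul_zero] at h8
    refine squeeze_zero' (Eventually.of_forall fun r => norm_nonneg _) ?_ h8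
    filter_upwards [bl_integrable (ball_mem_nhds x one_pos) hwU] with r hr
    have e0 : ∀ {F : ℂ → ℝ}, ∫ y, F y * fderiv ℝ φ y ν =
        ∫ y in ball (0 : ℂ) 2, F y * fderiv ℝ φ y ν := by
      intro F
      refine (setIntegral_eq_integral_of_forall_compl_eq_zero fun y hy => ?_).symm
      rw [hsupp y hy, mul_zero]
    have i0 : ∀ {F : ℂ → ℝ}, IntegrableOn F (ball (0 : ℂ) 2) →
        IntegrableOn (fun y => F y * fderiv ℝ φ y ν) (ball (0 : ℂ) 2) := by
      intro F hF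
      exact Integrable.mul_bdd (c := D) hF hd.aestronglyMeasurable (Eventually.of_forall hD)
    have i1 := bl_step_integrable a b ν
    rw [e0, e0, ← integral_sub (i0 hr) (i0 i1), ← integral_const_mul]
    refine norm_integral_le_of_norm_le ((hr.sub i1).abs.const_mul D)
      (Eventually.of_forall fun y => ?_)
    rw [← sub_mul, norm_mul, mul_comm, Real.norm_eq_abs (w _ - _)]
    exact mul_le_mul_of_nonneg_right (hD y) (abs_nonneg _)
  have h9 := tendsto_nhds_unique h7 h5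
  rw [hstep] at h9
  have h10 : (a - b) * c = 0 := by linarith
  rcases mul_eq_zero.1 h10 with h11 | h11
  · exact hab (sub_eq_zero.1 h11)
  · rw [h11] at hc
    norm_num at hc

end Pool.Agent.MP099f24
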