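import Mathlib
import Pool.Agent.Lib.MP_099f24_an.ST.BlowC
import Pool.Agent.Lib.MP_099f24_an.Unique

/-!
# MP_099f24_an, STRUCT package: closed sets of locally finite length give `SBV` functions
-/

namespace Pool.Agent.MP099f24

open MeasureTheory Filter Topology Set Metric
open scoped ENNReal NNReal ContDiff

/-- The output of the slicing theorem. -/
def StrSlice (Ω K : Set ℂ) (w : ℂ → ℝ) (g : ℂ → ℂ) : Prop :=
  ∀ B : Set ℂ, IsOpen B → IsCompact (closure B) → closure B ⊆ Ω → ∀ f : ℂ → ℂ, Measurable f →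
    IntegrableOn f (K ∩ B) (μH[1] : Measure ℂ) →
    (∀ φ : ℂ → ℝ, ContDiff ℝ ∞ φ → HasCompactSupport φ → tsupport φ ⊆ B → ∀ v : ℂ,
        strT w g φ v = - ∫ x in K ∩ B, φ x * inner ℝ (f x) v ∂(μH[1] : Measure ℂ)) →
    ∀ v : ℂ, v ≠ 0 → ∀ᵐ x ∂((μH[1] : Measure ℂ).restrict (K ∩ B)), inner ℝ (f x) v ≠ (0 : ℝ) →
      ∃ a b : ℝ, Tendsto (fun t : ℝ => w (x + t • v)) (𝓝[>] 0) (𝓝 a) ∧
        Tendsto (fun t : ℝ => w (x - t • v)) (𝓝[>] 0) (𝓝 b) ∧
        |inner ℝ (f x) v| ≤ ‖v‖ * |a - b|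

/-- the jump vector of `w`, with a choice of the orientation (which does not matter) -/
noncomputable def strJ (w : ℂ → ℝ) (x : ℂ) : ℂ := by
  classical
  exact if hj : ∃ p : ℝ × ℝ × ℂ, IsJump w x p.1 p.2.1 p.2.2 then
    (hj.choose.1 - hj.choose.2.1) • hj.choose.2.2 else 0

theorem strJ_none {w : ℂ → ℝ} {x : ℂ} (h : ¬ ∃ a b : ℝ, ∃ ν : ℂ, IsJump w x a b ν) :
    strJ w x = 0 := by
  classical
  rw [strJ, dif_neg]
  rintro ⟨p, hp⟩
  exact h ⟨_, _, _, hp⟩

theorem strJ_exists {w : ℂ → ℝ} {x : ℂ} (h : ∃ a b : ℝ, ∃ ν : ℂ, IsJump w x a b ν) :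
    ∃ a b : ℝ, ∃ ν : ℂ, IsJump w x a b ν ∧ strJ w x = (a - b) • ν := by
  classical
  obtain ⟨a, b, ν, hj⟩ := h
  have h1 : ∃ p : ℝ × ℝ × ℂ, IsJump w x p.1 p.2.1 p.2.2 := ⟨(a, b, ν), hj⟩
  refine ⟨h1.choose.1, h1.choose.2.1, h1.choose.2.2, h1.choose_spec, ?_⟩
  rw [strJ, dif_pos h1]

theorem strJ_field (Ω : Set ℂ) (w : ℂ → ℝ) : IsJumpField Ω w (strJ w) := by
  intro x _
  by_cases h : ∃ a b : ℝ, ∃ ν : ℂ, IsJump w x a b ν
  · exact Or.inl (strJ_exists h)
  · exact Or.inr ⟨h, strJ_none h⟩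

theorem strJ_eq {w : ℂ → ℝ} {x : ℂ} {U : Set ℂ} (hU : U ∈ 𝓝 x) (hw : IntegrableOn w U)
    {a b : ℝ} {ν : ℂ} (h : IsJump w x a b ν) : strJ w x = (a - b) • ν := by
  obtain ⟨a', b', ν', h', hs⟩ := strJ_exists ⟨a, b, ν, h⟩
  rw [hs]
  rcases isJump_unique hU hw h h' with ⟨h1, h2, h3⟩ | ⟨h1, h2, h3⟩
  · rw [h1, h2, h3]
  · rw [h1, h2, h3, smul_neg, ← neg_smul, neg_sub]

theorem str_cont {Ω K : Set ℂ} {M : ℝ} {w : ℂ → ℝ} {g : ℂ → ℂ} (h : StrData Ω K M w g) {x : ℂ}
    (hx : x ∈ Ω \ K) : ContinuousAt w x := by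
  obtain ⟨L, t, ht, hL⟩ := h.lip x hx
  exact hL.continuousOn.continuousAt ht

theorem str_loc {Ω K : Set ℂ} {M : ℝ} {w : ℂ → ℝ} {g : ℂ → ℂ} (h : StrData Ω K M w g) {S : Set ℂ}
    (hS : (volume : Measure ℂ) S < ⊤) : IntegrableOn w S :=
  Measure.integrableOn_of_bounded (M := M) hS.ne h.wm.aestronglyMeasurable
    (Eventually.of_forall fun y => by rw [Real.norm_eq_abs]; exact h.wb y)

theorem strJ_off {Ω K : Set ℂ} {M : ℝ} {w : ℂ → ℝ} {g : ℂ → ℂ} (h : StrData Ω K M w g) {x : ℂ}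
    (hx : x ∈ Ω \ K) : strJ w x = 0 := by
  refine strJ_none ?_
  rintro ⟨a, b, ν, hj⟩
  exact not_isApproxLim_of_isJump (ball_mem_nhds x one_pos) (str_loc h measure_ball_lt_top) hj _
    (isApproxLim_of_continuousAt (str_cont h hx))

/-- STRUCT: a bounded function which is locally Lipschitz off a relatively closed set `K` of
locally finite length, with locally integrable gradient, is of class `SBV_loc` and its
discontinuity set is contained in `K`. -/
theorem str_isSBV' {Ω K : Set ℂ} {M : ℝ} {w : ℂ → ℝ} {g : ℂ → ℂ} (h : StrData Ω K M w g)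
    (hslice : StrSlice Ω K w g) : IsSBVGrad Ω w g ∧ discSet Ω w ⊆ K := by
  have hKm := str_K_meas h
  -- the jump vector is the density
  have key : ∀ B : Set ℂ, IsOpen B → IsCompact (closure B) → closure B ⊆ Ω →
      ∃ f : ℂ → ℂ, IntegrableOn f (K ∩ B) (μH[1] : Measure ℂ) ∧
        (∀ φ : ℂ → ℝ, ContDiff ℝ ∞ φ → HasCompactSupport φ → tsupport φ ⊆ B → ∀ v : ℂ,
          strT w g φ v = - ∫ x in K ∩ B, φ x * inner ℝ (f x) v ∂(μH[1] : Measure ℂ)) ∧
        ∀ᵐ x ∂((μH[1] : Measure ℂ).restrict (K ∩ B)), strJ w x = f x := by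
    intro B hB hBc hBΩ
    obtain ⟨f, hf, hfi, hform⟩ := str_density h hB hBc hBΩ
    have hKB : (μH[1] : Measure ℂ) (K ∩ B) < ⊤ :=
      (measure_mono (inter_subset_inter_right _ subset_closure)).trans_lt (h.fin _ hBc hBΩ)
    have hKBm : MeasurableSet (K ∩ B) := hKm.inter hB.measurableSet
    have hg : IntegrableOn g B :=
      (h.gi.integrableOn_compact_subset hBΩ hBc).mono_set subset_closure
    refine ⟨f, hfi, hform, ?_⟩
    have hrad := str_radial h.wm h.wb hKB hf (hslice B hB hBc hBΩ f hf hfi hform)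
    filter_upwards [str_generic hKBm hKB hfi hg, hrad, ae_restrict_mem hKBm] with x hx1 hx2 hxm
    obtain ⟨h1, h2, h3⟩ := hx1
    obtain ⟨W, hWm, hWb, hW⟩ := hx2
    have hBΩ' : B ⊆ Ω := subset_closure.trans hBΩ
    by_cases hfx : f x = 0
    · rw [hfx]
      exact strJ_none (str_nojump h hB hBΩ' hKB hfi hform hxm.2 h2 h3 hfx)
    · obtain ⟨a, b, ν, hj, hfj⟩ :=
        str_jump h hB hBΩ' hKB hfi hform hxm.2 h1 h2 h3 hWm hWb hW hfx
      rw [hfj]
      exact strJ_eq (ball_mem_nhds x one_pos) (str_loc h measure_ball_lt_top) hj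
  refine ⟨⟨h.gi, strJ w, strJ_field Ω w, ?_, ?_⟩, ?_⟩
  · -- local integrability
    intro x hx
    obtain ⟨r, hr, hrΩ⟩ := Metric.nhds_basis_closedBall.mem_iff.1 (h.isOpen.mem_nhds hx)
    have hcl : closure (ball x r) = closedBall x r := closure_ball x hr.ne'
    obtain ⟨f, hfi, -, hae⟩ := key (ball x r) isOpen_ball
      (by rw [hcl]; exact isCompact_closedBall _ _) (by rw [hcl]; exact hrΩ)
    refine ⟨ball x r, mem_nhdsWithin_of_mem_nhds (ball_mem_nhds x hr), ?_⟩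
    have h1 : IntegrableOn (K.indicator f) (ball x r) (μH[1] : Measure ℂ) := by
      rw [IntegrableOn, integrable_indicator_iff hKm, IntegrableOn, Measure.restrict_restrict hKm]
      exact hfi
    refine h1.congr ?_
    rw [ae_restrict_iff' (hKm.inter measurableSet_ball)] at hae
    rw [EventuallyEq, ae_restrict_iff' measurableSet_ball]
    filter_upwards [hae] with y hy hyb
    by_cases hyK : y ∈ K
    · rw [indicator_of_mem hyK, hy ⟨hyK, hyb⟩]
    · rw [indicator_of_notMem hyK, strJ_off h ⟨hrΩ (ball_subset_closedBall hyb), hyK⟩]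
  · -- the formula
    intro φ hφ hφc hφs v
    obtain ⟨C, hC, hφC, hCΩ⟩ := exists_compact_between hφc h.isOpen hφs
    have hclC : closure (interior C) ⊆ C := closure_minimal interior_subset hC.isClosed
    obtain ⟨f, hfi, hform, hae⟩ := key (interior C) isOpen_interior
      (hC.of_isClosed_subset isClosed_closure hclC) (hclC.trans hCΩ)
    have hF := hform φ hφ hφc hφC v
    have hz : ∀ x, x ∉ tsupport φ → φ x = 0 := fun x hx => image_eq_zero_of_notMem_tsupport hx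
    have e1 : ∫ x in Ω, w x * fderiv ℝ φ x v = ∫ x, w x * fderiv ℝ φ x v := by
      refine setIntegral_eq_integral_of_forall_compl_eq_zero fun x hx => ?_
      have h4 : fderiv ℝ φ x = 0 := by
        have h5 : x ∉ tsupport (fderiv ℝ φ) := fun h' => hx (hφs (tsupport_fderiv_subset ℝ h'))
        exact image_eq_zero_of_notMem_tsupport h5
      rw [h4]
      simp
    have e2 : ∫ x in Ω, φ x * inner ℝ (g x) v = ∫ x, φ x * inner ℝ (g x) v := by
      refine setIntegral_eq_integral_of_forall_compl_eq_zero fun x hx => ?_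
      rw [hz x (fun h' => hx (hφs h')), zero_mul]
    have e3 : ∫ x in Ω, φ x * inner ℝ (strJ w x) v ∂(μH[1] : Measure ℂ) =
        ∫ x in K ∩ interior C, φ x * inner ℝ (f x) v ∂(μH[1] : Measure ℂ) := by
      rw [setIntegral_eq_of_subset_of_forall_sdiff_eq_zero h.isOpen.measurableSet
        (s := K ∩ interior C) (fun x hx => h.sub hx.1)]
      · refine integral_congr_ae ?_
        filter_upwards [hae] with x hx
        rw [hx]
      · intro x hx
        by_cases hxC : x ∈ interior C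
        · have hxK : x ∉ K := fun h' => hx.2 ⟨h', hxC⟩
          rw [strJ_off h ⟨hx.1, hxK⟩]
          simp
        · rw [hz x (fun h' => hxC (hφC h')), zero_mul]
    rw [e1, e2, e3]
    unfold strT at hF
    linarith
  · rintro x ⟨hxΩ, hx⟩
    by_contra hxK
    exact hx ⟨_, isApproxLim_of_continuousAt (str_cont h ⟨hxΩ, hxK⟩)⟩

end Pool.Agent.MP099f24
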