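import Mathlib
import Pool.Agent.Lib.MP_099f24_an.SD.Trace
import Pool.Agent.Lib.MP_099f24_an.SD.GluegCore
import Pool.Agent.Lib.MP_099f24_an.SD.Rep
import Pool.Agent.Lib.MP_099f24_an.ST.Main

/-!
# MP_099f24_an, EMB: gluing two `SBV` functions along almost every circle
-/

namespace Pool.Agent.MP099f24

open MeasureTheory Filter Topology Set Metric
open scoped ENNReal NNReal ContDiff

theorem emb_int_split {μ : Measure ℂ} {Ω C : Set ℂ} (hΩ : MeasurableSet Ω) (hC : MeasurableSet C)
    (hCΩ : C ⊆ Ω) {F : ℂ → ℝ} (hF : IntegrableOn F Ω μ) :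
    ∫ x in Ω, F x ∂μ = (∫ x in C, F x ∂μ) + ∫ x in Ω \ C, F x ∂μ := by
  rw [← setIntegral_union disjoint_sdiff_right (hΩ.diff hC) (hF.mono_set hCΩ)
    (hF.mono_set sdiff_subset), union_sdiff_cancel hCΩ]

/-- E7: gluing along almost every circle -/
theorem emb_glue {Ω : Set ℂ} {u v : ℂ → ℝ} {g j g' j' : ℂ → ℂ} (h : SBVData Ω u g j)
    (h' : SBVData Ω v g' j') {a : ℂ} {R : ℝ} (hR : ball a R ⊆ Ω) :
    ∀ᵐ s ∂(volume.restrict (Ioo 0 R)), ∀ Z : Set ℂ, Z.Finite →
      (∀ x ∈ sphere a s, x ∉ Z → v x = u x ∧ (∃ z, IsApproxLim v x z) ∧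
        ∃ z, IsApproxLim (glued a s v u) x z) →
      LocallyIntegrableOn (glued a s v u) Ω ∧ IsSBVGrad Ω (glued a s v u) (glued a s g' g) := by
  filter_upwards [trace_outside h hR, trace_outside h' hR, ae_restrict_mem measurableSet_Ioo]
    with s hou hov hsR Z hZ hsph
  have hs : 0 < s := hsR.1
  have hcB : closedBall a s ⊆ Ω := (closedBall_subset_ball hsR.2).trans hR
  have hcBm : MeasurableSet (closedBall a s) := isClosed_closedBall.measurableSet
  have hcBc : IsCompact (closedBall a s) := isCompact_closedBall a s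
  have hΩm : MeasurableSet Ω := h.isOpen.measurableSet
  have hui : LocallyIntegrableOn (glued a s v u) Ω :=
    glue_locInt h.isOpen (h'.intu.integrableOn_compact_subset hcB hcBc) h.intu
  have hgi : LocallyIntegrableOn (glued a s g' g) Ω :=
    glue_locInt h.isOpen (h'.intg.integrableOn_compact_subset hcB hcBc) h.intg
  have hZ0 : (μH[1] : Measure ℂ) Z = 0 := glueg_hausdorff_finite hZ
  -- the jump vectors
  have hJ : ∀ x ∈ Ω, x ∉ Z → strJ (glued a s v u) x = glued a s j' j x := by
    intro x hx hxZ
    by_cases hxs : dist x a ≤ s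
    · rw [glue_in hxs]
      rcases hxs.lt_or_eq with hlt | heq
      · have hU : ball a s ∈ 𝓝 x := isOpen_ball.mem_nhds hlt
        refine (rep_jf_eq h.isOpen h'.intu h'.jf (strJ_field Ω (glued a s v u)) hx hU ?_).symm
        filter_upwards [ae_restrict_mem measurableSet_ball] with y hy
        exact glue_in (le_of_lt hy)
      · obtain ⟨-, ⟨z, hz⟩, ⟨z', hz'⟩⟩ := hsph x heq hxZ
        obtain ⟨U, hU, hiv, hig⟩ := glue_nhds h.isOpen hx h'.intu hui
        have e1 : strJ (glued a s v u) x = 0 := by
          refine strJ_none ?_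
          rintro ⟨b, c, ν, hj⟩
          exact not_isApproxLim_of_isJump hU hig hj _ hz'
        have e2 : j' x = 0 := by
          rcases h'.jf x hx with ⟨b, c, ν, hj, -⟩ | ⟨-, h0⟩
          · exact absurd hz (not_isApproxLim_of_isJump hU hiv hj _)
          · exact h0
        rw [e1, e2]
    · rw [glue_out hxs]
      have hU : (closedBall a s)ᶜ ∈ 𝓝 x := isClosed_closedBall.isOpen_compl.mem_nhds hxs
      refine (rep_jf_eq h.isOpen h.intu h.jf (strJ_field Ω (glued a s v u)) hx hU ?_).symm
      filter_upwards [ae_restrict_mem hcBm.compl] with y hy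
      exact glue_out hy
  have hJae : ∀ S : Set ℂ, S ⊆ Ω → MeasurableSet S →
      ∀ᵐ x ∂((μH[1] : Measure ℂ).restrict S), strJ (glued a s v u) x = glued a s j' j x := by
    intro S hS hSm
    have h1 : ∀ᵐ x ∂(μH[1] : Measure ℂ), x ∉ Z := by
      rw [ae_iff]
      simpa using hZ0
    filter_upwards [ae_restrict_of_ae h1, ae_restrict_mem hSm] with x hxZ hxS
    exact hJ x (hS hxS) hxZ
  refine ⟨hui, hgi, strJ (glued a s v u), strJ_field Ω _, ?_, ?_⟩
  · -- local integrability of the jump vector
    intro x hx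
    obtain ⟨r, hr, hrΩ⟩ := Metric.nhds_basis_closedBall.mem_iff.1 (h.isOpen.mem_nhds hx)
    refine ⟨closedBall x r, mem_nhdsWithin_of_mem_nhds (closedBall_mem_nhds x hr), ?_⟩
    have i1 : IntegrableOn j (closedBall x r) (μH[1] : Measure ℂ) :=
      h.intj.integrableOn_compact_subset hrΩ (isCompact_closedBall _ _)
    have i2 : IntegrableOn j' (closedBall x r) (μH[1] : Measure ℂ) :=
      h'.intj.integrableOn_compact_subset hrΩ (isCompact_closedBall _ _)
    have i3 : IntegrableOn (glued a s j' j) (closedBall x r) (μH[1] : Measure ℂ) := by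
      classical
      have h3 : glued a s j' j = (closedBall a s).piecewise j' j := by
        ext y
        by_cases hy : dist y a ≤ s
        · rw [glue_in hy, Set.piecewise_eq_of_mem _ _ _ (mem_closedBall.2 hy)]
        · rw [glue_out hy, Set.piecewise_eq_of_notMem _ _ _ (fun h4 => hy (mem_closedBall.1 h4))]
      rw [h3]
      exact Integrable.piecewise hcBm i2.integrableOn i1.integrableOn
    refine i3.congr ?_
    filter_upwards [hJae _ hrΩ isClosed_closedBall.measurableSet] with y hy
    exact hy.symm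
  · -- the formula
    intro φ hφ hφc hφs e
    have hfull := h'.form φ hφ hφc hφs e
    have houtv := hov φ hφ hφc hφs e
    have houtu := hou φ hφ hφc hφs e
    -- first integral
    have iv : IntegrableOn (fun x => v x * fderiv ℝ φ x e) Ω := glue_int_fderiv h'.intu hφ hφc hφs e
    have iw : IntegrableOn (fun x => glued a s v u x * fderiv ℝ φ x e) Ω :=
      glue_int_fderiv hui hφ hφc hφs e
    have s1 := emb_int_split hΩm hcBm hcB iv
    have s2 := emb_int_split hΩm hcBm hcB iw
    have c1 : ∫ x in closedBall a s, glued a s v u x * fderiv ℝ φ x e =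
        ∫ x in closedBall a s, v x * fderiv ℝ φ x e :=
      setIntegral_congr_fun hcBm fun x hx => by simp only [glue_in (mem_closedBall.1 hx)]
    have c2 : ∫ x in Ω \ closedBall a s, glued a s v u x * fderiv ℝ φ x e =
        ∫ x in Ω \ closedBall a s, u x * fderiv ℝ φ x e :=
      setIntegral_congr_fun (hΩm.diff hcBm) fun x hx => by
        simp only [glue_out (fun h4 => hx.2 (mem_closedBall.2 h4))]
    -- second integral
    have jv : IntegrableOn (fun x => φ x * inner ℝ (g' x) e) Ω :=
      glue_int_inner h.isOpen h'.intg hφ.continuous hφc hφs e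
    have jw : IntegrableOn (fun x => φ x * inner ℝ (glued a s g' g x) e) Ω :=
      glue_int_inner h.isOpen hgi hφ.continuous hφc hφs e
    have s3 := emb_int_split hΩm hcBm hcB jv
    have s4 := emb_int_split hΩm hcBm hcB jw
    have c3 : ∫ x in closedBall a s, φ x * inner ℝ (glued a s g' g x) e =
        ∫ x in closedBall a s, φ x * inner ℝ (g' x) e :=
      setIntegral_congr_fun hcBm fun x hx => by simp only [glue_in (mem_closedBall.1 hx)]
    have c4 : ∫ x in Ω \ closedBall a s, φ x * inner ℝ (glued a s g' g x) e =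
        ∫ x in Ω \ closedBall a s, φ x * inner ℝ (g x) e :=
      setIntegral_congr_fun (hΩm.diff hcBm) fun x hx => by
        simp only [glue_out (fun h4 => hx.2 (mem_closedBall.2 h4))]
    -- third integral
    have kv : IntegrableOn (fun x => φ x * inner ℝ (j' x) e) Ω (μH[1] : Measure ℂ) :=
      glue_int_inner h.isOpen h'.intj hφ.continuous hφc hφs e
    have ku : IntegrableOn (fun x => φ x * inner ℝ (j x) e) Ω (μH[1] : Measure ℂ) :=
      glue_int_inner h.isOpen h.intj hφ.continuous hφc hφs e
    have s5 := emb_int_split hΩm hcBm hcB kv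
    have c5 : ∫ x in Ω, φ x * inner ℝ (strJ (glued a s v u) x) e ∂(μH[1] : Measure ℂ) =
        (∫ x in closedBall a s, φ x * inner ℝ (j' x) e ∂(μH[1] : Measure ℂ)) +
        ∫ x in Ω \ closedBall a s, φ x * inner ℝ (j x) e ∂(μH[1] : Measure ℂ) := by
      have h5 : ∫ x in Ω, φ x * inner ℝ (strJ (glued a s v u) x) e ∂(μH[1] : Measure ℂ) =
          ∫ x in Ω, φ x * inner ℝ (glued a s j' j x) e ∂(μH[1] : Measure ℂ) := by
        refine integral_congr_ae ?_
        filter_upwards [hJae Ω subset_rfl hΩm] with x hx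
        rw [hx]
      have i6 : IntegrableOn (fun x => φ x * inner ℝ (glued a s j' j x) e) Ω
          (μH[1] : Measure ℂ) := by
        classical
        have h6 : (fun x => φ x * inner ℝ (glued a s j' j x) e) = (closedBall a s).piecewise
            (fun x => φ x * inner ℝ (j' x) e) (fun x => φ x * inner ℝ (j x) e) := by
          ext y
          by_cases hy : dist y a ≤ s
          · rw [Set.piecewise_eq_of_mem _ _ _ (mem_closedBall.2 hy), glue_in hy]
          · rw [Set.piecewise_eq_of_notMem _ _ _ (fun h4 => hy (mem_closedBall.1 h4)), glue_out hy]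
        rw [h6]
        exact Integrable.piecewise hcBm kv.integrableOn ku.integrableOn
      rw [h5, emb_int_split hΩm hcBm hcB i6]
      congr 1
      · exact setIntegral_congr_fun hcBm fun x hx => by simp only [glue_in (mem_closedBall.1 hx)]
      · exact setIntegral_congr_fun (hΩm.diff hcBm) fun x hx => by
          simp only [glue_out (fun h4 => hx.2 (mem_closedBall.2 h4))]
    -- the circle
    have c6 : ∫ θ in Ioo (-Real.pi) Real.pi, v (pc a s θ) * φ (pc a s θ) * inner ℝ (er θ) e =
        ∫ θ in Ioo (-Real.pi) Real.pi, u (pc a s θ) * φ (pc a s θ) * inner ℝ (er θ) e := by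
      refine setIntegral_congr_ae measurableSet_Ioo ?_
      have hfin : ({θ | θ ∈ Ico (-Real.pi) Real.pi ∧ pc a s θ ∈ Z} : Set ℝ).Finite := by
        refine Set.Finite.of_finite_image (f := fun t : ℝ => pc a s t) (hZ.subset ?_) ?_
        · rintro _ ⟨θ, hθ, rfl⟩
          exact hθ.2
        · exact (glue_injOn_pc a hs).mono fun θ hθ => hθ.1
      have hnull : ∀ᵐ θ : ℝ, θ ∉ {θ | θ ∈ Ico (-Real.pi) Real.pi ∧ pc a s θ ∈ Z} := by
        exact measure_eq_zero_iff_ae_notMem.1 (hfin.measure_zero volume)
      filter_upwards [hnull] with θ hθ hθ'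
      have hnZ : pc a s θ ∉ Z := fun h7 => hθ ⟨Ioo_subset_Ico_self hθ', h7⟩
      rw [(hsph _ (glue_dist_pc a hs θ) hnZ).1]
    rw [s2, c1, c2, s4, c3, c4, c5, houtu]
    rw [s1, s3, s5, houtv, c6] at hfull
    linarith

end Pool.Agent.MP099f24
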