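import Mathlib
import Pool.Agent.Lib.MP_099f24_an.TM.Bas
import Pool.Agent.Lib.MP_099f24_an.ST.Main
import Pool.Agent.Lib.MP_099f24_an.FV.Slice

/-!
# MP_099f24_an, EMB: bounded admissible pairs are of class `SBV_loc`
-/

namespace Pool.Agent.MP099f24

open MeasureTheory Filter Topology Set Metric
open scoped ENNReal NNReal ContDiff

/-- STRUCT: a bounded function which is locally Lipschitz off a relatively closed set `K` of
locally finite length, with locally integrable gradient, is of class `SBV_loc` and its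
discontinuity set is contained in `K`. -/
theorem str_isSBV {Ω K : Set ℂ} {M : ℝ} {w : ℂ → ℝ} {g : ℂ → ℂ} (h : StrData Ω K M w g) :
    IsSBVGrad Ω w g ∧ discSet Ω w ⊆ K := by
  refine str_isSBV' h ?_
  intro B hB hBc hBΩ f hf hfi hform v hv
  filter_upwards [fv_slice h hB hBc hBΩ hf hfi hform hv] with x hx hne
  exact (hx hne).2

theorem emb_measurable_indicator {E : Type*} [NormedAddCommGroup E] [MeasurableSpace E]
    [BorelSpace E] {U : Set ℂ} (hU : IsOpen U) {f : ℂ → E} (hf : ContinuousOn f U) :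
    Measurable (U.indicator f) := by
  classical
  have h1 : U.indicator f = U.piecewise f (fun _ => 0) := by
    ext x
    rw [Set.indicator, Set.piecewise]
  rw [h1]
  exact hf.measurable_piecewise continuousOn_const hU.measurableSet

theorem emb_l2_l1 {g : ℂ → ℂ} {C : Set ℂ} (hm : Measurable g) (hC : (volume : Measure ℂ) C < ⊤)
    (h : IntegrableOn (fun x => ‖g x‖ ^ 2) C) : IntegrableOn g C := by
  have h1 : IntegrableOn (fun x => ‖g x‖ ^ 2 + 1) C := h.add (integrableOn_const hC.ne)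
  refine Integrable.mono' h1 hm.aestronglyMeasurable (Eventually.of_forall fun x => ?_)
  nlinarith [sq_nonneg (‖g x‖ - 1), norm_nonneg (g x)]

theorem emb_int_sq {Ω K : Set ℂ} {w : ℂ → ℝ} {l : ℂ → Set ℂ} (h : TConf Ω w l K) {C : Set ℂ}
    (hC : IsCompact C) (hCΩ : C ⊆ Ω) :
    IntegrableOn (fun x => ‖(Ω \ K).indicator (cgr w) x‖ ^ 2) C := by
  have h1 := h.integrable_sq hC hCΩ
  have h2 : (fun x => ‖(Ω \ K).indicator (cgr w) x‖ ^ 2) =
      (Ω \ K).indicator (fun x => ‖cgr w x‖ ^ 2) := by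
    ext x
    by_cases hx : x ∈ Ω \ K
    · rw [indicator_of_mem hx, indicator_of_mem hx]
    · rw [indicator_of_notMem hx, indicator_of_notMem hx]
      simp
  rw [h2, IntegrableOn, integrable_indicator_iff h.isOpen_off.measurableSet, IntegrableOn,
    Measure.restrict_restrict h.isOpen_off.measurableSet]
  refine h1.mono_set ?_
  rintro x ⟨hx1, hx2⟩
  exact ⟨hx2, hx1.2⟩

theorem emb_strData {Ω K : Set ℂ} {w : ℂ → ℝ} {l : ℂ → Set ℂ} (h : TConf Ω w l K) {M : ℝ}
    (hM : ∀ x ∈ Ω \ K, |w x| ≤ M) :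
    StrData Ω K (max M 0) ((Ω \ K).indicator w) ((Ω \ K).indicator (cgr w)) := by
  have hKm := h.measurableSet
  have hgm : Measurable ((Ω \ K).indicator (cgr w)) :=
    emb_measurable_indicator h.isOpen_off h.continuousOn_cgr
  have heq : ∀ x ∈ Ω \ K, (Ω \ K).indicator w =ᶠ[𝓝 x] w := by
    intro x hx
    filter_upwards [h.isOpen_off.mem_nhds hx] with y hy
    exact indicator_of_mem hy w
  refine ⟨h.isOpen, h.sub, h.isOpen_off, fun C hC hCΩ => h.haus_lt hC hCΩ,
    emb_measurable_indicator h.isOpen_off h.smooth.continuousOn, ?_, hgm, ?_, ?_, ?_⟩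
  · intro x
    by_cases hx : x ∈ Ω \ K
    · rw [indicator_of_mem hx]
      exact (hM x hx).trans (le_max_left _ _)
    · rw [indicator_of_notMem hx, abs_zero]
      exact le_max_right _ _
  · intro x hx
    obtain ⟨L, t, ht, hL⟩ := (h.smooth.contDiffAt
      (h.isOpen_off.mem_nhds hx)).exists_lipschitzOnWith
    refine ⟨L, t ∩ (Ω \ K), inter_mem ht (h.isOpen_off.mem_nhds hx), ?_⟩
    intro y hy z hz
    rw [indicator_of_mem hy.2, indicator_of_mem hz.2]
    exact hL hy.1 hz.1
  · refine Eventually.of_forall fun x hx => ?_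
    have h1 := (h.diffAt hx.1 hx.2).hasFDerivAt
    have h2 : fderiv ℝ w x = innerSL ℝ ((Ω \ K).indicator (cgr w) x) := by
      ext v
      rw [indicator_of_mem hx, innerSL_apply_apply, cgr_inner]
    rw [← h2]
    exact h1.congr_of_eventuallyEq (heq x hx)
  · intro x hx
    obtain ⟨r, hr, hrΩ⟩ := Metric.nhds_basis_closedBall.mem_iff.1 (h.isOpen.mem_nhds hx)
    refine ⟨closedBall x r, mem_nhdsWithin_of_mem_nhds (closedBall_mem_nhds x hr), ?_⟩
    exact emb_l2_l1 hgm (isCompact_closedBall x r).measure_lt_top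
      (emb_int_sq h (isCompact_closedBall x r) hrΩ)

/-- E6: a bounded admissible pair is of class `SBV_loc`. -/
theorem emb_struct {Ω K : Set ℂ} {w : ℂ → ℝ} {l : ℂ → Set ℂ} (h : TConf Ω w l K) {M : ℝ}
    (hM : ∀ x ∈ Ω \ K, |w x| ≤ M) :
    (∃ j, SBVData Ω ((Ω \ K).indicator w) ((Ω \ K).indicator (cgr w)) j) ∧
      discSet Ω ((Ω \ K).indicator w) ⊆ K := by
  have hd := emb_strData h hM
  obtain ⟨⟨h1, j, h2, h3, h4⟩, h5⟩ := str_isSBV hd
  refine ⟨⟨j, ?_⟩, h5⟩
  exact {
    isOpen := h.isOpen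
    meas_u := hd.wm
    meas_g := hd.gm
    intu := by
      intro x _
      refine ⟨ball x 1, mem_nhdsWithin_of_mem_nhds (ball_mem_nhds x one_pos), ?_⟩
      exact str_loc hd measure_ball_lt_top
    intg := h1
    jf := h2
    intj := h3
    form := h4
    fin_g := fun C hC hCΩ => emb_int_sq h hC hCΩ
    fin_S := fun C hC hCΩ =>
      (measure_mono (inter_subset_inter_left _ h5)).trans_lt (h.haus_lt hC hCΩ) }

end Pool.Agent.MP099f24
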