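import Pool.Agent.Lib.MP_099f24_an.TM.Bas
import Pool.Agent.Lib.MP_099f24_an.SD.Polar

/-!
# MP_099f24_an EMB, module E4: the function of a triple is bounded on almost every circle, off `K`
-/

set_option autoImplicit false

namespace Pool.Agent.MP099f24

open MeasureTheory Filter Topology Set Metric
open scoped ENNReal NNReal ContDiff

/-- boundedness on an interval without exceptional points -/
theorem embcirc_side {f f' : ℝ → ℝ} {p q : ℝ} {I : Set ℝ} (hI : I.OrdConnected)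
    (hIs : I ⊆ Icc p q) (hd : ∀ x ∈ I, HasDerivAt f (f' x) x) (hi : IntegrableOn f' (Icc p q)) :
    ∃ T, ∀ x ∈ I, |f x| ≤ T := by
  rcases I.eq_empty_or_nonempty with rfl | ⟨x₀, hx₀⟩
  · exact ⟨0, fun x hx => absurd hx (notMem_empty x)⟩
  refine ⟨|f x₀| + ∫ t in Icc p q, |f' t|, fun x hx => ?_⟩
  have hsub : uIcc x₀ x ⊆ I := hI.uIcc_subset hx₀ hx
  have h1 : ∫ t in x₀..x, f' t = f x - f x₀ :=
    intervalIntegral.integral_eq_sub_of_hasDerivAt (fun t ht => hd t (hsub ht))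
      (hi.mono_set (hsub.trans hIs)).intervalIntegrable
  have h2 : |∫ t in x₀..x, f' t| ≤ ∫ t in Icc p q, |f' t| := by
    have h3 := intervalIntegral.norm_integral_le_integral_norm_uIoc (f := f') (a := x₀) (b := x)
      (μ := volume)
    simp only [Real.norm_eq_abs] at h3
    refine h3.trans ?_
    refine setIntegral_mono_set (hi.abs) (Eventually.of_forall fun x => abs_nonneg _)
      (LE.le.eventuallyLE (uIoc_subset_uIcc.trans (hsub.trans hIs)))
  rw [h1] at h2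
  have h3 : |f x| ≤ |f x₀| + |f x - f x₀| := by
    have := abs_add_le (f x₀) (f x - f x₀)
    simpa using this
  linarith

/-- boundedness off a finite set of exceptional points -/
theorem embcirc_one {f f' : ℝ → ℝ} {p q : ℝ} {Z : Set ℝ} (hZ : Z.Finite)
    (hd : ∀ x ∈ Icc p q, x ∉ Z → HasDerivAt f (f' x) x) (hi : IntegrableOn f' (Icc p q)) :
    ∃ T, ∀ x ∈ Icc p q, x ∉ Z → |f x| ≤ T := by
  refine (isCompact_Icc (a := p) (b := q)).induction_on
    (p := fun S => ∃ T, ∀ x ∈ S, x ∉ Z → |f x| ≤ T) ?_ ?_ ?_ ?_ |>.imp fun T hT => hT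
  · exact ⟨0, fun x hx => absurd hx (notMem_empty x)⟩
  · rintro S S' hSS' ⟨T, hT⟩
    exact ⟨T, fun x hx => hT x (hSS' hx)⟩
  · rintro S S' ⟨T, hT⟩ ⟨T', hT'⟩
    refine ⟨max T T', fun x hx hxZ => ?_⟩
    rcases hx with hx | hx
    · exact (hT x hx hxZ).trans (le_max_left _ _)
    · exact (hT' x hx hxZ).trans (le_max_right _ _)
  · intro t ht
    have h1 : IsOpen (Z \ {t})ᶜ := (hZ.subset sdiff_subset).isClosed.isOpen_compl
    obtain ⟨δ, hδ, hδs⟩ := Metric.isOpen_iff.1 h1 t (fun h => h.2 rfl)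
    have hball : ∀ x, |x - t| < δ → x ≠ t → x ∉ Z := by
      intro x hx hxt hxZ
      exact hδs (show x ∈ ball t δ by rwa [mem_ball, Real.dist_eq]) ⟨hxZ, hxt⟩
    obtain ⟨T1, hT1⟩ := embcirc_side (f := f) (f' := f') (p := p) (q := q)
      (I := Ioo t (t + δ) ∩ Icc p q) (ordConnected_Ioo.inter ordConnected_Icc) inter_subset_right
      (fun x hx => hd x hx.2 (hball x (by rw [abs_lt]; constructor <;> linarith [hx.1.1, hx.1.2])
        hx.1.1.ne')) hi
    obtain ⟨T2, hT2⟩ := embcirc_side (f := f) (f' := f') (p := p) (q := q)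
      (I := Ioo (t - δ) t ∩ Icc p q) (ordConnected_Ioo.inter ordConnected_Icc) inter_subset_right
      (fun x hx => hd x hx.2 (hball x (by rw [abs_lt]; constructor <;> linarith [hx.1.1, hx.1.2])
        hx.1.2.ne)) hi
    refine ⟨Ioo (t - δ) (t + δ) ∩ Icc p q, ?_, max |f t| (max T1 T2), ?_⟩
    · exact inter_mem (mem_nhdsWithin_of_mem_nhds (Ioo_mem_nhds (by linarith) (by linarith)))
        self_mem_nhdsWithin
    · intro x hx hxZ
      rcases lt_trichotomy x t with h | h | h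
      · exact (hT2 x ⟨⟨hx.1.1, h⟩, hx.2⟩).trans ((le_max_right _ _).trans (le_max_right _ _))
      · rw [h]; exact le_max_left _ _
      · exact (hT1 x ⟨⟨h, hx.1.2⟩, hx.2⟩).trans ((le_max_left _ _).trans (le_max_right _ _))

theorem embcirc_er (θ : ℝ) : HasDerivAt er (et θ) θ := by
  have h1 : HasDerivAt (fun t : ℝ => (t : ℂ) * Complex.I) Complex.I θ := by
    simpa using (Complex.ofRealCLM.hasDerivAt (x := θ)).mul_const Complex.I
  have h2 := h1.cexp
  rw [mul_comm] at h2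
  exact h2

theorem embcirc_deriv {w : ℂ → ℝ} (a : ℂ) (r θ : ℝ) (h : DifferentiableAt ℝ w (pc a r θ)) :
    HasDerivAt (fun θ => w (pc a r θ)) (r * inner ℝ (cgr w (pc a r θ)) (et θ)) θ := by
  have h1 : HasDerivAt (fun θ : ℝ => pc a r θ) (r • et θ) θ := by
    unfold pc
    have := ((embcirc_er θ).const_mul (r : ℂ)).const_add a
    simpa [Complex.real_smul] using this
  have h2 := h.hasFDerivAt.comp_hasDerivAt θ h1
  rw [map_smul, smul_eq_mul, ← cgr_inner] at h2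
  exact h2

/-- the gradient is square integrable on almost every circle -/
theorem embcirc_ae {Ω K : Set ℂ} {u₀ : ℂ → ℝ} {l : ℂ → Set ℂ} (h : TConf Ω u₀ l K) {a : ℂ} {R : ℝ}
    (hR : ball a R ⊆ Ω) :
    ∀ᵐ s ∂(volume.restrict (Ioo 0 R)),
      IntegrableOn (fun θ => Kᶜ.indicator (fun x => ‖cgr u₀ x‖ ^ 2) (pc a s θ))
        (Ioo (-Real.pi) Real.pi) := by
  have hcov : Ioo 0 R = ⋃ n : ℕ, Ioo 0 (R - 1 / ((n : ℝ) + 1)) := by
    ext x
    simp only [mem_iUnion, mem_Ioo]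
    constructor
    · rintro ⟨h1, h2⟩
      obtain ⟨n, hn⟩ := exists_nat_one_div_lt (show 0 < R - x by linarith)
      exact ⟨n, h1, by linarith⟩
    · rintro ⟨n, h1, h2⟩
      have h3 : (0 : ℝ) < 1 / ((n : ℝ) + 1) := by positivity
      exact ⟨h1, by linarith⟩
  rw [hcov, ae_restrict_iUnion_iff]
  intro n
  set R' := R - 1 / ((n : ℝ) + 1) with hR'
  have h3 : (0 : ℝ) < 1 / ((n : ℝ) + 1) := by positivity
  have hR'R : R' < R := by rw [hR']; linarith
  have h4 : IntegrableOn (fun x => ‖cgr u₀ x‖ ^ 2) (closedBall a R' \ K) :=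
    h.integrable_sq (isCompact_closedBall a R') ((closedBall_subset_ball hR'R).trans hR)
  have h5 : IntegrableOn (Kᶜ.indicator (fun x => ‖cgr u₀ x‖ ^ 2)) {x | dist x a ∈ Ioo 0 R'} := by
    rw [IntegrableOn, integrable_indicator_iff h.measurableSet.compl, IntegrableOn,
      Measure.restrict_restrict h.measurableSet.compl]
    refine h4.mono_set ?_
    rintro x ⟨hx1, hx2⟩
    exact ⟨mem_closedBall.2 hx2.2.le, hx1⟩
  exact (polar_iter a measurableSet_Ioo (fun r hr => hr.1) h5).2.2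

/-- the exceptional angles -/
theorem embcirc_fin {K : Set ℂ} {a : ℂ} {s : ℝ} (hs : 0 < s) (hK : (K ∩ sphere a s).Finite) :
    {θ | θ ∈ Icc (-Real.pi) Real.pi ∧ pc a s θ ∈ K}.Finite := by
  have h1 : {θ | θ ∈ Ioo (-Real.pi) Real.pi ∧ pc a s θ ∈ K}.Finite := by
    refine Finite.of_finite_image (f := fun t : ℝ => pc a s t) ?_ ?_
    · refine hK.subset ?_
      rintro _ ⟨θ, hθ, rfl⟩
      exact ⟨hθ.2, mem_sphere.2 (polar_dist a hs θ)⟩
    · intro θ hθ θ' hθ' heq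
      have h2 : pc a s θ = pc a s θ' := heq
      rw [← polar_arg_pc a hs hθ.1, ← polar_arg_pc a hs hθ'.1, h2]
  refine ((h1.insert Real.pi).insert (-Real.pi)).subset ?_
  rintro θ ⟨h2, h3⟩
  rcases eq_or_lt_of_le h2.1 with h4 | h4
  · exact Or.inl h4.symm
  rcases eq_or_lt_of_le h2.2 with h5 | h5
  · exact Or.inr (Or.inl h5)
  · exact Or.inr (Or.inr ⟨⟨h4, h5⟩, h3⟩)

theorem emb_circle {Ω K : Set ℂ} {u₀ : ℂ → ℝ} {l : ℂ → Set ℂ} (h : TConf Ω u₀ l K) {a : ℂ} {R : ℝ}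
    (hR : ball a R ⊆ Ω) :
    ∀ᵐ s ∂(volume.restrict (Ioo 0 R)), (K ∩ sphere a s).Finite ∧
      ∃ T : ℝ, ∀ x ∈ sphere a s, x ∉ K → |u₀ x| ≤ T := by
  have hK : ∀ s < R, (μH[1] : Measure ℂ) (K ∩ ball a s) < ⊤ := fun s hs =>
    (measure_mono (inter_subset_inter_right _ ball_subset_closedBall)).trans_lt
      (h.haus_lt (isCompact_closedBall a s) ((closedBall_subset_ball hs).trans hR))
  filter_upwards [tm_good hK, embcirc_ae h hR, ae_restrict_mem measurableSet_Ioo] with s hs1 hs2 hs3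
  refine ⟨hs1, ?_⟩
  have hs0 : 0 < s := hs3.1
  set Z : Set ℝ := {θ | θ ∈ Icc (-Real.pi) Real.pi ∧ pc a s θ ∈ K} with hZ
  have hZf : Z.Finite := embcirc_fin hs0 hs1
  have hΩ : ∀ θ, pc a s θ ∈ Ω := fun θ => hR (by rw [mem_ball, polar_dist a hs0]; exact hs3.2)
  have hoff : ∀ θ ∈ Icc (-Real.pi) Real.pi, θ ∉ Z → pc a s θ ∉ K := fun θ hθ h1 h2 => h1 ⟨hθ, h2⟩
  have hpc : Continuous (fun θ => pc a s θ) :=
    (polar_pc_cont a).comp (continuous_const.prodMk continuous_id)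
  have hd : ∀ θ ∈ Icc (-Real.pi) Real.pi, θ ∉ Z → HasDerivAt (fun θ => u₀ (pc a s θ))
      (s * inner ℝ (cgr u₀ (pc a s θ)) (et θ)) θ := fun θ hθ hθZ =>
    embcirc_deriv a s θ (h.diffAt (hΩ θ) (hoff θ hθ hθZ))
  have hae : (Icc (-Real.pi) Real.pi \ Z : Set ℝ) =ᵐ[volume] Icc (-Real.pi) Real.pi :=
    sdiff_null_ae_eq_self (hZf.measure_zero _)
  have hi : IntegrableOn (fun θ => s * inner ℝ (cgr u₀ (pc a s θ)) (et θ))
      (Icc (-Real.pi) Real.pi) := by
    refine IntegrableOn.congr_set_ae ?_ hae.symm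
    have hm : MeasurableSet (Icc (-Real.pi) Real.pi \ Z) := measurableSet_Icc.diff
      hZf.measurableSet
    have hc : ContinuousOn (fun θ => s * inner ℝ (cgr u₀ (pc a s θ)) (et θ))
        (Icc (-Real.pi) Real.pi \ Z) := by
      have h1 : ContinuousOn (fun θ => cgr u₀ (pc a s θ)) (Icc (-Real.pi) Real.pi \ Z) :=
        h.continuousOn_cgr.comp hpc.continuousOn fun θ hθ => ⟨hΩ θ, hoff θ hθ.1 hθ.2⟩
      exact continuousOn_const.mul (h1.inner polar_et_cont.continuousOn)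
    have h2 : IntegrableOn (fun θ => Kᶜ.indicator (fun x => ‖cgr u₀ x‖ ^ 2) (pc a s θ))
        (Icc (-Real.pi) Real.pi \ Z) :=
      (hs2.congr_set_ae Ioo_ae_eq_Icc.symm).mono_set sdiff_subset
    have h3 : IntegrableOn (fun _ : ℝ => (1 : ℝ)) (Icc (-Real.pi) Real.pi \ Z) :=
      (integrableOn_const (by simp)).mono_set sdiff_subset
    refine Integrable.mono' ((h3.add h2).const_mul s) (hc.aestronglyMeasurable hm) ?_
    rw [ae_restrict_iff' hm]
    refine Eventually.of_forall fun θ hθ => ?_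
    have h4 : pc a s θ ∈ Kᶜ := hoff θ hθ.1 hθ.2
    simp only [Pi.add_apply]
    rw [indicator_of_mem h4, norm_mul, Real.norm_of_nonneg hs0.le]
    refine mul_le_mul_of_nonneg_left ?_ hs0.le
    have h5 : ‖et θ‖ = 1 := by
      rw [et, norm_mul, Complex.norm_I, Complex.norm_exp_ofReal_mul_I, one_mul]
    have h6 : ‖(inner ℝ (cgr u₀ (pc a s θ)) (et θ) : ℝ)‖ ≤ ‖cgr u₀ (pc a s θ)‖ := by
      have := norm_inner_le_norm (𝕜 := ℝ) (cgr u₀ (pc a s θ)) (et θ)
      rwa [h5, mul_one] at this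
    nlinarith [sq_nonneg (‖cgr u₀ (pc a s θ)‖ - 1), norm_nonneg (cgr u₀ (pc a s θ))]
  obtain ⟨T, hT⟩ := embcirc_one hZf hd hi
  refine ⟨T, fun x hx hxK => ?_⟩
  have h1 : x = pc a s (x - a).arg := by
    have := polar_sub_eq x a
    rw [mem_sphere.1 hx] at this
    rw [pc, ← this, add_sub_cancel]
  have h2 : (x - a).arg ∈ Icc (-Real.pi) Real.pi :=
    ⟨(Complex.neg_pi_lt_arg _).le, Complex.arg_le_pi _⟩
  have h3 : (x - a).arg ∉ Z := fun h3 => hxK (by rw [h1]; exact h3.2)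
  have h4 := hT _ h2 h3
  rwa [← h1] at h4

end Pool.Agent.MP099f24
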