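import Mathlib
import Pool.Agent.Lib.MP_099f24_an.SD.Rep

/-!
# MP_099f24_an, EMB module E2: change of representatives
-/

namespace Pool.Agent.MP099f24

open MeasureTheory Filter Topology Set Metric
open scoped ENNReal NNReal ContDiff

theorem embcongr_jf {Ω : Set ℂ} (hΩ : IsOpen Ω) {u u₀ : ℂ → ℝ} {j : ℂ → ℂ}
    (hu : ∀ᵐ x ∂volume.restrict Ω, u₀ x = u x) (hj : IsJumpField Ω u j) : IsJumpField Ω u₀ j := by
  intro x hx
  have hU : Ω ∈ 𝓝 x := hΩ.mem_nhds hx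
  rcases hj x hx with ⟨a, b, ν, h1, h2⟩ | ⟨h1, h2⟩
  · exact Or.inl ⟨a, b, ν, (cal_isJump_iff hU hu).2 h1, h2⟩
  · refine Or.inr ⟨?_, h2⟩
    rintro ⟨a, b, ν, h3⟩
    exact h1 ⟨a, b, ν, (cal_isJump_iff hU hu).1 h3⟩

theorem embcongr_form {Ω : Set ℂ} {u u₀ : ℂ → ℝ} {g g₀ j : ℂ → ℂ}
    (hu : ∀ᵐ x ∂volume.restrict Ω, u₀ x = u x) (hg : ∀ᵐ x ∂volume.restrict Ω, g₀ x = g x)
    {φ : ℂ → ℝ} {v : ℂ}
    (h : ∫ x in Ω, u x * fderiv ℝ φ x v =
        - (∫ x in Ω, φ x * inner ℝ (g x) v) -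
          ∫ x in Ω, φ x * inner ℝ (j x) v ∂(μH[1] : Measure ℂ)) :
    ∫ x in Ω, u₀ x * fderiv ℝ φ x v =
        - (∫ x in Ω, φ x * inner ℝ (g₀ x) v) -
          ∫ x in Ω, φ x * inner ℝ (j x) v ∂(μH[1] : Measure ℂ) := by
  have e1 : ∫ x in Ω, u₀ x * fderiv ℝ φ x v = ∫ x in Ω, u x * fderiv ℝ φ x v := by
    refine integral_congr_ae ?_
    filter_upwards [hu] with x hx
    rw [hx]
  have e2 : ∫ x in Ω, φ x * inner ℝ (g₀ x) v = ∫ x in Ω, φ x * inner ℝ (g x) v := by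
    refine integral_congr_ae ?_
    filter_upwards [hg] with x hx
    rw [hx]
  rw [e1, e2, h]

/-- E2': change of representatives for `IsSBVGrad` -/
theorem emb_sbv_congr {Ω : Set ℂ} (hΩ : IsOpen Ω) {u u₀ : ℂ → ℝ} {g g₀ : ℂ → ℂ}
    (_hui : LocallyIntegrableOn u Ω) (h : IsSBVGrad Ω u g)
    (hu : ∀ᵐ x ∂volume.restrict Ω, u₀ x = u x) (hg : ∀ᵐ x ∂volume.restrict Ω, g₀ x = g x) :
    IsSBVGrad Ω u₀ g₀ := by
  obtain ⟨hgi, j, hj, hji, hform⟩ := h
  exact ⟨rep_locInt_congr hΩ.measurableSet hgi hg, j, embcongr_jf hΩ hu hj, hji,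
    fun φ h1 h2 h3 v => embcongr_form hu hg (hform φ h1 h2 h3 v)⟩

/-- E2: change of representatives -/
theorem emb_congr {Ω : Set ℂ} {u u₀ : ℂ → ℝ} {g g₀ j : ℂ → ℂ} (h : MSMin Ω u g j)
    (hum : Measurable u₀) (hgm : Measurable g₀) (hu : ∀ᵐ x ∂volume.restrict Ω, u₀ x = u x)
    (hg : ∀ᵐ x ∂volume.restrict Ω, g₀ x = g x) :
    MSMin Ω u₀ g₀ j ∧ discSet Ω u₀ = discSet Ω u := by
  classical
  have hΩm := h.isOpen.measurableSet
  have hd : discSet Ω u₀ = discSet Ω u := rep_discSet_eq h.isOpen hu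
  have hgK : ∀ {K : Set ℂ}, K ⊆ Ω → ∀ᵐ x ∂volume.restrict K, g₀ x = g x := fun hK =>
    ae_restrict_of_ae_restrict_of_subset hK hg
  refine ⟨?_, hd⟩
  refine { isOpen := h.isOpen
           meas_u := hum
           meas_g := hgm
           intu := rep_locInt_congr hΩm h.intu hu
           intg := rep_locInt_congr hΩm h.intg hg
           jf := embcongr_jf h.isOpen hu h.jf
           intj := h.intj
           form := fun φ h1 h2 h3 v => embcongr_form hu hg (h.form φ h1 h2 h3 v)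
           fin_g := ?_
           fin_S := by rw [hd]; exact h.fin_S
           min := ?_ }
  · intro K hK hKΩ
    refine (h.fin_g K hK hKΩ).congr ?_
    filter_upwards [hgK hKΩ] with x hx
    rw [hx]
  · intro w k K hwi hk hK hKΩ hwu
    set w' : ℂ → ℝ := K.piecewise w u with hw'
    have hae : ∀ᵐ x ∂volume.restrict Ω, w' x = w x := by
      filter_upwards [hu, ae_restrict_mem hΩm] with x hx hxΩ
      by_cases hxK : x ∈ K
      · exact Set.piecewise_eq_of_mem _ _ _ hxK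
      · rw [hw', Set.piecewise_eq_of_notMem _ _ _ hxK, hwu x hxΩ hxK, hx]
    have h1 := h.min w' k K (rep_locInt_congr hΩm hwi hae)
      (emb_sbv_congr h.isOpen hwi hk hae (Eventually.of_forall fun x => rfl)) hK hKΩ
      (fun x _ hxK => Set.piecewise_eq_of_notMem _ _ _ hxK)
    rw [rep_discSet_eq h.isOpen hae] at h1
    rw [hd]
    refine le_trans (le_of_eq ?_) h1
    congr 1
    refine lintegral_congr_ae ?_
    filter_upwards [hgK hKΩ] with x hx
    rw [hx]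

end Pool.Agent.MP099f24
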