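import Mathlib
import Pool.Agent.Lib.MP_099f24_an.SD.Rep
import Pool.Agent.Lib.MP_099f24_an.SD.GlueCore
import Pool.Agent.Lib.MP_099f24_an.ST.Main

/-!
# MP_099f24_an, part EMB: `IsSBVGrad` is a local property
-/

namespace Pool.Agent.MP099f24

open MeasureTheory Filter Topology Set Metric
open scoped ENNReal NNReal ContDiff

/-- E3: restriction to an open subset -/
theorem emb_sbv_restrict {Ω V : Set ℂ} (hΩ : IsOpen Ω) (hV : IsOpen V) (hVΩ : V ⊆ Ω) {w : ℂ → ℝ}
    {k : ℂ → ℂ} (h : IsSBVGrad Ω w k) : IsSBVGrad V w k := by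
  obtain ⟨hk, j, hj, hji, hf⟩ := h
  refine ⟨hk.mono_set hVΩ, j, fun x hx => hj x (hVΩ hx), hji.mono_set hVΩ, ?_⟩
  intro φ hφ hφc hφs v
  have h0 : ∀ x, x ∉ V → φ x = 0 := fun x hx =>
    image_eq_zero_of_notMem_tsupport fun h' => hx (hφs h')
  have h1 : ∀ x, x ∉ V → fderiv ℝ φ x = 0 := fun x hx =>
    image_eq_zero_of_notMem_tsupport fun h' => hx (hφs (tsupport_fderiv_subset ℝ h'))
  have e1 : ∫ x in Ω, w x * fderiv ℝ φ x v = ∫ x in V, w x * fderiv ℝ φ x v :=
    setIntegral_eq_of_subset_of_forall_sdiff_eq_zero hΩ.measurableSet hVΩ fun x hx => by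
      rw [h1 x hx.2]; simp
  have e2 : ∫ x in Ω, φ x * inner ℝ (k x) v = ∫ x in V, φ x * inner ℝ (k x) v :=
    setIntegral_eq_of_subset_of_forall_sdiff_eq_zero hΩ.measurableSet hVΩ fun x hx => by
      rw [h0 x hx.2, zero_mul]
  have e3 : ∫ x in Ω, φ x * inner ℝ (j x) v ∂(μH[1] : Measure ℂ) =
      ∫ x in V, φ x * inner ℝ (j x) v ∂(μH[1] : Measure ℂ) :=
    setIntegral_eq_of_subset_of_forall_sdiff_eq_zero hΩ.measurableSet hVΩ fun x hx => by
      rw [h0 x hx.2, zero_mul]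
  rw [← e1, ← e2, ← e3]
  exact hf φ hφ hφc (hφs.trans hVΩ) v

/-- local integrability on a union of two open sets -/
theorem embloc_li {E : Type*} [NormedAddCommGroup E] {μ : Measure ℂ} {U V : Set ℂ} (hU : IsOpen U)
    (hV : IsOpen V) {f : ℂ → E} (h1 : LocallyIntegrableOn f U μ)
    (h2 : LocallyIntegrableOn f V μ) : LocallyIntegrableOn f (U ∪ V) μ := by
  intro x hx
  rcases hx with hx | hx
  · have h3 := h1 x hx
    rw [hU.nhdsWithin_eq hx] at h3
    exact h3.filter_mono nhdsWithin_le_nhds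
  · have h3 := h2 x hx
    rw [hV.nhdsWithin_eq hx] at h3
    exact h3.filter_mono nhdsWithin_le_nhds

/-- local integrability of a function which agrees with a locally integrable one -/
theorem embloc_li_congr {E : Type*} [NormedAddCommGroup E] {μ : Measure ℂ} {U : Set ℂ}
    (hU : IsOpen U) {f g : ℂ → E} (h1 : LocallyIntegrableOn f U μ) (h2 : EqOn f g U) :
    LocallyIntegrableOn g U μ := by
  rw [locallyIntegrableOn_iff hU.isLocallyClosed] at h1 ⊢
  intro K hKU hK
  exact (h1 K hKU hK).congr_fun (h2.mono hKU) hK.measurableSet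

/-- the jump field of a locally integrable function is `strJ` -/
theorem embloc_strJ {U : Set ℂ} (hU : IsOpen U) {w : ℂ → ℝ} {j : ℂ → ℂ}
    (hw : LocallyIntegrableOn w U) (hj : IsJumpField U w j) : EqOn j (strJ w) U := by
  intro x hx
  exact rep_jf_eq hU hw hj (strJ_field U w) hx (hU.mem_nhds hx) (Eventually.of_forall fun _ => rfl)

/-- E3': being `SBV_loc` is a local property -/
theorem emb_sbv_union {U V : Set ℂ} (hU : IsOpen U) (hV : IsOpen V) {w : ℂ → ℝ} {k : ℂ → ℂ}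
    (hw : LocallyIntegrableOn w (U ∪ V)) (h1 : IsSBVGrad U w k) (h2 : IsSBVGrad V w k) :
    IsSBVGrad (U ∪ V) w k := by
  obtain ⟨hk1, j1, hj1, hji1, hf1⟩ := h1
  obtain ⟨hk2, j2, hj2, hji2, hf2⟩ := h2
  have hUV : IsOpen (U ∪ V) := hU.union hV
  have hUs : U ⊆ U ∪ V := subset_union_left
  have hVs : V ⊆ U ∪ V := subset_union_right
  have hjU := embloc_strJ hU (hw.mono_set hUs) hj1
  have hjV := embloc_strJ hV (hw.mono_set hVs) hj2
  have hkk : LocallyIntegrableOn k (U ∪ V) := embloc_li hU hV hk1 hk2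
  have hjj : LocallyIntegrableOn (strJ w) (U ∪ V) (μH[1] : Measure ℂ) :=
    embloc_li hU hV (embloc_li_congr hU hji1 hjU) (embloc_li_congr hV hji2 hjV)
  refine ⟨hkk, strJ w, strJ_field _ w, hjj, ?_⟩
  intro φ hφ hφc hφs v
  -- the formula on a subset
  have key : ∀ {W : Set ℂ} {j : ℂ → ℂ}, IsOpen W → W ⊆ U ∪ V → EqOn j (strJ w) W →
      (∀ φ : ℂ → ℝ, ContDiff ℝ ∞ φ → HasCompactSupport φ → tsupport φ ⊆ W → ∀ v : ℂ,
        ∫ x in W, w x * fderiv ℝ φ x v =
          - (∫ x in W, φ x * inner ℝ (k x) v) -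
            ∫ x in W, φ x * inner ℝ (j x) v ∂(μH[1] : Measure ℂ)) →
      ∀ ψ : ℂ → ℝ, ContDiff ℝ ∞ ψ → HasCompactSupport ψ → tsupport ψ ⊆ W →
        ∫ x in U ∪ V, w x * fderiv ℝ ψ x v =
          - (∫ x in U ∪ V, ψ x * inner ℝ (k x) v) -
            ∫ x in U ∪ V, ψ x * inner ℝ (strJ w x) v ∂(μH[1] : Measure ℂ) := by
    intro W j hW hWs hjW hf ψ hψ hψc hψs
    have h0 : ∀ x, x ∉ W → ψ x = 0 := fun x hx =>
      image_eq_zero_of_notMem_tsupport fun h' => hx (hψs h')
    have h1 : ∀ x, x ∉ W → fderiv ℝ ψ x = 0 := fun x hx =>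
      image_eq_zero_of_notMem_tsupport fun h' => hx (hψs (tsupport_fderiv_subset ℝ h'))
    have e1 : ∫ x in U ∪ V, w x * fderiv ℝ ψ x v = ∫ x in W, w x * fderiv ℝ ψ x v :=
      setIntegral_eq_of_subset_of_forall_sdiff_eq_zero hUV.measurableSet hWs fun x hx => by
        rw [h1 x hx.2]; simp
    have e2 : ∫ x in U ∪ V, ψ x * inner ℝ (k x) v = ∫ x in W, ψ x * inner ℝ (k x) v :=
      setIntegral_eq_of_subset_of_forall_sdiff_eq_zero hUV.measurableSet hWs fun x hx => by
        rw [h0 x hx.2, zero_mul]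
    have e3 : ∫ x in U ∪ V, ψ x * inner ℝ (strJ w x) v ∂(μH[1] : Measure ℂ) =
        ∫ x in W, ψ x * inner ℝ (strJ w x) v ∂(μH[1] : Measure ℂ) :=
      setIntegral_eq_of_subset_of_forall_sdiff_eq_zero hUV.measurableSet hWs fun x hx => by
        rw [h0 x hx.2, zero_mul]
    have e4 : ∫ x in W, ψ x * inner ℝ (strJ w x) v ∂(μH[1] : Measure ℂ) =
        ∫ x in W, ψ x * inner ℝ (j x) v ∂(μH[1] : Measure ℂ) :=
      setIntegral_congr_fun hW.measurableSet fun x hx => by
        simp only [hjW hx]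
    rw [e1, e2, e3, e4]
    exact hf ψ hψ hψc hψs v
  -- the partition of unity
  have hKc : IsCompact (tsupport φ \ V) := hφc.isCompact.diff hV
  have hKU : tsupport φ \ V ⊆ U := fun x hx => (hφs hx.1).resolve_right hx.2
  obtain ⟨χ, hχ, hχc, hχU, -, hχ1⟩ := cal_cutoff hKc hU hKU
  have hs1 : ContDiff ℝ ∞ fun x => φ x * χ x := hφ.mul hχ
  have hs2 : ContDiff ℝ ∞ fun x => φ x * (1 - χ x) := hφ.mul (contDiff_const.sub hχ)
  have hc1 : HasCompactSupport fun x => φ x * χ x := hφc.mul_right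
  have hc2 : HasCompactSupport fun x => φ x * (1 - χ x) := hφc.mul_right
  have ht1 : tsupport (fun x => φ x * χ x) ⊆ U := by
    refine Subset.trans (closure_mono ?_) hχU
    intro x hx
    rw [Function.mem_support] at hx ⊢
    intro h0
    exact hx (by rw [h0, mul_zero])
  have ht2 : tsupport (fun x => φ x * (1 - χ x)) ⊆ V := by
    have h3 : tsupport (fun x => φ x * (1 - χ x)) ⊆ tsupport φ := by
      refine closure_mono ?_
      intro x hx
      rw [Function.mem_support] at hx ⊢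
      intro h0
      exact hx (by rw [h0, zero_mul])
    intro x hx
    by_contra hxV
    have h4 := hχ1 x ⟨h3 hx, hxV⟩
    refine (notMem_tsupport_iff_eventuallyEq.2 ?_) hx
    filter_upwards [h4] with y hy
    simp [hy]
  have E1 := key hU hUs hjU hf1 _ hs1 hc1 ht1
  have E2 := key hV hVs hjV hf2 _ hs2 hc2 ht2
  have d1 : ∀ x, fderiv ℝ φ x v = fderiv ℝ (fun x => φ x * χ x) x v +
      fderiv ℝ (fun x => φ x * (1 - χ x)) x v := by
    intro x
    have h5 : φ = fun x => φ x * χ x + φ x * (1 - χ x) := by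
      funext y
      ring
    have h6 : fderiv ℝ φ x = fderiv ℝ (fun x => φ x * χ x + φ x * (1 - χ x)) x := by
      rw [← h5]
    rw [h6, fderiv_fun_add (hs1.differentiable (by simp) x) (hs2.differentiable (by simp) x)]
    rfl
  have l1 : ∫ x in U ∪ V, w x * fderiv ℝ φ x v =
      (∫ x in U ∪ V, w x * fderiv ℝ (fun x => φ x * χ x) x v) +
        ∫ x in U ∪ V, w x * fderiv ℝ (fun x => φ x * (1 - χ x)) x v := by
    rw [← integral_add (glue_int_fderiv hw hs1 hc1 (ht1.trans hUs) v)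
      (glue_int_fderiv hw hs2 hc2 (ht2.trans hVs) v)]
    refine integral_congr_ae (Eventually.of_forall fun x => ?_)
    simp only
    rw [d1 x]
    ring
  have l2 : ∫ x in U ∪ V, φ x * inner ℝ (k x) v =
      (∫ x in U ∪ V, (φ x * χ x) * inner ℝ (k x) v) +
        ∫ x in U ∪ V, (φ x * (1 - χ x)) * inner ℝ (k x) v := by
    rw [← integral_add
      (glue_int_inner hUV hkk hs1.continuous hc1 (ht1.trans hUs) v)
      (glue_int_inner hUV hkk hs2.continuous hc2 (ht2.trans hVs) v)]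
    refine integral_congr_ae (Eventually.of_forall fun x => ?_)
    simp only
    ring
  have l3 : ∫ x in U ∪ V, φ x * inner ℝ (strJ w x) v ∂(μH[1] : Measure ℂ) =
      (∫ x in U ∪ V, (φ x * χ x) * inner ℝ (strJ w x) v ∂(μH[1] : Measure ℂ)) +
        ∫ x in U ∪ V, (φ x * (1 - χ x)) * inner ℝ (strJ w x) v ∂(μH[1] : Measure ℂ) := by
    rw [← integral_add
      (glue_int_inner hUV hjj hs1.continuous hc1 (ht1.trans hUs) v)
      (glue_int_inner hUV hjj hs2.continuous hc2 (ht2.trans hVs) v)]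
    refine integral_congr_ae (Eventually.of_forall fun x => ?_)
    simp only
    ring
  rw [l1, l2, l3, E1, E2]
  ring

end Pool.Agent.MP099f24
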