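import Mathlib
import Pool.Agent.Lib.MP_099f24_an.Blowup
import Pool.Agent.Lib.MP_099f24_an.MolDeriv
import Pool.Agent.Lib.MP_099f24_an.ChainAux
import Pool.Agent.Lib.MP_099f24_an.Step
import Pool.Agent.Lib.MP_099f24_an.TM.Bas
import Pool.Agent.Lib.MP_099f24_an.EA.Harm
import Pool.Agent.Lib.MP_099f24_an.Z.Energy

/-!
# MP_099f24_an, EMB module E1: a representative of class `C¹` off the closure of the
discontinuity set
-/

namespace Pool.Agent.MP099f24

open MeasureTheory Filter Topology Set Metric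
open scoped ENNReal NNReal ContDiff

/-- The weak derivative of the integrable function `W` vanishes on the convex open set `H`: the
function is constant on `H`. -/
theorem embrep_weak_const {W : ℂ → ℝ} (hWi : Integrable W) {H : Set ℂ} (hH : IsOpen H)
    (hconv : Convex ℝ H)
    (h0 : ∀ φ : ℂ → ℝ, ContDiff ℝ ∞ φ → HasCompactSupport φ → tsupport φ ⊆ H → ∀ v : ℂ,
      ∫ x in H, W x * fderiv ℝ φ x v = 0) :
    ∃ a : ℝ, ∀ᵐ y : ℂ, y ∈ H → W y = a := by
  have hform : ∀ φ : ℂ → ℝ, ContDiff ℝ ∞ φ → HasCompactSupport φ → tsupport φ ⊆ H → ∀ v : ℂ,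
      ∫ x in H, W x * fderiv ℝ φ x v =
        - (∫ x in H, φ x * inner ℝ ((fun _ : ℂ => (0 : ℂ)) x) v) -
          ∫ x in H, φ x * inner ℝ ((fun _ : ℂ => (0 : ℂ)) x) v ∂(μH[1] : Measure ℂ) := by
    intro φ h1 h2 h3 v
    rw [h0 φ h1 h2 h3 v]
    simp
  have hleb : ∀ᵐ y : ℂ, IsApproxLim W y (W y) := ae_isApproxLim hWi
  -- two Lebesgue points
  have key : ∀ y y' : ℂ, y ∈ H → y' ∈ H → IsApproxLim W y (W y) → IsApproxLim W y' (W y') →
      W y = W y' := by
    intro y y' hy hy' hly hly'
    have hseg : segment ℝ y y' ⊆ H := hconv.segment_subset hy hy'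
    have hsegc : IsCompact (segment ℝ y y') := by
      rw [segment_eq_image ℝ y y']
      refine isCompact_Icc.image ?_
      fun_prop
    obtain ⟨δ, hδ, hδH⟩ := hsegc.exists_cthickening_subset_open hH hseg
    set C := cthickening δ (segment ℝ y y') with hC
    have hCc : IsCompact C := hsegc.cthickening
    have hsubC : ∀ x ∈ segment ℝ y y', ∀ ε : ℝ, ε ≤ δ → closedBall x ε ⊆ C := by
      intro x hx ε hε z hz
      exact mem_cthickening_of_dist_le z x δ _ hx ((mem_closedBall.1 hz).trans hε)
    have hnhds : ∀ x ∈ segment ℝ y y', C ∈ 𝓝 x := by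
      intro x hx
      exact mem_of_superset (closedBall_mem_nhds x hδ) (hsubC x hx δ le_rfl)
    have hends : ∀ x ∈ segment ℝ y y', IsApproxLim W x (W x) →
        Tendsto (fun ε : ℝ => mol (C.indicator W) ε x) (𝓝[>] 0) (𝓝 (W x)) := by
      intro x hx hlx
      have h1 : IsApproxLim (C.indicator W) x (W x) := by
        refine IsApproxLim.congr_ae (hnhds x hx) ?_ hlx
        rw [ae_restrict_iff' hCc.measurableSet]
        exact Eventually.of_forall fun z hz => (indicator_of_mem hz W).symm
      have h2 : IntegrableOn (C.indicator W) C :=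
        ((integrable_indicator_iff hCc.measurableSet).2 hWi.integrableOn).integrableOn
      have h3 := mol_tendsto_of_approxLim (hnhds x hx) h2 h1
      rw [Metric.tendsto_nhds]
      intro η hη
      filter_upwards [h3 η hη] with ε hε
      have := hε 0 (by simp)
      rw [smul_zero, add_zero] at this
      rwa [Real.dist_eq]
    have heq : ∀ᶠ ε : ℝ in 𝓝[>] 0, mol (C.indicator W) ε y = mol (C.indicator W) ε y' := by
      have hlt : ∀ᶠ ε : ℝ in 𝓝[>] 0, ε < δ := nhdsWithin_le_nhds (Iio_mem_nhds hδ)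
      filter_upwards [self_mem_nhdsWithin, hlt] with ε hε hεδ
      have hε0 : (0 : ℝ) < ε := hε
      have hdiff : ContDiff ℝ ∞ (mol (C.indicator W) ε) :=
        mol_contDiff ((integrable_indicator_iff hCc.measurableSet).2 hWi.integrableOn) hε0
      have hder : ∀ x ∈ segment ℝ y y', ‖fderiv ℝ (mol (C.indicator W) ε) x‖ ≤ 0 := by
        intro x hx
        rw [norm_le_zero_iff]
        ext v
        have h4 := mol_fderiv (Ω := H) (w := W) (g := fun _ => 0) (j := fun _ => 0) (K := C) hCc
          hδH hWi.integrableOn hform hε0 (hsubC x hx ε hεδ.le) v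
        rw [h4]
        simp
      have h5 := (convex_segment y y').norm_image_sub_le_of_norm_fderiv_le
        (fun x _ => (hdiff.differentiable (by simp)) x) hder (left_mem_segment ℝ y y')
        (right_mem_segment ℝ y y')
      rw [zero_mul, norm_le_zero_iff, sub_eq_zero] at h5
      exact h5.symm
    have h6 := hends y (left_mem_segment ℝ y y') hly
    have h7 := hends y' (right_mem_segment ℝ y y') hly'
    exact tendsto_nhds_unique (h6.congr' heq) h7
  rcases eq_or_ne (volume H) 0 with hH0 | hH0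
  · refine ⟨0, ?_⟩
    have : ∀ᵐ y : ℂ, y ∉ H := by
      rw [ae_iff]
      simpa using hH0
    filter_upwards [this] with y hy hyH
    exact absurd hyH hy
  · have h8 : ∃ y ∈ H, IsApproxLim W y (W y) := by
      by_contra hcon
      push Not at hcon
      apply hH0
      refine measure_mono_null ?_ (ae_iff.1 hleb)
      intro y hy
      exact hcon y hy
    obtain ⟨y₀, hy₀, hl₀⟩ := h8
    refine ⟨W y₀, ?_⟩
    filter_upwards [hleb] with y hly hyH
    exact key y y₀ hyH hy₀ hly hl₀

/-- the derivative `v ↦ Re (p v)` -/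
noncomputable def embrep_L (p : ℂ) : ℂ →L[ℝ] ℝ :=
  Complex.reCLM.comp ((ContinuousLinearMap.toSpanSingleton ℂ p).restrictScalars ℝ)

theorem embrep_L_apply (p v : ℂ) : embrep_L p v = (v * p).re := by
  simp [embrep_L]

theorem embrep_L_inner (p v : ℂ) : embrep_L p v = inner ℝ ((starRingEnd ℂ) p) v := by
  rw [embrep_L_apply, Complex.inner, Complex.conj_conj, mul_comm]

/-- A holomorphic function on a disc is the conjugate gradient of a function of class `C¹`. -/
theorem embrep_prim {P : ℂ → ℂ} {a : ℂ} {R : ℝ} (hP : DifferentiableOn ℂ P (ball a R)) :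
    ∃ F : ℂ → ℝ, ContDiffOn ℝ 1 F (ball a R) ∧
      ∀ z ∈ ball a R, HasFDerivAt F (embrep_L (P z)) z := by
  obtain ⟨Q, hQ⟩ := hP.isExactOn_ball
  have hQd : DifferentiableOn ℂ Q (ball a R) := fun z hz =>
    (hQ z hz).differentiableAt.differentiableWithinAt
  refine ⟨fun z => (Q z).re, ?_, ?_⟩
  · have h1 : ContDiffOn ℂ 1 Q (ball a R) := hQd.contDiffOn isOpen_ball
    have h2 : ContDiffOn ℝ 1 Q (ball a R) := h1.restrict_scalars ℝ
    exact Complex.reCLM.contDiff.comp_contDiffOn h2
  · intro z hz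
    have h1 : HasFDerivAt Q (ContinuousLinearMap.toSpanSingleton ℂ (P z)) z :=
      (hQ z hz).hasFDerivAt
    have h2 := h1.restrictScalars ℝ
    exact Complex.reCLM.hasFDerivAt.comp z h2

/-- Integration by parts against a test function supported in the ball where `F` is of class
`C¹`. -/
theorem embrep_ibp {F : ℂ → ℝ} {U : Set ℂ} (hU : IsOpen U) (hF : ContDiffOn ℝ 1 F U)
    {φ : ℂ → ℝ} (hφ : ContDiff ℝ ∞ φ) (hc : HasCompactSupport φ) (hs : tsupport φ ⊆ U) (v : ℂ) :
    ∫ x, F x * fderiv ℝ φ x v = - ∫ x, φ x * fderiv ℝ F x v := by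
  -- the product is globally of class `C¹`
  have hprod : ContDiff ℝ 1 (fun x => φ x * F x) := by
    rw [contDiff_iff_contDiffAt]
    intro x
    by_cases hx : x ∈ tsupport φ
    · exact (hφ.of_le (by simp)).contDiffAt.mul ((hF x (hs hx)).contDiffAt (hU.mem_nhds (hs hx)))
    · have h1 : (fun x => φ x * F x) =ᶠ[𝓝 x] fun _ => 0 := by
        have h2 : (tsupport φ)ᶜ ∈ 𝓝 x := (isClosed_tsupport φ).isOpen_compl.mem_nhds hx
        filter_upwards [h2] with y hy
        rw [image_eq_zero_of_notMem_tsupport hy, zero_mul]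
      exact contDiffAt_const.congr_of_eventuallyEq h1
  have hpc : HasCompactSupport (fun x => φ x * F x) := hc.mul_right
  have hd : ∀ x, fderiv ℝ (fun x => φ x * F x) x v = F x * fderiv ℝ φ x v + φ x * fderiv ℝ F x v := by
    intro x
    by_cases hx : x ∈ tsupport φ
    · have h1 : DifferentiableAt ℝ F x :=
        ((hF x (hs hx)).contDiffAt (hU.mem_nhds (hs hx))).differentiableAt (by simp)
      have h2 : DifferentiableAt ℝ φ x := (hφ.differentiable (by simp)) x
      rw [fderiv_fun_mul h2 h1]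
      simp only [add_apply, smul_apply, smul_eq_mul]
      ring
    · have h2 : (tsupport φ)ᶜ ∈ 𝓝 x := (isClosed_tsupport φ).isOpen_compl.mem_nhds hx
      have h1 : (fun x => φ x * F x) =ᶠ[𝓝 x] fun _ => 0 := by
        filter_upwards [h2] with y hy
        rw [image_eq_zero_of_notMem_tsupport hy, zero_mul]
      have h3 : φ =ᶠ[𝓝 x] fun _ => 0 := by
        filter_upwards [h2] with y hy
        rw [image_eq_zero_of_notMem_tsupport hy]
      rw [h1.fderiv_eq, h3.fderiv_eq, image_eq_zero_of_notMem_tsupport hx]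
      simp
  -- integrability
  have i0 : Integrable (fun x => φ x * F x) := hprod.continuous.integrable_of_hasCompactSupport hpc
  have hcd : Continuous (fun x => fderiv ℝ (fun x => φ x * F x) x v) :=
    (hprod.continuous_fderiv (by simp)).clm_apply continuous_const
  have i1 : Integrable (fun x => fderiv ℝ (fun x => φ x * F x) x v) :=
    hcd.integrable_of_hasCompactSupport (hpc.fderiv_apply ℝ v)
  have hz := integral_mul_fderiv_eq_neg_fderiv_mul_of_integrable (μ := volume) (𝕜 := ℝ)
    (f := fun x : ℂ => φ x * F x) (g := fun _ : ℂ => (1 : ℝ)) (v := v)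
    (by simpa using i1) (by simp) (by simpa using i0)
    (fun x _ => (hprod.differentiable (by simp)) x) (fun x _ => differentiableAt_const _)
  simp only [fderiv_const_apply, zero_apply, mul_zero, mul_one,
    integral_zero] at hz
  have hz' : ∫ x, fderiv ℝ (fun x => φ x * F x) x v = 0 := by linarith
  -- the first integrand is continuous
  have c1 : Continuous (fun x => F x * fderiv ℝ φ x v) := by
    rw [continuous_iff_continuousAt]
    intro x
    by_cases hx : x ∈ tsupport φ
    · exact ((hF.continuousOn x (hs hx)).continuousAt (hU.mem_nhds (hs hx))).mul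
        (((hφ.continuous_fderiv (by simp)).clm_apply continuous_const).continuousAt)
    · have h2 : (tsupport φ)ᶜ ∈ 𝓝 x := (isClosed_tsupport φ).isOpen_compl.mem_nhds hx
      have h1 : (fun x => F x * fderiv ℝ φ x v) =ᶠ[𝓝 x] fun _ => 0 := by
        filter_upwards [h2] with y hy
        have h5 : y ∉ tsupport (fderiv ℝ φ) := fun h => hy (tsupport_fderiv_subset ℝ h)
        rw [image_eq_zero_of_notMem_tsupport h5]
        simp
      exact (continuousAt_const).congr h1.symm
  have s1 : HasCompactSupport (fun x => F x * fderiv ℝ φ x v) := (hc.fderiv_apply ℝ v).mul_left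
  have i2 : Integrable (fun x => F x * fderiv ℝ φ x v) := c1.integrable_of_hasCompactSupport s1
  have i3 : Integrable (fun x => φ x * fderiv ℝ F x v) := by
    refine (i1.sub i2).congr (Eventually.of_forall fun x => ?_)
    simp only [Pi.sub_apply]
    rw [hd x]
    ring
  have hsum : ∫ x, fderiv ℝ (fun x => φ x * F x) x v =
      (∫ x, F x * fderiv ℝ φ x v) + ∫ x, φ x * fderiv ℝ F x v := by
    rw [← integral_add i2 i3]
    exact integral_congr_ae (Eventually.of_forall fun x => hd x)
  linarith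

/-- The local step. -/
theorem embrep_local {Ω : Set ℂ} {u : ℂ → ℝ} {g j : ℂ → ℂ} (h : MSMin Ω u g j) {P : ℂ → ℂ}
    (hP : DifferentiableOn ℂ P (Ω \ closure (discSet Ω u)))
    (hg : ∀ᵐ x ∂(volume : Measure ℂ), x ∈ Ω \ closure (discSet Ω u) →
      g x = (starRingEnd ℂ) (P x)) {a : ℂ} {R : ℝ} (hR : 0 < R)
    (hsub : ball a (2 * R) ⊆ Ω \ closure (discSet Ω u)) :
    ∃ F : ℂ → ℝ, ContDiffOn ℝ 1 F (ball a R) ∧
      (∀ z ∈ ball a R, HasFDerivAt F (embrep_L (P z)) z) ∧
      ∀ᵐ x ∂volume.restrict (ball a R), u x = F x := by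
  obtain ⟨F, hF1, hF2⟩ := embrep_prim (hP.mono hsub)
  have hRR : closedBall a R ⊆ ball a (2 * R) := closedBall_subset_ball (by linarith)
  have hbR : ball a R ⊆ ball a (2 * R) := ball_subset_closedBall.trans hRR
  have hBΩ : ball a R ⊆ Ω := hbR.trans (hsub.trans sdiff_subset)
  have hcΩ : closedBall a R ⊆ Ω := hRR.trans (hsub.trans sdiff_subset)
  have iu : IntegrableOn u (ball a R) :=
    (h.intu.integrableOn_compact_subset hcΩ (isCompact_closedBall _ _)).mono_set
      ball_subset_closedBall
  have iF : IntegrableOn F (ball a R) :=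
    ((hF1.continuousOn.mono hRR).integrableOn_compact (isCompact_closedBall _ _)).mono_set
      ball_subset_closedBall
  have iW : Integrable ((ball a R).indicator (fun x => u x - F x)) :=
    (integrable_indicator_iff measurableSet_ball).2 (iu.sub iF)
  obtain ⟨c, hc⟩ := embrep_weak_const iW (isOpen_ball (x := a) (ε := R)) (convex_ball a R) (by
    intro φ hφ hc hs v
    have e0 : ∫ x in ball a R, (ball a R).indicator (fun x => u x - F x) x * fderiv ℝ φ x v =
        ∫ x in ball a R, (u x * fderiv ℝ φ x v - F x * fderiv ℝ φ x v) := by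
      refine setIntegral_congr_fun measurableSet_ball fun x hx => ?_
      rw [indicator_of_mem hx]
      ring
    have hfd : ∀ x ∉ ball a R, fderiv ℝ φ x v = 0 := by
      intro x hx
      have h5 : x ∉ tsupport (fderiv ℝ φ) := fun h => hx (hs (tsupport_fderiv_subset ℝ h))
      rw [image_eq_zero_of_notMem_tsupport h5]
      simp
    have hfc : Continuous (fun x => fderiv ℝ φ x v) :=
      (hφ.continuous_fderiv (by simp)).clm_apply continuous_const
    obtain ⟨M, hM⟩ := (hc.fderiv_apply ℝ v).exists_bound_of_continuous hfc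
    have iu' : IntegrableOn (fun x => u x * fderiv ℝ φ x v) (ball a R) :=
      Integrable.mul_bdd (c := M) iu hfc.aestronglyMeasurable.restrict
        (Eventually.of_forall hM)
    have iF' : IntegrableOn (fun x => F x * fderiv ℝ φ x v) (ball a R) :=
      Integrable.mul_bdd (c := M) iF hfc.aestronglyMeasurable.restrict
        (Eventually.of_forall hM)
    rw [e0, integral_sub iu' iF']
    have hsV : tsupport φ ⊆ Ω \ closure (discSet Ω u) := hs.trans (hbR.trans hsub)
    have e1 : ∫ x in ball a R, u x * fderiv ℝ φ x v = ∫ x in Ω, u x * fderiv ℝ φ x v := by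
      refine (setIntegral_eq_of_subset_of_forall_sdiff_eq_zero h.isOpen.measurableSet hBΩ ?_).symm
      intro x hx
      rw [hfd x hx.2, mul_zero]
    have e2 : ∫ x in ball a R, F x * fderiv ℝ φ x v = ∫ x, F x * fderiv ℝ φ x v := by
      refine setIntegral_eq_integral_of_forall_compl_eq_zero fun x hx => ?_
      rw [hfd x hx, mul_zero]
    have e3 : ∫ x in Ω, φ x * inner ℝ (g x) v = ∫ x, φ x * fderiv ℝ F x v := by
      have e4 : ∫ x in Ω, φ x * inner ℝ (g x) v = ∫ x, φ x * inner ℝ (g x) v := by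
        refine setIntegral_eq_integral_of_forall_compl_eq_zero fun x hx => ?_
        rw [image_eq_zero_of_notMem_tsupport (fun hx' => hx (hsV hx').1), zero_mul]
      rw [e4]
      refine integral_congr_ae ?_
      filter_upwards [hg] with x hx
      by_cases hx' : x ∈ tsupport φ
      · rw [hx (hsV hx'), (hF2 x (hbR (hs hx'))).fderiv, embrep_L_inner]
      · rw [image_eq_zero_of_notMem_tsupport hx', zero_mul, zero_mul]
    rw [e1, e2, eaharm_form h.toSBVData hφ hc hsV v, e3,
      embrep_ibp isOpen_ball hF1 hφ hc (hs.trans hbR) v]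
    ring)
  refine ⟨fun x => F x + c, (hF1.mono hbR).add contDiffOn_const, ?_, ?_⟩
  · intro z hz
    exact (hF2 z (hbR hz)).add_const c
  · rw [ae_restrict_iff' measurableSet_ball]
    filter_upwards [hc] with x hx hxb
    have h1 := hx hxb
    rw [indicator_of_mem hxb] at h1
    linarith

/-- E1: representative of class `C¹` off the closure of the discontinuity set. -/
theorem emb_rep {Ω : Set ℂ} {u : ℂ → ℝ} {g j : ℂ → ℂ} (h : MSMin Ω u g j) :
    ∃ u₀ : ℂ → ℝ, Measurable u₀ ∧ (∀ᵐ x ∂volume.restrict Ω, u₀ x = u x) ∧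
      ContDiffOn ℝ 1 u₀ (Ω \ closure (discSet Ω u)) ∧
      DifferentiableOn ℂ (fun x => (starRingEnd ℂ) (cgr u₀ x)) (Ω \ closure (discSet Ω u)) ∧
      ∀ᵐ x ∂volume.restrict Ω, cgr u₀ x = g x := by
  classical
  obtain ⟨P, hP, hg⟩ := ea_harm h
  have hV := eaharm_open (u := u) h.isOpen
  set V : Set ℂ := Ω \ closure (discSet Ω u) with hVd
  have hloc : ∀ x ∈ V, ∃ r : ℝ, 0 < r ∧ ball x r ⊆ V ∧ ∃ F : ℂ → ℝ,
      ContDiffOn ℝ 1 F (ball x r) ∧ (∀ z ∈ ball x r, HasFDerivAt F (embrep_L (P z)) z) ∧
      ∀ᵐ y ∂volume.restrict (ball x r), u y = F y := by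
    intro x hx
    obtain ⟨ε, hε, hball⟩ := Metric.isOpen_iff.1 hV x hx
    have hR0 : 0 < ε / 2 := by positivity
    have hKU : ball x (2 * (ε / 2)) ⊆ V := by
      rw [mul_div_cancel₀ _ (two_ne_zero)]
      exact hball
    obtain ⟨F, hF1, hF2, hF3⟩ := embrep_local h hP hg hR0 hKU
    exact ⟨ε / 2, hR0, (ball_subset_ball (by linarith)).trans hball, F, hF1, hF2, hF3⟩
  choose! r hr0 hrV F hF1 hF2 hF3 using hloc
  have hkey : ∀ x ∈ V, ∀ y ∈ ball x (r x), F y y = F x y := by
    intro x hx y hy
    have hyV : y ∈ V := hrV x hx hy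
    have hopen : IsOpen (ball x (r x) ∩ ball y (r y)) := isOpen_ball.inter isOpen_ball
    have h1 : F y =ᵐ[volume.restrict (ball x (r x) ∩ ball y (r y))] F x := by
      have h2 := ae_restrict_of_ae_restrict_of_subset
        (inter_subset_left (t := ball y (r y))) (hF3 x hx)
      have h3 := ae_restrict_of_ae_restrict_of_subset
        (inter_subset_right (s := ball x (r x))) (hF3 y hyV)
      filter_upwards [h2, h3] with z hz1 hz2
      rw [← hz1, ← hz2]
    exact Measure.eqOn_open_of_ae_eq h1 hopen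
      ((hF1 y hyV).continuousOn.mono inter_subset_right)
      ((hF1 x hx).continuousOn.mono inter_subset_left)
      ⟨hy, mem_ball_self (hr0 y hyV)⟩
  obtain ⟨u₀, hu₀⟩ : ∃ u₀ : ℂ → ℝ, u₀ = V.piecewise (fun x => F x x) (fun _ => 0) := ⟨_, rfl⟩
  have hev : ∀ x ∈ V, u₀ =ᶠ[𝓝 x] F x := by
    intro x hx
    filter_upwards [ball_mem_nhds x (hr0 x hx)] with y hy
    rw [hu₀, piecewise_eq_of_mem _ _ _ (hrV x hx hy)]
    exact hkey x hx y hy
  have hder : ∀ x ∈ V, HasFDerivAt u₀ (embrep_L (P x)) x := fun x hx =>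
    (hF2 x hx x (mem_ball_self (hr0 x hx))).congr_of_eventuallyEq (hev x hx)
  have hcgr : ∀ x ∈ V, cgr u₀ x = (starRingEnd ℂ) (P x) := by
    intro x hx
    rw [cgr_of (hder x hx), cgrL, embrep_L_apply, embrep_L_apply]
    apply Complex.ext
    · simp
    · simp
  have hcont : ContDiffOn ℝ 1 u₀ V := by
    intro x hx
    apply ContDiffAt.contDiffWithinAt
    refine ContDiffAt.congr_of_eventuallyEq ?_ (hev x hx)
    exact (hF1 x hx x (mem_ball_self (hr0 x hx))).contDiffAt (ball_mem_nhds x (hr0 x hx))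
  have hnull : volume (Ω ∩ closure (discSet Ω u)) = 0 := emb_volume h
  -- almost everywhere statements
  have haeV : ∀ᵐ x ∂volume.restrict Ω, x ∈ V := by
    rw [ae_restrict_iff' h.isOpen.measurableSet, ae_iff]
    refine measure_mono_null ?_ hnull
    intro x hx
    simp only [mem_ofPred_eq, Classical.not_imp] at hx
    refine ⟨hx.1, ?_⟩
    by_contra hc
    exact hx.2 ⟨hx.1, hc⟩
  have hae : ∀ᵐ x ∂(volume : Measure ℂ), x ∈ V → u₀ x = u x := by
    rw [ae_iff]
    apply measure_null_of_locally_null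
    intro x hx
    simp only [mem_ofPred_eq, Classical.not_imp] at hx
    refine ⟨{y | ¬ (y ∈ ball x (r x) → u y = F x y)}, ?_, ?_⟩
    · rw [mem_nhdsWithin]
      refine ⟨ball x (r x), isOpen_ball, mem_ball_self (hr0 x hx.1), ?_⟩
      intro y hy
      have hy2 := hy.2
      simp only [mem_ofPred_eq, Classical.not_imp] at hy2 ⊢
      refine ⟨hy.1, ?_⟩
      rw [← hkey x hx.1 y hy.1]
      intro hc
      apply hy2.2
      rw [hc, hu₀, piecewise_eq_of_mem _ _ _ hy2.1]
    · have := hF3 x hx.1
      rw [ae_restrict_iff' measurableSet_ball, ae_iff] at this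
      exact this
  refine ⟨u₀, ?_, ?_, hcont, ?_, ?_⟩
  · rw [hu₀]
    refine ContinuousOn.measurable_piecewise ?_ continuousOn_const hV.measurableSet
    refine (hcont.continuousOn).congr ?_
    intro x hx
    rw [hu₀, piecewise_eq_of_mem _ _ _ hx]
  · filter_upwards [haeV, ae_restrict_of_ae hae] with x hx hx'
    exact hx' hx
  · refine hP.congr ?_
    intro x hx
    rw [hcgr x hx, Complex.conj_conj]
  · filter_upwards [haeV, ae_restrict_of_ae hg] with x hx hx'
    rw [hcgr x hx, hx' hx]

end Pool.Agent.MP099f24
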