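import Mathlib

/-!
# EMB module E5: smooth truncations
-/

set_option autoImplicit false
set_option linter.unusedVariables false

namespace Pool.Agent.MP099f24

open MeasureTheory Filter Topology Set Metric
open scoped ENNReal NNReal ContDiff

theorem embtrunc_le {χ : ℝ → ℝ} (hc : Continuous χ) (h0 : ∀ t, 0 ≤ χ t) (h1 : ∀ t, χ t ≤ 1)
    (s : ℝ) : |∫ t in (0 : ℝ)..s, χ t| ≤ |s| := by
  have h := intervalIntegral.norm_integral_le_of_norm_le_const (a := (0 : ℝ)) (b := s) (C := 1)
    (f := χ) (fun t _ => by rw [Real.norm_eq_abs, abs_of_nonneg (h0 t)]; exact h1 t)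
  simpa [Real.norm_eq_abs] using h

/-- E5: smooth truncations -/
theorem emb_trunc {T : ℝ} (hT : 0 < T) : ∃ κ : ℝ → ℝ, ContDiff ℝ ∞ κ ∧
    (∀ s, |s| ≤ T → κ s = s) ∧ (∀ s, 0 ≤ deriv κ s ∧ deriv κ s ≤ 1) ∧ ∀ s, |κ s| ≤ T + 1 := by
  let χ : ContDiffBump (0 : ℝ) := ⟨T, T + 1, hT, by linarith⟩
  have hc : Continuous (fun t => χ t) := χ.continuous
  have h0 : ∀ t, 0 ≤ χ t := fun t => χ.nonneg
  have h1 : ∀ t, χ t ≤ 1 := fun t => χ.le_one
  have hin : ∀ t : ℝ, |t| ≤ T → χ t = 1 := fun t ht =>
    χ.one_of_mem_closedBall (by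
      rw [mem_closedBall, Real.dist_eq, sub_zero]
      exact ht)
  have hout : ∀ t : ℝ, T + 1 ≤ |t| → χ t = 0 := fun t ht =>
    χ.zero_of_le_dist (by
      rw [Real.dist_eq, sub_zero]
      exact ht)
  set κ : ℝ → ℝ := fun s => ∫ t in (0 : ℝ)..s, χ t with hκ
  have hd : ∀ s, HasDerivAt κ (χ s) s := fun s =>
    intervalIntegral.integral_hasDerivAt_right (hc.intervalIntegrable _ _)
      (hc.stronglyMeasurableAtFilter _ _) hc.continuousAt
  have hderiv : deriv κ = fun s => χ s := funext fun s => (hd s).deriv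
  have hcd : ContDiff ℝ ∞ κ := by
    rw [contDiff_infty_iff_deriv]
    refine ⟨fun s => (hd s).differentiableAt, ?_⟩
    rw [hderiv]
    exact χ.contDiff
  refine ⟨κ, hcd, ?_, ?_, ?_⟩
  · intro s hs
    have h : ∫ t in (0 : ℝ)..s, χ t = ∫ _t in (0 : ℝ)..s, (1 : ℝ) := by
      refine intervalIntegral.integral_congr fun t ht => ?_
      refine hin t ?_
      have h2 := abs_le.1 hs
      rcases le_total 0 s with h3 | h3
      · rw [uIcc_of_le h3] at ht
        rw [abs_of_nonneg ht.1]
        linarith [ht.2]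
      · rw [uIcc_of_ge h3] at ht
        rw [abs_of_nonpos ht.2]
        linarith [ht.1]
    show ∫ t in (0 : ℝ)..s, χ t = s
    rw [h]
    simp
  · intro s
    rw [hderiv]
    exact ⟨h0 s, h1 s⟩
  · intro s
    rcases le_or_gt |s| (T + 1) with hs | hs
    · exact (embtrunc_le hc h0 h1 s).trans hs
    · have key : ∀ b : ℝ, |b| = T + 1 → (∀ t ∈ uIcc b s, T + 1 ≤ |t|) → |κ s| ≤ T + 1 := by
        intro b hb ht
        have h2 : κ s = (∫ t in (0 : ℝ)..b, χ t) + ∫ t in b..s, χ t :=
          (intervalIntegral.integral_add_adjacent_intervals (hc.intervalIntegrable _ _)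
            (hc.intervalIntegrable _ _)).symm
        have h3 : ∫ t in b..s, χ t = ∫ _t in b..s, (0 : ℝ) :=
          intervalIntegral.integral_congr fun t h => hout t (ht t h)
        rw [h2, h3]
        simp only [intervalIntegral.integral_zero, add_zero]
        rw [← hb]
        exact embtrunc_le hc h0 h1 b
      rcases le_total 0 s with h3 | h3
      · rw [abs_of_nonneg h3] at hs
        refine key (T + 1) (abs_of_pos (by linarith)) fun t ht => ?_
        rw [uIcc_of_le hs.le] at ht
        rw [abs_of_nonneg (by linarith [ht.1])]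
        exact ht.1
      · rw [abs_of_nonpos h3] at hs
        refine key (-(T + 1)) (by rw [abs_neg, abs_of_pos (by linarith)]) fun t ht => ?_
        rw [uIcc_of_ge (by linarith)] at ht
        rw [abs_of_nonpos (by linarith [ht.2])]
        linarith [ht.2]

end Pool.Agent.MP099f24
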