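import Mathlib
import Pool.Agent.Lib.MP_099f24_an.ST.EmbRep
import Pool.Agent.Lib.MP_099f24_an.ST.EmbCongr
import Pool.Agent.Lib.MP_099f24_an.ST.EmbLoc
import Pool.Agent.Lib.MP_099f24_an.ST.EmbCirc
import Pool.Agent.Lib.MP_099f24_an.ST.EmbTrunc
import Pool.Agent.Lib.MP_099f24_an.ST.EmbA
import Pool.Agent.Lib.MP_099f24_an.SD.Asm
import Pool.Agent.Lib.MP_099f24_an.SD.Rep
import Pool.Agent.Lib.MP_099f24_an.Z.Energy

/-!
# MP_099f24_an, EMB: local minimizers which are locally bounded are topological minimizers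
-/

namespace Pool.Agent.MP099f24

open MeasureTheory Filter Topology Set Metric
open scoped ENNReal NNReal ContDiff

/-- Data for the embedding: a local minimizer `u` with a `C¹` representative off the relatively
closed set `K`, which contains the discontinuity set and has the same length. -/
structure EmbData (Ω K : Set ℂ) (u : ℂ → ℝ) (g j : ℂ → ℂ) : Prop
    extends MSMin Ω u g j where
  sub : K ⊆ Ω
  rel : IsOpen (Ω \ K)
  disc : discSet Ω u ⊆ K
  null : (μH[1] : Measure ℂ) (K \ discSet Ω u) = 0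
  smooth : ContDiffOn ℝ 1 u (Ω \ K)
  zero : ∀ x, x ∉ Ω \ K → u x = 0
  grad : g = (Ω \ K).indicator (cgr u)
  hol : DifferentiableOn ℂ (fun x => (starRingEnd ℂ) (cgr u x)) (Ω \ K)
  dens : ∀ x ∈ K, ∀ r : ℝ, 0 < r → closedBall x r ⊆ Ω → ENNReal.ofReal (2 * r) ≤ cen u K (ball x r)

section

variable {Ω K : Set ℂ} {u : ℂ → ℝ} {g j : ℂ → ℂ}

theorem emb_lint (hΩK : IsOpen (Ω \ K)) {w : ℂ → ℂ} {A : Set ℂ} (hA : A ⊆ Ω) :
    ∫⁻ x in A, ‖(Ω \ K).indicator w x‖ₑ ^ 2 = ∫⁻ x in A \ K, ‖w x‖ₑ ^ 2 := by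
  have h1 : ∀ x, ‖(Ω \ K).indicator w x‖ₑ ^ 2 = (Ω \ K).indicator (fun x => ‖w x‖ₑ ^ 2) x := by
    intro x
    by_cases hx : x ∈ Ω \ K
    · rw [indicator_of_mem hx, indicator_of_mem hx]
    · rw [indicator_of_notMem hx, indicator_of_notMem hx]
      simp
  simp only [h1]
  rw [lintegral_indicator hΩK.measurableSet, Measure.restrict_restrict hΩK.measurableSet]
  congr 2
  ext x
  constructor
  · rintro ⟨h2, h3⟩
    exact ⟨h3, h2.2⟩
  · rintro ⟨h2, h3⟩
    exact ⟨⟨hA h2, h3⟩, h2⟩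

theorem emb_haus (hd : discSet Ω u ⊆ K) (hn : (μH[1] : Measure ℂ) (K \ discSet Ω u) = 0)
    (A : Set ℂ) : (μH[1] : Measure ℂ) (K ∩ A) = (μH[1] : Measure ℂ) (discSet Ω u ∩ A) := by
  refine le_antisymm ?_ (measure_mono (inter_subset_inter_left _ hd))
  calc (μH[1] : Measure ℂ) (K ∩ A) ≤
      (μH[1] : Measure ℂ) ((discSet Ω u ∩ A) ∪ (K \ discSet Ω u)) := by
        refine measure_mono ?_
        rintro x ⟨h1, h2⟩
        by_cases h3 : x ∈ discSet Ω u
        · exact Or.inl ⟨h3, h2⟩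
        · exact Or.inr ⟨h1, h3⟩
    _ ≤ _ := measure_union_le _ _
    _ = _ := by rw [hn, add_zero]

theorem EmbData.cen_eq (h : EmbData Ω K u g j) {A : Set ℂ} (hA : A ⊆ Ω) :
    cen u K A = (∫⁻ x in A, ‖g x‖ₑ ^ 2) + (μH[1] : Measure ℂ) (discSet Ω u ∩ A) := by
  rw [cen, ← emb_lint h.rel hA, emb_haus h.disc h.null A, ← h.grad]

theorem EmbData.tconf (h : EmbData Ω K u g j) : TConf Ω u (fun _ => ∅) K := by
  refine ⟨h.isOpen, h.sub, h.rel, h.smooth, fun x _ => Eventually.of_forall fun y => rfl, ?_⟩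
  intro C hC hCΩ
  rw [h.cen_eq hCΩ, tm_lint_eq (h.fin_g C hC hCΩ)]
  exact ENNReal.add_lt_top.2 ⟨ENNReal.ofReal_lt_top, h.fin_S C hC hCΩ⟩

theorem emb_cen_inter {V : Set ℂ} {w : ℂ → ℝ} {A : Set ℂ} (hA : A ⊆ V) :
    cen w (V ∩ K) A = cen w K A := by
  have h1 : A \ (V ∩ K) = A \ K := by
    ext x
    constructor
    · rintro ⟨h2, h3⟩
      exact ⟨h2, fun h4 => h3 ⟨hA h2, h4⟩⟩
    · rintro ⟨h2, h3⟩
      exact ⟨h2, fun h4 => h3 h4.2⟩
  have h2 : V ∩ K ∩ A = K ∩ A := by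
    ext x
    constructor
    · rintro ⟨h3, h4⟩
      exact ⟨h3.2, h4⟩
    · rintro ⟨h3, h4⟩
      exact ⟨⟨hA h4, h3⟩, h4⟩
  rw [cen, cen, h1, h2]

theorem emb_init' (h : MSMin Ω u g j) :
    ∃ u₀ g₀, EmbData Ω (Ω ∩ closure (discSet Ω u)) u₀ g₀ j ∧
      (∀ᵐ x ∂volume.restrict Ω, g₀ x = g x) ∧ ∀ᵐ x ∂volume.restrict Ω, u₀ x = u x := by
  obtain ⟨u₀, hm, hae, hs, hh, hg⟩ := emb_rep h
  set K := Ω ∩ closure (discSet Ω u) with hK
  have hΩK : Ω \ K = Ω \ closure (discSet Ω u) := by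
    rw [hK, sdiff_self_inter]
  have hopen : IsOpen (Ω \ K) := by
    rw [hΩK]
    exact h.isOpen.sdiff isClosed_closure
  rw [← hΩK] at hs hh
  have hKm : MeasurableSet K := h.isOpen.measurableSet.inter isClosed_closure.measurableSet
  have hK0 : volume K = 0 := emb_volume h
  have hnK : ∀ᵐ x ∂volume.restrict Ω, x ∈ Ω \ K := by
    have h1 : ∀ᵐ x : ℂ, x ∉ K := measure_eq_zero_iff_ae_notMem.1 hK0
    filter_upwards [ae_restrict_of_ae h1, ae_restrict_mem h.isOpen.measurableSet] with x h2 h3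
    exact ⟨h3, h2⟩
  set u₁ : ℂ → ℝ := (Ω \ K).indicator u₀ with hu₁
  have hev : ∀ x ∈ Ω \ K, u₁ =ᶠ[𝓝 x] u₀ := by
    intro x hx
    filter_upwards [hopen.mem_nhds hx] with y hy
    exact indicator_of_mem hy u₀
  have hcgr : ∀ x ∈ Ω \ K, cgr u₁ x = cgr u₀ x := fun x hx => cgr_congr (hev x hx)
  have hsm : ContDiffOn ℝ 1 u₁ (Ω \ K) := hs.congr fun x hx => indicator_of_mem hx u₀
  have hu₁m : Measurable u₁ := hm.indicator hopen.measurableSet
  set g₁ : ℂ → ℂ := (Ω \ K).indicator (cgr u₁) with hg₁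
  have hcont : ContinuousOn (cgr u₁) (Ω \ K) :=
    cgrL_continuous.comp_continuousOn (hsm.continuousOn_fderiv_of_isOpen hopen le_rfl)
  have hg₁m : Measurable g₁ := emb_measurable_indicator hopen hcont
  have hu₁ae : ∀ᵐ x ∂volume.restrict Ω, u₁ x = u x := by
    filter_upwards [hae, hnK] with x h1 h2
    rw [hu₁, indicator_of_mem h2, h1]
  have hg₁ae : ∀ᵐ x ∂volume.restrict Ω, g₁ x = g x := by
    filter_upwards [hg, hnK] with x h1 h2
    rw [hg₁, indicator_of_mem h2, hcgr x h2, h1]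
  obtain ⟨hmin, hdisc⟩ := emb_congr h hu₁m hg₁m hu₁ae hg₁ae
  have hsub : discSet Ω u ⊆ K := fun x hx => ⟨hx.1, subset_closure hx⟩
  have hnull : (μH[1] : Measure ℂ) (K \ discSet Ω u) = 0 := ea_clos h
  refine ⟨u₁, g₁, ?_, hg₁ae, hu₁ae⟩
  refine { toMSMin := hmin
           sub := inter_subset_left
           rel := hopen
           disc := by rw [hdisc]; exact hsub
           null := by rw [hdisc]; exact hnull
           smooth := hsm
           zero := fun x hx => indicator_of_notMem hx u₀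
           grad := rfl
           hol := ?_
           dens := ?_ }
  · refine hh.congr fun x hx => ?_
    rw [hcgr x hx]
  · intro x hx r hr hball
    obtain ⟨δ, hδ, hδΩ⟩ := (isCompact_closedBall x r).exists_cthickening_subset_open h.isOpen hball
    have hR : ball x (r + δ) ⊆ Ω := by
      refine Subset.trans ?_ hδΩ
      rw [cthickening_closedBall hδ.le hr.le, add_comm]
      exact ball_subset_closedBall
    have h1 := asm_lower h hR hx.1 hx.2 (s := r) ⟨hr, by linarith⟩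
    have h2 := en_ball h.toSBVData hR (s := r) (by linarith)
    have h3 : ENNReal.ofReal (2 * r) ≤ en Ω u g (ball x r) := by
      rw [h2]
      exact ENNReal.ofReal_le_ofReal h1
    refine h3.trans (le_of_eq ?_)
    have hbΩ : ball x r ⊆ Ω := ball_subset_closedBall.trans hball
    rw [cen, ← emb_lint hopen hbΩ, emb_haus hsub hnull, en]
    congr 1
    refine lintegral_congr_ae ?_
    filter_upwards [ae_restrict_of_ae_restrict_of_subset hbΩ hg₁ae] with y hy
    rw [← hy]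

theorem emb_init (h : MSMin Ω u g j) :
    ∃ u₀ g₀, EmbData Ω (Ω ∩ closure (discSet Ω u)) u₀ g₀ j ∧
      ∀ᵐ x ∂volume.restrict Ω, g₀ x = g x := by
  obtain ⟨u₀, g₀, h1, h2, -⟩ := emb_init' h
  exact ⟨u₀, g₀, h1, h2⟩

end

end Pool.Agent.MP099f24
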