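import Mathlib
import Pool.Agent.Lib.MP_099f24_an.ST.EmbC

/-!
# MP_099f24_an, EMB: minimality of the embedded pair
-/

namespace Pool.Agent.MP099f24

open MeasureTheory Filter Topology Set Metric
open scoped ENNReal NNReal ContDiff

section

variable {Ω K : Set ℂ} {u : ℂ → ℝ} {g j : ℂ → ℂ}

theorem emb_loc_union {O₁ O₂ : Set ℂ} (h₁ : IsOpen O₁) (h₂ : IsOpen O₂) {f f₁ f₂ : ℂ → ℝ}
    (i₁ : LocallyIntegrableOn f₁ O₁) (i₂ : LocallyIntegrableOn f₂ O₂) (e₁ : ∀ x ∈ O₁, f x = f₁ x)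
    (e₂ : ∀ x ∈ O₂, f x = f₂ x) : LocallyIntegrableOn f (O₁ ∪ O₂) := by
  have j₁ : LocallyIntegrableOn f O₁ := rep_locInt_congr h₁.measurableSet i₁ (by
    filter_upwards [ae_restrict_mem h₁.measurableSet] with x hx using e₁ x hx)
  have j₂ : LocallyIntegrableOn f O₂ := rep_locInt_congr h₂.measurableSet i₂ (by
    filter_upwards [ae_restrict_mem h₂.measurableSet] with x hx using e₂ x hx)
  intro x hx
  rcases hx with hx | hx
  · have h3 := j₁ x hx
    rw [h₁.nhdsWithin_eq hx] at h3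
    rwa [(h₁.union h₂).nhdsWithin_eq (Or.inl hx)]
  · have h3 := j₂ x hx
    rw [h₂.nhdsWithin_eq hx] at h3
    rwa [(h₁.union h₂).nhdsWithin_eq (Or.inr hx)]

/-- composition with a smooth truncation -/
theorem emb_comp_tconf {V K' : Set ℂ} {w : ℂ → ℝ} {l' : ℂ → Set ℂ} (hw : TConf V w l' K')
    {κ : ℝ → ℝ} (hκ : ContDiff ℝ ∞ κ) (hκ1 : ∀ s, 0 ≤ deriv κ s ∧ deriv κ s ≤ 1) :
    TConf V (fun x => κ (w x)) l' K' ∧
      ∀ x ∈ V \ K', cgr (fun y => κ (w y)) x = ((deriv κ (w x) : ℝ) : ℂ) * cgr w x := by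
  have hc : ∀ x ∈ V \ K', cgr (fun y => κ (w y)) x = ((deriv κ (w x) : ℝ) : ℂ) * cgr w x := by
    intro x hx
    exact cgr_comp (hw.diffAt hx.1 hx.2) ((hκ.differentiable (by simp)) (w x))
  refine ⟨⟨hw.isOpen, hw.sub, hw.isOpen_off, ?_, hw.lab, ?_⟩, hc⟩
  · exact (hκ.of_le (by simp)).comp_contDiffOn hw.smooth
  · intro C hC hCV
    refine lt_of_le_of_lt (add_le_add ?_ le_rfl) (hw.fin C hC hCV)
    have hKm := hw.measurableSet
    refine setLIntegral_mono' (hC.measurableSet.diff hKm) fun x hx => ?_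
    rw [hc x ⟨hCV hx.1, hx.2⟩, enorm_mul]
    have h1 : ‖((deriv κ (w x) : ℝ) : ℂ)‖ₑ ≤ 1 := by
      rw [← ofReal_norm, Complex.norm_real, Real.norm_of_nonneg (hκ1 _).1]
      exact ENNReal.ofReal_le_one.2 (hκ1 _).2
    gcongr
    calc ‖((deriv κ (w x) : ℝ) : ℂ)‖ₑ * ‖cgr w x‖ₑ ≤ 1 * ‖cgr w x‖ₑ := by gcongr
      _ = _ := one_mul _

/-- Step C: the pair `(u, K)` is minimal among all admissible pairs, where `u` is bounded. -/
theorem EmbData.le (h : EmbData Ω K u g j) {V : Set ℂ} (hV : IsOpen V) (hVΩ : V ⊆ Ω) {T : ℝ}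
    (hT : 0 < T) (huT : ∀ x ∈ V, |u x| ≤ T) {w : ℂ → ℝ} {l' : ℂ → Set ℂ} {K' F : Set ℂ}
    (hw : TConf V w l' K') (hF : IsCompact F) (hFV : F ⊆ V)
    (hK' : ∀ x ∈ V \ F, (x ∈ K' ↔ x ∈ V ∩ K))
    (hwu : ∀ x ∈ V \ F, x ∉ V ∩ K → w x = u x) :
    cen u (V ∩ K) F ≤ cen w K' F := by
  classical
  obtain ⟨κ, hκ, hκT, hκ1, hκb⟩ := emb_trunc hT
  obtain ⟨hw₁, hcgr⟩ := emb_comp_tconf hw hκ hκ1
  set w₁ : ℂ → ℝ := fun x => κ (w x) with hw₁def
  obtain ⟨⟨jW, hW⟩, hWd⟩ := emb_struct hw₁ (M := T + 1) (fun x _ => hκb _)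
  set W : ℂ → ℝ := (V \ K').indicator w₁ with hWdef
  set G : ℂ → ℂ := (V \ K').indicator (cgr w₁) with hGdef
  have hKK' : ∀ x ∈ V \ F, (x ∈ K' ↔ x ∈ K) := fun x hx =>
    (hK' x hx).trans ⟨fun h1 => h1.2, fun h1 => ⟨hx.1, h1⟩⟩
  -- agreement off `F`
  have hWu : ∀ x ∈ V \ F, W x = u x := by
    intro x hx
    by_cases hxK : x ∈ K'
    · have hxVK : x ∉ V \ K' := fun h1 => h1.2 hxK
      have hxK2 : x ∉ Ω \ K := fun h1 => h1.2 ((hKK' x hx).1 hxK)
      rw [hWdef, indicator_of_notMem hxVK, h.zero x hxK2]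
    · have hxK2 : x ∉ K := fun h1 => hxK ((hKK' x hx).2 h1)
      rw [hWdef, indicator_of_mem (show x ∈ V \ K' from ⟨hx.1, hxK⟩), hw₁def]
      simp only
      rw [hwu x hx (fun h1 => hxK2 h1.2)]
      exact hκT _ (huT x hx.1)
  have hGg : ∀ x ∈ V \ F, G x = g x := by
    intro x hx
    by_cases hxK : x ∈ K'
    · have hxVK : x ∉ V \ K' := fun h1 => h1.2 hxK
      have hxK2 : x ∉ Ω \ K := fun h1 => h1.2 ((hKK' x hx).1 hxK)
      rw [hGdef, indicator_of_notMem hxVK, h.grad, indicator_of_notMem hxK2]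
    · have hxK2 : x ∉ K := fun h1 => hxK ((hKK' x hx).2 h1)
      rw [hGdef, indicator_of_mem (show x ∈ V \ K' from ⟨hx.1, hxK⟩), h.grad,
        indicator_of_mem (show x ∈ Ω \ K from ⟨hVΩ hx.1, hxK2⟩)]
      refine cgr_congr ?_
      have hnh : (V \ K') ∩ Fᶜ ∈ 𝓝 x :=
        (hw.isOpen_off.inter hF.isClosed.isOpen_compl).mem_nhds ⟨⟨hx.1, hxK⟩, hx.2⟩
      filter_upwards [hnh] with y hy
      have h2 := hWu y ⟨hy.1.1, hy.2⟩
      rwa [hWdef, indicator_of_mem hy.1] at h2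
  -- the competitor
  set w₃ : ℂ → ℝ := F.piecewise W u with hw₃
  set G₃ : ℂ → ℂ := F.piecewise G g with hG₃
  have hw₃V : ∀ x ∈ V, w₃ x = W x := by
    intro x hx
    by_cases hxF : x ∈ F
    · exact Set.piecewise_eq_of_mem _ _ _ hxF
    · rw [hw₃, Set.piecewise_eq_of_notMem _ _ _ hxF, hWu x ⟨hx, hxF⟩]
  have hG₃V : ∀ x ∈ V, G₃ x = G x := by
    intro x hx
    by_cases hxF : x ∈ F
    · exact Set.piecewise_eq_of_mem _ _ _ hxF
    · rw [hG₃, Set.piecewise_eq_of_notMem _ _ _ hxF, hGg x ⟨hx, hxF⟩]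
  have hFo : IsOpen (Ω \ F) := h.isOpen.sdiff hF.isClosed
  have hcover : V ∪ (Ω \ F) = Ω := by
    refine Subset.antisymm (union_subset hVΩ sdiff_subset) fun x hx => ?_
    by_cases hxF : x ∈ F
    · exact Or.inl (hFV hxF)
    · exact Or.inr ⟨hx, hxF⟩
  have s1 : IsSBVGrad V w₃ G₃ := by
    refine emb_sbv_congr hV hW.intu ⟨hW.intg, jW, hW.jf, hW.intj, hW.form⟩ ?_ ?_
    · filter_upwards [ae_restrict_mem hV.measurableSet] with x hx using hw₃V x hx
    · filter_upwards [ae_restrict_mem hV.measurableSet] with x hx using hG₃V x hx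
  have s2 : IsSBVGrad (Ω \ F) w₃ G₃ := by
    refine emb_sbv_congr hFo (h.intu.mono_set sdiff_subset)
      (emb_sbv_restrict h.isOpen hFo sdiff_subset ⟨h.intg, j, h.jf, h.intj, h.form⟩) ?_ ?_
    · filter_upwards [ae_restrict_mem hFo.measurableSet] with x hx
      exact Set.piecewise_eq_of_notMem _ _ _ hx.2
    · filter_upwards [ae_restrict_mem hFo.measurableSet] with x hx
      exact Set.piecewise_eq_of_notMem _ _ _ hx.2
  have hloc : LocallyIntegrableOn w₃ (V ∪ (Ω \ F)) :=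
    emb_loc_union hV hFo hW.intu (h.intu.mono_set sdiff_subset) hw₃V
      (fun x hx => Set.piecewise_eq_of_notMem _ _ _ hx.2)
  have s3 : IsSBVGrad Ω w₃ G₃ := by
    have := emb_sbv_union hV hFo hloc s1 s2
    rwa [hcover] at this
  rw [hcover] at hloc
  have key := h.min w₃ G₃ F hloc s3 hF (hFV.trans hVΩ) (fun x _ hxF =>
    Set.piecewise_eq_of_notMem _ _ _ hxF)
  rw [emb_cen_inter hFV, h.cen_eq (hFV.trans hVΩ)]
  refine key.trans ?_
  rw [cen]
  refine add_le_add ?_ ?_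
  · have e1 : ∫⁻ x in F, ‖G₃ x‖ₑ ^ 2 = ∫⁻ x in F, ‖G x‖ₑ ^ 2 := by
      refine setLIntegral_congr_fun hF.measurableSet fun x hx => ?_
      rw [hG₃V x (hFV hx)]
    rw [e1, hGdef, emb_lint hw.isOpen_off hFV]
    refine setLIntegral_mono' (hF.measurableSet.diff hw.measurableSet) fun x hx => ?_
    rw [hcgr x ⟨hFV hx.1, hx.2⟩, enorm_mul]
    have h1 : ‖((deriv κ (w x) : ℝ) : ℂ)‖ₑ ≤ 1 := by
      rw [← ofReal_norm, Complex.norm_real, Real.norm_of_nonneg (hκ1 _).1]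
      exact ENNReal.ofReal_le_one.2 (hκ1 _).2
    gcongr
    calc ‖((deriv κ (w x) : ℝ) : ℂ)‖ₑ * ‖cgr w x‖ₑ ≤ 1 * ‖cgr w x‖ₑ := by gcongr
      _ = _ := one_mul _
  · refine measure_mono ?_
    rintro x ⟨hx1, hx2⟩
    refine ⟨hWd ⟨hFV hx2, ?_⟩, hx2⟩
    rintro ⟨z, hz⟩
    refine hx1.2 ⟨z, ?_⟩
    refine IsApproxLim.congr_ae (hV.mem_nhds (hFV hx2)) ?_ hz
    filter_upwards [ae_restrict_mem hV.measurableSet] with y hy
    exact (hw₃V y hy).symm

/-- Step D: where `u` is bounded, the pair `(u, K)` is a topological minimizer. -/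
theorem EmbData.tmin (h : EmbData Ω K u g j) {V : Set ℂ} (hV : IsOpen V) (hVΩ : V ⊆ Ω) {T : ℝ}
    (huT : ∀ x ∈ V, |u x| ≤ T) : TMin V u (fun _ => ∅) (V ∩ K) := by
  have hVK : V \ (V ∩ K) = V ∩ (Ω \ K) := by
    ext x
    constructor
    · rintro ⟨h1, h2⟩
      exact ⟨h1, hVΩ h1, fun h3 => h2 ⟨h1, h3⟩⟩
    · rintro ⟨h1, h2⟩
      exact ⟨h1, fun h3 => h2.2 h3.2⟩
  have hc := h.tconf
  refine { isOpen := hV
           sub := inter_subset_left
           isOpen_off := by rw [hVK]; exact hV.inter h.rel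
           smooth := by rw [hVK]; exact h.smooth.mono inter_subset_right
           lab := fun x _ => Eventually.of_forall fun y => rfl
           fin := ?_
           hol := by rw [hVK]; exact h.hol.mono inter_subset_right
           dens := ?_
           min := ?_ }
  · intro C hC hCV
    rw [emb_cen_inter hCV]
    exact hc.fin C hC (hCV.trans hVΩ)
  · intro x hx r hr hball
    rw [emb_cen_inter (ball_subset_closedBall.trans hball)]
    exact h.dens x hx.2 r hr (hball.trans hVΩ)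
  · intro w l' K' F hw hF hFV hK' hwu
    refine h.le hV hVΩ (T := max T 1) (by positivity) (fun x hx => (huT x hx).trans
      (le_max_left _ _)) hw hF hFV hK' (fun x hx hxK => (hwu x hx hxK).1)

end

end Pool.Agent.MP099f24
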