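import Mathlib
import Pool.Agent.Lib.MP_099f24_an.ST.EmbB
import Pool.Agent.Lib.MP_099f24_an.ST.EmbD

/-!
# MP_099f24_an, EMB: truncation inside a good circle
-/

namespace Pool.Agent.MP099f24

open MeasureTheory Filter Topology Set Metric
open scoped ENNReal NNReal ContDiff

section

variable {Ω K : Set ℂ} {u : ℂ → ℝ} {g j : ℂ → ℂ}

theorem emb_enn {a b a' b' d e : ℝ≥0∞} (hd : d ≠ ⊤) (he : e ≠ ⊤)
    (h : (a + d) + (b + e) ≤ (a' + d) + (b' + e)) : a + b ≤ a' + b' := by
  have h1 : (a + b) + (d + e) ≤ (a' + b') + (d + e) := by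
    calc (a + b) + (d + e) = (a + d) + (b + e) := by ring
      _ ≤ (a' + d) + (b' + e) := h
      _ = _ := by ring
  exact (ENNReal.add_le_add_iff_right (ENNReal.add_ne_top.2 ⟨hd, he⟩)).1 h1

/-- minimality is transported to the truncated function -/
theorem emb_min_transport (h : EmbData Ω K u g j) {û : ℂ → ℝ} {B : Set ℂ} (hB : IsCompact B)
    (hBΩ : B ⊆ Ω) (hout : ∀ x, x ∉ B → û x = u x) (hui : LocallyIntegrableOn û Ω)
    (hsbv : IsSBVGrad Ω û g) (hd : discSet Ω û ⊆ K)
    (hn : (μH[1] : Measure ℂ) (K \ discSet Ω û) = 0)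
    {w : ℂ → ℝ} {k : ℂ → ℂ} {C : Set ℂ} (hwi : LocallyIntegrableOn w Ω) (hk : IsSBVGrad Ω w k)
    (hC : IsCompact C) (hCΩ : C ⊆ Ω) (hwu : ∀ x ∈ Ω, x ∉ C → w x = û x) :
    (∫⁻ x in C, ‖g x‖ₑ ^ 2) + (μH[1] : Measure ℂ) (discSet Ω û ∩ C) ≤
      (∫⁻ x in C, ‖k x‖ₑ ^ 2) + (μH[1] : Measure ℂ) (discSet Ω w ∩ C) := by
  have hCm := hC.measurableSet
  set C' := C ∪ B with hC'
  have hC'c : IsCompact C' := hC.union hB
  have hC'Ω : C' ⊆ Ω := union_subset hCΩ hBΩ
  have h1 := h.min w k C' hwi hk hC'c hC'Ω (fun x hx hxC' => by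
    rw [hwu x hx (fun h2 => hxC' (Or.inl h2)), hout x (fun h2 => hxC' (Or.inr h2))])
  have hVo : IsOpen (Ω \ C) := h.isOpen.sdiff hC.isClosed
  have hgk := rep_grad_ae h.isOpen hVo sdiff_subset hui hsbv hk (by
    filter_upwards [ae_restrict_mem h.isOpen.measurableSet] with x hx hxV
    exact hwu x hx hxV.2)
  have hSw : ∀ x ∈ Ω \ C, (x ∈ discSet Ω w ↔ x ∈ discSet Ω û) := by
    intro x hx
    refine rep_discSet_iff hVo ?_ hx
    filter_upwards [ae_restrict_mem hVo.measurableSet] with y hy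
    exact hwu y hy.1 hy.2
  set D := C' \ C with hD
  have hDm : MeasurableSet D := hC'c.measurableSet.diff hCm
  have hDΩ : D ⊆ Ω \ C := fun x hx => ⟨hC'Ω hx.1, hx.2⟩
  have hCC' : C' ∩ C = C := inter_eq_right.2 subset_union_left
  have l1 : ∀ f : ℂ → ℝ≥0∞, ∫⁻ x in C', f x = (∫⁻ x in C, f x) + ∫⁻ x in D, f x := by
    intro f
    have := lintegral_inter_add_sdiff (μ := (volume : Measure ℂ)) f C' hCm
    rw [hCC'] at this
    exact this.symm
  have l2 : ∀ S : Set ℂ, (μH[1] : Measure ℂ) (S ∩ C') =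
      (μH[1] : Measure ℂ) (S ∩ C) + (μH[1] : Measure ℂ) (S ∩ D) := by
    intro S
    have := measure_inter_add_sdiff (μ := (μH[1] : Measure ℂ)) (S ∩ C') hCm
    rw [← this, inter_assoc, hCC']
    congr 2
    ext x
    constructor
    · rintro ⟨⟨h2, h3⟩, h4⟩
      exact ⟨h2, h3, h4⟩
    · rintro ⟨h2, h3, h4⟩
      exact ⟨⟨h2, h3⟩, h4⟩
  have e1 : ∫⁻ x in D, ‖k x‖ₑ ^ 2 = ∫⁻ x in D, ‖g x‖ₑ ^ 2 := by
    refine lintegral_congr_ae ?_
    filter_upwards [ae_restrict_of_ae hgk, ae_restrict_mem hDm] with x h2 h3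
    rw [h2 (hDΩ h3)]
  have e2 : discSet Ω w ∩ D = discSet Ω û ∩ D := by
    ext x
    constructor
    · rintro ⟨h2, h3⟩
      exact ⟨(hSw x (hDΩ h3)).1 h2, h3⟩
    · rintro ⟨h2, h3⟩
      exact ⟨(hSw x (hDΩ h3)).2 h2, h3⟩
  have e3 : ∀ A : Set ℂ, (μH[1] : Measure ℂ) (discSet Ω u ∩ A) =
      (μH[1] : Measure ℂ) (discSet Ω û ∩ A) := by
    intro A
    rw [← emb_haus h.disc h.null A, ← emb_haus hd hn A]
  rw [l1, l1, l2, l2, e1, e2, e3, e3] at h1
  refine emb_enn ?_ ?_ h1
  · have h2 : ∫⁻ x in D, ‖g x‖ₑ ^ 2 ≤ ∫⁻ x in C', ‖g x‖ₑ ^ 2 := lintegral_mono_set sdiff_subset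
    rw [tm_lint_eq (h.fin_g C' hC'c hC'Ω)] at h2
    exact ne_top_of_le_ne_top ENNReal.ofReal_ne_top h2
  · rw [← e3]
    exact ne_top_of_le_ne_top (h.fin_S C' hC'c hC'Ω).ne
      (measure_mono (inter_subset_inter_right _ sdiff_subset))

theorem EmbData.clip_core (h : EmbData Ω K u g j) {a : ℂ} {s : ℝ}
    (hcB : closedBall a s ⊆ Ω) {κ : ℝ → ℝ} (hκ : ContDiff ℝ ∞ κ) {T : ℝ}
    (hκT : ∀ t, |t| ≤ T → κ t = t) (hκ1 : ∀ t, 0 ≤ deriv κ t ∧ deriv κ t ≤ 1)
    (hbd : ∀ x ∈ sphere a s, x ∉ K → |u x| < T)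
    {v : ℂ → ℝ} (hv : v = (Ω \ K).indicator (fun x => κ (u x)))
    (hloc : LocallyIntegrableOn (glued a s v u) Ω)
    (hsbv : IsSBVGrad Ω (glued a s v u)
      (glued a s ((Ω \ K).indicator (cgr (fun x => κ (u x)))) g)) :
    ∃ j', EmbData Ω K (glued a s v u) g j' := by
  have hcBm : MeasurableSet (closedBall a s) := isClosed_closedBall.measurableSet
  have hcBc : IsCompact (closedBall a s) := isCompact_closedBall a s
  set û := glued a s v u with hû
  set gv : ℂ → ℂ := (Ω \ K).indicator (cgr (fun x => κ (u x))) with hgv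
  have hsmκ : ContDiffOn ℝ 1 (fun x => κ (u x)) (Ω \ K) :=
    (hκ.of_le (by simp)).comp_contDiffOn h.smooth
  have hcv : ∀ x ∈ Ω \ K, cgr (fun y => κ (u y)) x = ((deriv κ (u x) : ℝ) : ℂ) * cgr u x := by
    intro x hx
    exact cgr_comp (h.tconf.diffAt hx.1 hx.2) ((hκ.differentiable (by simp)) (u x))
  have hvin : ∀ x ∈ Ω \ K, v x = κ (u x) := fun x hx => by rw [hv, indicator_of_mem hx]
  have hvout : ∀ x, x ∉ Ω \ K → v x = 0 := fun x hx => by rw [hv, indicator_of_notMem hx]
  have hderiv : ∀ t, |t| < T → deriv κ t = 1 := by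
    intro t ht
    have h1 : κ =ᶠ[𝓝 t] fun y => y := by
      have h2 : ∀ᶠ y in 𝓝 t, |y| < T := (continuous_abs.tendsto t).eventually_lt_const ht
      filter_upwards [h2] with y hy
      exact hκT y hy.le
    rw [h1.deriv_eq]
    simp
  -- local descriptions of `û`
  have hnear_in : ∀ x ∈ Ω \ K, dist x a < s → û =ᶠ[𝓝 x] fun y => κ (u y) := by
    intro x hx hxs
    filter_upwards [h.rel.mem_nhds hx, isOpen_ball.mem_nhds (mem_ball.2 hxs)] with y hy hyb
    rw [hû, glue_in (mem_ball.1 hyb).le, hvin y hy]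
  have hnear_out : ∀ x, s < dist x a → û =ᶠ[𝓝 x] u := by
    intro x hxs
    have h1 : x ∉ closedBall a s := fun h2 => absurd (mem_closedBall.1 h2) (not_le.2 hxs)
    filter_upwards [isClosed_closedBall.isOpen_compl.mem_nhds h1] with y hy
    exact glue_out (fun h2 => hy (mem_closedBall.2 h2))
  have hcont : ∀ x ∈ Ω \ K, ContinuousAt u x := fun x hx =>
    (h.smooth.contDiffAt (h.rel.mem_nhds hx)).continuousAt
  have hnear_sph : ∀ x ∈ Ω \ K, dist x a = s → û =ᶠ[𝓝 x] u := by
    intro x hx hxs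
    have h1 : |u x| < T := hbd x hxs hx.2
    have h2 : ∀ᶠ y in 𝓝 x, |u y| < T := (hcont x hx).abs.eventually_lt_const h1
    filter_upwards [h.rel.mem_nhds hx, h2] with y hy hy2
    by_cases hyd : dist y a ≤ s
    · rw [hû, glue_in hyd, hvin y hy, hκT _ hy2.le]
    · rw [hû, glue_out hyd]
  have hsm : ContDiffOn ℝ 1 û (Ω \ K) := by
    intro x hx
    refine ContDiffAt.contDiffWithinAt ?_
    rcases lt_trichotomy (dist x a) s with h1 | h1 | h1
    · exact (hsmκ.contDiffAt (h.rel.mem_nhds hx)).congr_of_eventuallyEq (hnear_in x hx h1)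
    · exact (h.smooth.contDiffAt (h.rel.mem_nhds hx)).congr_of_eventuallyEq (hnear_sph x hx h1)
    · exact (h.smooth.contDiffAt (h.rel.mem_nhds hx)).congr_of_eventuallyEq (hnear_out x h1)
  have hzero : ∀ x, x ∉ Ω \ K → û x = 0 := by
    intro x hx
    by_cases hxd : dist x a ≤ s
    · rw [hû, glue_in hxd, hvout x hx]
    · rw [hû, glue_out hxd, h.zero x hx]
  have hdisc : discSet Ω û ⊆ K := by
    rintro x ⟨hxΩ, hx⟩
    by_contra hxK
    exact hx ⟨_, isApproxLim_of_continuousAt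
      (hsm.contDiffAt (h.rel.mem_nhds ⟨hxΩ, hxK⟩)).continuousAt⟩
  -- comparison
  have hle : ∀ x, ‖glued a s gv g x‖ₑ ^ 2 ≤ ‖g x‖ₑ ^ 2 := by
    intro x
    by_cases hxd : dist x a ≤ s
    · rw [glue_in hxd]
      by_cases hx : x ∈ Ω \ K
      · rw [hgv, indicator_of_mem hx, hcv x hx, h.grad, indicator_of_mem hx, enorm_mul]
        have h1 : ‖((deriv κ (u x) : ℝ) : ℂ)‖ₑ ≤ 1 := by
          rw [← ofReal_norm, Complex.norm_real, Real.norm_of_nonneg (hκ1 _).1]
          exact ENNReal.ofReal_le_one.2 (hκ1 _).2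
        gcongr
        calc ‖((deriv κ (u x) : ℝ) : ℂ)‖ₑ * ‖cgr u x‖ₑ ≤ 1 * ‖cgr u x‖ₑ := by gcongr
          _ = _ := one_mul _
      · rw [hgv, indicator_of_notMem hx]
        simp
    · rw [glue_out hxd]
  have key := h.min û (glued a s gv g) (closedBall a s) hloc hsbv hcBc hcB (fun x _ hx =>
    glue_out (fun h2 => hx (mem_closedBall.2 h2)))
  have hA1 : ∫⁻ x in closedBall a s, ‖g x‖ₑ ^ 2 ≠ ⊤ := by
    rw [tm_lint_eq (h.fin_g _ hcBc hcB)]
    exact ENNReal.ofReal_ne_top
  have hB1 : (μH[1] : Measure ℂ) (discSet Ω u ∩ closedBall a s) ≠ ⊤ := (h.fin_S _ hcBc hcB).ne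
  have hA2 : ∫⁻ x in closedBall a s, ‖glued a s gv g x‖ₑ ^ 2 ≤
      ∫⁻ x in closedBall a s, ‖g x‖ₑ ^ 2 := lintegral_mono fun x => hle x
  have hB2 : (μH[1] : Measure ℂ) (discSet Ω û ∩ closedBall a s) ≤
      (μH[1] : Measure ℂ) (discSet Ω u ∩ closedBall a s) := by
    rw [← emb_haus h.disc h.null]
    exact measure_mono (inter_subset_inter_left _ hdisc)
  have hA3 : ∫⁻ x in closedBall a s, ‖g x‖ₑ ^ 2 ≤
      ∫⁻ x in closedBall a s, ‖glued a s gv g x‖ₑ ^ 2 := by
    have h1 := key.trans (add_le_add le_rfl hB2)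
    exact (ENNReal.add_le_add_iff_right hB1).1 h1
  have hB3 : (μH[1] : Measure ℂ) (discSet Ω u ∩ closedBall a s) ≤
      (μH[1] : Measure ℂ) (discSet Ω û ∩ closedBall a s) := by
    have h1 := key.trans (add_le_add hA2 le_rfl)
    exact (ENNReal.add_le_add_iff_left hA1).1 h1
  -- the gradients agree
  have hgm := h.meas_g
  have hae1 : ∀ᵐ x ∂volume.restrict (closedBall a s),
      ‖glued a s gv g x‖ₑ ^ 2 = ‖g x‖ₑ ^ 2 :=
    ae_eq_of_ae_le_of_lintegral_le (Eventually.of_forall fun x => hle x)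
      (ne_top_of_le_ne_top hA1 hA2) (hgm.enorm.pow_const 2).aemeasurable hA3
  have hae2 : ∀ᵐ x ∂volume.restrict (closedBall a s), glued a s gv g x = g x := by
    filter_upwards [hae1, ae_restrict_mem hcBm] with x hx hxd
    rw [glue_in (mem_closedBall.1 hxd)] at hx ⊢
    by_cases hxK : x ∈ Ω \ K
    · rw [hgv, indicator_of_mem hxK, hcv x hxK, h.grad, indicator_of_mem hxK] at hx ⊢
      rcases eq_or_ne (cgr u x) 0 with h0 | h0
      · rw [h0, mul_zero]
      · have h1 : ‖((deriv κ (u x) : ℝ) : ℂ) * cgr u x‖ = ‖cgr u x‖ := by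
          have h2 := (ENNReal.pow_right_strictMono (n := 2) (by norm_num)).injective hx
          rw [← ofReal_norm, ← ofReal_norm] at h2
          exact (ENNReal.ofReal_eq_ofReal_iff (norm_nonneg _) (norm_nonneg _)).1 h2
        rw [norm_mul, Complex.norm_real, Real.norm_of_nonneg (hκ1 _).1] at h1
        have h3 : deriv κ (u x) = 1 := by
          have h4 := norm_pos_iff.2 h0
          nlinarith
        rw [h3]
        simp
    · rw [hgv, indicator_of_notMem hxK, h.grad, indicator_of_notMem hxK]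
  have hcU : ContinuousOn (cgr û) (Ω \ K) :=
    cgrL_continuous.comp_continuousOn (hsm.continuousOn_fderiv_of_isOpen h.rel le_rfl)
  have hcu : ContinuousOn (cgr u) (Ω \ K) :=
    cgrL_continuous.comp_continuousOn (h.smooth.continuousOn_fderiv_of_isOpen h.rel le_rfl)
  have hcgr : ∀ x ∈ Ω \ K, cgr û x = cgr u x := by
    intro x hx
    rcases lt_trichotomy (dist x a) s with h1 | h1 | h1
    · have hOo : IsOpen (ball a s ∩ (Ω \ K)) := isOpen_ball.inter h.rel
      have h2 : cgr û =ᵐ[volume.restrict (ball a s ∩ (Ω \ K))] cgr u := by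
        have h3 : ∀ᵐ y ∂volume.restrict (ball a s ∩ (Ω \ K)), glued a s gv g y = g y :=
          ae_restrict_of_ae_restrict_of_subset
            (inter_subset_left.trans ball_subset_closedBall) hae2
        filter_upwards [h3, ae_restrict_mem hOo.measurableSet] with y hy hy2
        have h4 : cgr û y = gv y := by
          rw [hgv, indicator_of_mem hy2.2]
          exact cgr_congr (hnear_in y hy2.2 (mem_ball.1 hy2.1))
        rw [glue_in (mem_ball.1 hy2.1).le, h.grad, indicator_of_mem hy2.2] at hy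
        rw [h4, hy]
      exact Measure.eqOn_open_of_ae_eq h2 hOo (hcU.mono inter_subset_right)
        (hcu.mono inter_subset_right) ⟨mem_ball.2 h1, hx⟩
    · exact cgr_congr (hnear_sph x hx h1)
    · exact cgr_congr (hnear_out x h1)
  have hae3 : ∀ᵐ x ∂volume.restrict Ω, g x = glued a s gv g x := by
    rw [ae_restrict_iff' hcBm] at hae2
    filter_upwards [ae_restrict_of_ae hae2] with x hx
    by_cases hxd : dist x a ≤ s
    · exact (hx (mem_closedBall.2 hxd)).symm
    · rw [glue_out hxd]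
  have hsbv' : IsSBVGrad Ω û g := emb_sbv_congr h.isOpen hloc hsbv
    (Eventually.of_forall fun x => rfl) hae3
  -- the length
  have hSm : MeasurableSet (discSet Ω û) := measurableSet_discSet h.isOpen hloc
  have hnull : (μH[1] : Measure ℂ) (K \ discSet Ω û) = 0 := by
    have h1 : K \ discSet Ω û ⊆ ((K ∩ closedBall a s) \ discSet Ω û) ∪ (K \ discSet Ω u) := by
      rintro x ⟨hxK, hx⟩
      by_cases hxd : x ∈ closedBall a s
      · exact Or.inl ⟨⟨hxK, hxd⟩, hx⟩
      · refine Or.inr ⟨hxK, fun h2 => hx ?_⟩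
        have h3 : s < dist x a := not_le.1 fun h4 => hxd (mem_closedBall.2 h4)
        refine ⟨h2.1, ?_⟩
        rintro ⟨z, hz⟩
        refine h2.2 ⟨z, ?_⟩
        have h4 := hnear_out x h3
        obtain ⟨U, hU, hUe⟩ := eventually_iff_exists_mem.1 h4
        obtain ⟨O, hOU, hO, hxO⟩ := _root_.mem_nhds_iff.1 hU
        refine IsApproxLim.congr_ae (hO.mem_nhds hxO) ?_ hz
        filter_upwards [ae_restrict_mem hO.measurableSet] with y hy
        exact hUe y (hOU hy)
    have h2 : (μH[1] : Measure ℂ) ((K ∩ closedBall a s) \ discSet Ω û) = 0 := by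
      have h3 := measure_inter_add_sdiff (μ := (μH[1] : Measure ℂ)) (K ∩ closedBall a s) hSm
      have h4 : K ∩ closedBall a s ∩ discSet Ω û = discSet Ω û ∩ closedBall a s := by
        ext x
        constructor
        · rintro ⟨⟨_, h5⟩, h6⟩
          exact ⟨h6, h5⟩
        · rintro ⟨h5, h6⟩
          exact ⟨⟨hdisc h5, h6⟩, h5⟩
      rw [h4, emb_haus h.disc h.null] at h3
      have h5 : (μH[1] : Measure ℂ) (discSet Ω û ∩ closedBall a s) =
          (μH[1] : Measure ℂ) (discSet Ω u ∩ closedBall a s) := le_antisymm hB2 hB3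
      rw [h5] at h3
      have h6 : (μH[1] : Measure ℂ) (discSet Ω u ∩ closedBall a s) +
          (μH[1] : Measure ℂ) ((K ∩ closedBall a s) \ discSet Ω û) =
          (μH[1] : Measure ℂ) (discSet Ω u ∩ closedBall a s) + 0 := by rw [h3, add_zero]
      exact (ENNReal.add_right_inj hB1).1 h6
    exact measure_mono_null h1 (measure_union_null h2 h.null)
  have hvm : Measurable v := by
    rw [hv]
    exact emb_measurable_indicator h.rel hsmκ.continuousOn
  have hûm : Measurable û := by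
    classical
    have h1 : û = (closedBall a s).piecewise v u := by
      ext y
      by_cases hy : dist y a ≤ s
      · rw [hû, glue_in hy, Set.piecewise_eq_of_mem _ _ _ (mem_closedBall.2 hy)]
      · rw [hû, glue_out hy, Set.piecewise_eq_of_notMem _ _ _ (fun h4 => hy (mem_closedBall.1 h4))]
    rw [h1]
    exact hvm.piecewise hcBm h.meas_u
  obtain ⟨hgi, j', hj', hji, hform⟩ := id hsbv'
  refine ⟨j', ?_⟩
  refine { isOpen := h.isOpen
           meas_u := hûm
           meas_g := h.meas_g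
           intu := hloc
           intg := h.intg
           jf := hj'
           intj := hji
           form := hform
           fin_g := h.fin_g
           fin_S := fun C hC hCΩ => (measure_mono (inter_subset_inter_left _ hdisc)).trans_lt
             (h.tconf.haus_lt hC hCΩ)
           min := fun w k C hwi hk hC hCΩ hwu => emb_min_transport h hcBc hcB
             (fun x hx => glue_out (fun h4 => hx (mem_closedBall.2 h4))) hloc hsbv' hdisc hnull
             hwi hk hC hCΩ hwu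
           sub := h.sub
           rel := h.rel
           disc := hdisc
           null := hnull
           smooth := hsm
           zero := hzero
           grad := ?_
           hol := ?_
           dens := ?_ }
  · rw [h.grad]
    ext x
    by_cases hx : x ∈ Ω \ K
    · rw [indicator_of_mem hx, indicator_of_mem hx, hcgr x hx]
    · rw [indicator_of_notMem hx, indicator_of_notMem hx]
  · refine h.hol.congr fun x hx => ?_
    rw [hcgr x hx]
  · intro x hx r hr hball
    refine (h.dens x hx r hr hball).trans (le_of_eq ?_)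
    have hbΩ : ball x r ⊆ Ω := ball_subset_closedBall.trans hball
    rw [cen, cen]
    congr 1
    refine setLIntegral_congr_fun (measurableSet_ball.diff h.tconf.measurableSet) fun y hy => ?_
    rw [hcgr y ⟨hbΩ hy.1, hy.2⟩]

end

end Pool.Agent.MP099f24
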