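import Mathlib
import Pool.Agent.Lib.MP_099f24_an.ST.EmbE

/-!
# MP_099f24_an, EMB: local minimizers of the Mumford-Shah energy are, locally, topological
minimizers
-/

namespace Pool.Agent.MP099f24

open MeasureTheory Filter Topology Set Metric
open scoped ENNReal NNReal ContDiff

section

variable {Ω K : Set ℂ} {u : ℂ → ℝ} {g j : ℂ → ℂ}

theorem EmbData.clip_aux (h : EmbData Ω K u g j) {a : ℂ} {R : ℝ} (hR0 : 0 < R)
    (hR : ball a R ⊆ Ω) :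
    ∃ s : ℝ, R / 2 < s ∧ closedBall a s ⊆ Ω ∧ ∃ (κ : ℝ → ℝ) (T : ℝ) (u' : ℂ → ℝ) (j' : ℂ → ℂ),
      ContDiff ℝ ∞ κ ∧ (∀ t, 0 ≤ deriv κ t ∧ deriv κ t ≤ 1) ∧
      EmbData Ω K u' g j' ∧ (∀ x ∈ ball a s, |u' x| ≤ T) ∧ (∀ x, |u' x| ≤ |u x|) ∧
      ∀ x ∈ ball a s, x ∉ K → u' x = κ (u x) := by
  choose κ hκ hκT hκ1 hκb using fun N : ℕ => emb_trunc (T := (N : ℝ) + 1) (by positivity)
  have hst : ∀ N : ℕ, ∃ jv, SBVData Ω ((Ω \ K).indicator (fun x => κ N (u x)))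
      ((Ω \ K).indicator (cgr (fun x => κ N (u x)))) jv := fun N =>
    (emb_struct (emb_comp_tconf h.tconf (hκ N) (hκ1 N)).1 (M := (N : ℝ) + 1 + 1)
      (fun x _ => hκb N _)).1
  choose jv hjv using hst
  have hgl : ∀ᵐ s ∂(volume.restrict (Ioo 0 R)), ∀ N : ℕ, ∀ Z : Set ℂ, Z.Finite →
      (∀ x ∈ sphere a s, x ∉ Z → (Ω \ K).indicator (fun x => κ N (u x)) x = u x ∧
        (∃ z, IsApproxLim ((Ω \ K).indicator (fun x => κ N (u x))) x z) ∧
        ∃ z, IsApproxLim (glued a s ((Ω \ K).indicator (fun x => κ N (u x))) u) x z) →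
      LocallyIntegrableOn (glued a s ((Ω \ K).indicator (fun x => κ N (u x))) u) Ω ∧
      IsSBVGrad Ω (glued a s ((Ω \ K).indicator (fun x => κ N (u x))) u)
        (glued a s ((Ω \ K).indicator (cgr (fun x => κ N (u x)))) g) := by
    rw [ae_all_iff]
    exact fun N => emb_glue h.toSBVData (hjv N) hR
  have hne : (ae (volume.restrict (Ioo (R / 2) R))).NeBot := by
    rw [ae_neBot, Ne, Measure.restrict_eq_zero, Real.volume_Ioo]
    exact (ENNReal.ofReal_pos.2 (by linarith)).ne'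
  have hsubI : Ioo (R / 2) R ⊆ Ioo 0 R := Ioo_subset_Ioo_left (by linarith)
  obtain ⟨s, ⟨⟨hfin, T₀, hT₀⟩, hgs⟩, hs'⟩ :=
    ((ae_restrict_of_ae_restrict_of_subset hsubI ((emb_circle h.tconf hR).and hgl)).and
    (ae_restrict_mem measurableSet_Ioo)).exists
  have hs : s ∈ Ioo 0 R := hsubI hs'
  have hcB : closedBall a s ⊆ Ω := (closedBall_subset_ball hs.2).trans hR
  obtain ⟨N, hN⟩ := exists_nat_gt T₀
  have hbd : ∀ x ∈ sphere a s, x ∉ K → |u x| < (N : ℝ) + 1 := fun x hx hxK =>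
    (hT₀ x hx hxK).trans_lt (by linarith)
  set v : ℂ → ℝ := (Ω \ K).indicator (fun x => κ N (u x)) with hv
  have hcont : ∀ x ∈ Ω \ K, ContinuousAt u x := fun x hx =>
    (h.smooth.contDiffAt (h.rel.mem_nhds hx)).continuousAt
  have hsphΩ : sphere a s ⊆ Ω := sphere_subset_closedBall.trans hcB
  have hnear : ∀ x ∈ sphere a s, x ∉ K → v =ᶠ[𝓝 x] u := by
    intro x hx hxK
    have hxΩ : x ∈ Ω \ K := ⟨hsphΩ hx, hxK⟩
    have h2 : ∀ᶠ y in 𝓝 x, |u y| < (N : ℝ) + 1 :=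
      (hcont x hxΩ).abs.eventually_lt_const (hbd x hx hxK)
    filter_upwards [h.rel.mem_nhds hxΩ, h2] with y hy hy2
    rw [hv, indicator_of_mem hy, hκT N _ hy2.le]
  obtain ⟨hloc, hsbv⟩ := hgs N (K ∩ sphere a s) hfin (by
    intro x hx hxZ
    have hxK : x ∉ K := fun h1 => hxZ ⟨h1, hx⟩
    have hxΩ : x ∈ Ω \ K := ⟨hsphΩ hx, hxK⟩
    have h1 := hnear x hx hxK
    refine ⟨h1.self_of_nhds, ⟨u x, ?_⟩, ⟨u x, ?_⟩⟩
    · have h2 : ContinuousAt v x := (hcont x hxΩ).congr h1.symm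
      have h3 := isApproxLim_of_continuousAt h2
      rwa [h1.self_of_nhds] at h3
    · have h2 : glued a s v u =ᶠ[𝓝 x] u := by
        filter_upwards [h1] with y hy
        by_cases hyd : dist y a ≤ s
        · rw [glue_in hyd, hy]
        · rw [glue_out hyd]
      have h3 : ContinuousAt (glued a s v u) x := (hcont x hxΩ).congr h2.symm
      have h4 := isApproxLim_of_continuousAt h3
      rwa [h2.self_of_nhds] at h4)
  obtain ⟨j', hj'⟩ := h.clip_core hcB (hκ N) (hκT N) (hκ1 N) hbd rfl hloc hsbv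
  have h0 : κ N 0 = 0 := hκT N 0 (by rw [abs_zero]; positivity)
  have hlip : ∀ t, |κ N t| ≤ |t| := by
    intro t
    have h1 := Convex.norm_image_sub_le_of_norm_deriv_le (f := κ N) (s := univ) (x := 0) (y := t)
      (C := 1) (fun x _ => ((hκ N).differentiable (by simp)).differentiableAt)
      (fun x _ => by
        rw [Real.norm_eq_abs, abs_of_nonneg (hκ1 N x).1]
        exact (hκ1 N x).2) convex_univ (mem_univ _) (mem_univ _)
    rwa [h0, sub_zero, sub_zero, one_mul, Real.norm_eq_abs, Real.norm_eq_abs] at h1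
  have hvb : ∀ x, |v x| ≤ (N : ℝ) + 1 + 1 := by
    intro x
    by_cases hx : x ∈ Ω \ K
    · rw [hv, indicator_of_mem hx]
      exact hκb N _
    · rw [hv, indicator_of_notMem hx, abs_zero]
      positivity
  have hvu : ∀ x, |v x| ≤ |u x| := by
    intro x
    by_cases hx : x ∈ Ω \ K
    · rw [hv, indicator_of_mem hx]
      exact hlip _
    · rw [hv, indicator_of_notMem hx, abs_zero]
      exact abs_nonneg _
  refine ⟨s, hs'.1, hcB, κ N, (N : ℝ) + 1 + 1, glued a s v u, j', hκ N, hκ1 N, hj', ?_, ?_, ?_⟩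
  · intro x hx
    rw [glue_in (mem_ball.1 hx).le]
    exact hvb x
  · intro x
    by_cases hxd : dist x a ≤ s
    · rw [glue_in hxd]
      exact hvu x
    · rw [glue_out hxd]
  · intro x hx hxK
    rw [glue_in (mem_ball.1 hx).le, hv,
      indicator_of_mem (show x ∈ Ω \ K from ⟨hcB (ball_subset_closedBall hx), hxK⟩)]

theorem EmbData.clip (h : EmbData Ω K u g j) {a : ℂ} {R : ℝ} (hR0 : 0 < R) (hR : ball a R ⊆ Ω) :
    ∃ s : ℝ, R / 2 < s ∧ closedBall a s ⊆ Ω ∧ ∃ (T : ℝ) (u' : ℂ → ℝ) (j' : ℂ → ℂ),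
      EmbData Ω K u' g j' ∧ (∀ x ∈ ball a s, |u' x| ≤ T) ∧ ∀ x, |u' x| ≤ |u x| := by
  obtain ⟨s, h1, h2, κ, T, u', j', -, -, h3, h4, h5, -⟩ := h.clip_aux hR0 hR
  exact ⟨s, h1, h2, T, u', j', h3, h4, h5⟩

/-- Truncation on a ball: the new function is a smooth truncation of the old one. -/
theorem EmbData.clip' (h : EmbData Ω K u g j) {a : ℂ} {R : ℝ} (hR0 : 0 < R)
    (hR : ball a R ⊆ Ω) :
    ∃ s : ℝ, R / 2 < s ∧ closedBall a s ⊆ Ω ∧ ∃ (κ : ℝ → ℝ) (T : ℝ) (u' : ℂ → ℝ) (j' : ℂ → ℂ),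
      ContDiff ℝ ∞ κ ∧ (∀ t, 0 ≤ deriv κ t ∧ deriv κ t ≤ 1) ∧
      EmbData Ω K u' g j' ∧ (∀ x ∈ ball a s, |u' x| ≤ T) ∧
      ∀ x ∈ ball a s, x ∉ K → u' x = κ (u x) := by
  obtain ⟨s, h1, h2, κ, T, u', j', h3, h4, h5, h6, -, h7⟩ := h.clip_aux hR0 hR
  exact ⟨s, h1, h2, κ, T, u', j', h3, h4, h5, h6, h7⟩

/-- Truncation on a neighbourhood of a compact set. -/
theorem EmbData.clip_compact (h : EmbData Ω K u g j) {C : Set ℂ} (hC : IsCompact C)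
    (hCΩ : C ⊆ Ω) : ∃ (V : Set ℂ) (T : ℝ) (u' : ℂ → ℝ) (j' : ℂ → ℂ),
      IsOpen V ∧ C ⊆ V ∧ V ⊆ Ω ∧ EmbData Ω K u' g j' ∧ (∀ x ∈ V, |u' x| ≤ T) ∧
      ∀ x, |u' x| ≤ |u x| := by
  have key : (fun S : Set ℂ => ∀ (u : ℂ → ℝ) (j : ℂ → ℂ), EmbData Ω K u g j →
      ∃ (V : Set ℂ) (T : ℝ) (u' : ℂ → ℝ) (j' : ℂ → ℂ),
        IsOpen V ∧ S ⊆ V ∧ V ⊆ Ω ∧ EmbData Ω K u' g j' ∧ (∀ x ∈ V, |u' x| ≤ T) ∧
        ∀ x, |u' x| ≤ |u x|) C := by
    refine hC.induction_on (p := fun S : Set ℂ => ∀ (u : ℂ → ℝ) (j : ℂ → ℂ), EmbData Ω K u g j →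
      ∃ (V : Set ℂ) (T : ℝ) (u' : ℂ → ℝ) (j' : ℂ → ℂ),
        IsOpen V ∧ S ⊆ V ∧ V ⊆ Ω ∧ EmbData Ω K u' g j' ∧ (∀ x ∈ V, |u' x| ≤ T) ∧
        ∀ x, |u' x| ≤ |u x|) ?_ ?_ ?_ ?_
    · intro u j h
      exact ⟨∅, 0, u, j, isOpen_empty, subset_rfl, empty_subset _, h,
        fun x hx => absurd hx (notMem_empty x), fun x => le_rfl⟩
    · intro S S' hSS' hS' u j h
      obtain ⟨V, T, u', j', h1, h2, h3⟩ := hS' u j h
      exact ⟨V, T, u', j', h1, hSS'.trans h2, h3⟩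
    · intro S S' hS hS' u j h
      obtain ⟨V, T, u', j', h1, h2, h3, h4, h5, h6⟩ := hS u j h
      obtain ⟨V', T', u'', j'', h1', h2', h3', h4', h5', h6'⟩ := hS' u' j' h4
      refine ⟨V ∪ V', max T T', u'', j'', h1.union h1', union_subset_union h2 h2',
        union_subset h3 h3', h4', ?_, fun x => (h6' x).trans (h6 x)⟩
      rintro x (hx | hx)
      · exact ((h6' x).trans (h5 x hx)).trans (le_max_left _ _)
      · exact (h5' x hx).trans (le_max_right _ _)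
    · intro x hx
      obtain ⟨R, hR0, hR⟩ := Metric.isOpen_iff.1 h.isOpen x (hCΩ hx)
      refine ⟨ball x (R / 2), mem_nhdsWithin_of_mem_nhds (ball_mem_nhds x (by linarith)), ?_⟩
      intro u j h
      obtain ⟨s, hs, hcB, T, u', j', h4, h5, h6⟩ := h.clip hR0 hR
      exact ⟨ball x s, T, u', j', isOpen_ball, ball_subset_ball hs.le,
        ball_subset_closedBall.trans hcB, h4, h5, h6⟩
  exact key u j h

end

/-- EMB on a neighbourhood of a compact set. -/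
theorem emb_compact {Ω : Set ℂ} {u : ℂ → ℝ} {g j : ℂ → ℂ} (h : MSMin Ω u g j) {C : Set ℂ}
    (hC : IsCompact C) (hCΩ : C ⊆ Ω) :
    ∃ (V : Set ℂ) (u' : ℂ → ℝ), IsOpen V ∧ C ⊆ V ∧ V ⊆ Ω ∧
      (∀ V' : Set ℂ, IsOpen V' → V' ⊆ V →
        TMin V' u' (fun _ => ∅) (V' ∩ closure (discSet Ω u))) ∧
      ∀ᵐ y ∂volume.restrict Ω, cgr u' y = g y := by
  obtain ⟨u₀, g₀, h0, hg₀⟩ := emb_init h
  obtain ⟨V, T, u', j', h1, h2, h3, h4, h5, -⟩ := h0.clip_compact hC hCΩ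
  refine ⟨V, u', h1, h2, h3, ?_, ?_⟩
  · intro V' hV' hV'V
    have h6 := h4.tmin hV' (hV'V.trans h3) (fun x hx => h5 x (hV'V hx))
    have h7 : V' ∩ (Ω ∩ closure (discSet Ω u)) = V' ∩ closure (discSet Ω u) := by
      rw [← inter_assoc, inter_eq_left.2 (hV'V.trans h3)]
    rwa [h7] at h6
  · have hK0 : volume (Ω ∩ closure (discSet Ω u)) = 0 := emb_volume h
    have h8 : ∀ᵐ x : ℂ, x ∉ Ω ∩ closure (discSet Ω u) := measure_eq_zero_iff_ae_notMem.1 hK0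
    filter_upwards [hg₀, ae_restrict_of_ae h8, ae_restrict_mem h.isOpen.measurableSet]
      with y hy1 hy2 hy3
    rw [h4.grad, indicator_of_mem (show y ∈ Ω \ (Ω ∩ closure (discSet Ω u)) from
      ⟨hy3, hy2⟩)] at hy1
    exact hy1

/-- EMB: local minimizers are, locally, topological minimizers. -/
theorem emb_ms {Ω : Set ℂ} {u : ℂ → ℝ} {g j : ℂ → ℂ} (h : MSMin Ω u g j) {x : ℂ} (hx : x ∈ Ω) :
    ∃ r > 0, ball x r ⊆ Ω ∧ ∃ u' : ℂ → ℝ,
      TMin (ball x r) u' (fun _ => ∅) (ball x r ∩ closure (discSet Ω u)) ∧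
      ∀ᵐ y ∂volume.restrict (ball x r), cgr u' y = g y := by
  obtain ⟨V, u', h1, h2, h3, h4, h5⟩ := emb_compact h isCompact_singleton
    (singleton_subset_iff.2 hx)
  obtain ⟨r, hr, hrV⟩ := Metric.isOpen_iff.1 h1 x (singleton_subset_iff.1 h2)
  exact ⟨r, hr, hrV.trans h3, u', h4 _ isOpen_ball hrV,
    ae_restrict_of_ae_restrict_of_subset (hrV.trans h3) h5⟩

end Pool.Agent.MP099f24
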