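import Mathlib

/-!
# MP_099f24_an, STRUCT package: the `L¹` Poincare inequality on convex sets
-/

namespace Pool.Agent.MP099f24

open MeasureTheory Filter Topology Set Metric
open scoped ENNReal NNReal ContDiff

theorem str_scale {F : ℂ → ℝ≥0∞} (hF : Measurable F) {c : ℝ} (hc : 1 / 2 ≤ c) (p : ℂ) :
    ∫⁻ z, F (p + c • z) ≤ 4 * ∫⁻ z, F z := by
  have hc0 : c ≠ 0 := by linarith
  have h1 : ∫⁻ z, F (p + c • z) = ∫⁻ z, F (p + z) ∂(Measure.map (c • ·) (volume : Measure ℂ)) := by
    have hm : Measurable fun z : ℂ => F (p + z) := hF.comp (measurable_const_add p)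
    rw [lintegral_map hm (measurable_const_smul c)]
  rw [h1, Measure.map_addHaar_smul _ hc0, lintegral_smul_measure,
    lintegral_add_left_eq_self (μ := volume) F p, Complex.finrank_real_complex]
  have h2 : ENNReal.ofReal |(c ^ 2)⁻¹| ≤ 4 := by
    rw [show (4 : ℝ≥0∞) = ENNReal.ofReal 4 by simp]
    refine ENNReal.ofReal_le_ofReal ?_
    rw [abs_of_nonneg (by positivity)]
    rw [inv_le_comm₀ (by positivity) (by norm_num)]
    nlinarith
  rw [smul_eq_mul]
  gcongr

theorem str_mem {U : Set ℂ} (hU : Convex ℝ U) {y z : ℂ} (hy : y ∈ U) (hz : z ∈ U) {t : ℝ}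
    (ht : t ∈ Icc (0 : ℝ) 1) : z + t • (y - z) ∈ U := by
  have h1 := hU hz hy (sub_nonneg.2 ht.2) ht.1 (by ring)
  have h2 : z + t • (y - z) = (1 - t) • z + t • y := by
    simp only [Complex.real_smul]
    push_cast
    ring
  rwa [h2]

theorem str_ftc {U : Set ℂ} (hU : Convex ℝ U) {w : ℂ → ℝ} {L : ℝ≥0} (hL : LipschitzOnWith L w U)
    {g : ℂ → ℂ} {N : Set ℂ} (hw : ∀ x ∈ U, x ∉ N → HasFDerivAt w (innerSL ℝ (g x)) x)
    {y z : ℂ} (hy : y ∈ U) (hz : z ∈ U) {d : ℝ} (hd : ‖y - z‖ ≤ d) :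
    ‖w y - w z‖ₑ ≤ ENNReal.ofReal d * ∫⁻ t in Icc (0 : ℝ) 1,
      (‖g (z + t • (y - z))‖ₑ + N.indicator (fun _ => (L : ℝ≥0∞)) (z + t • (y - z))) := by
  have hd0 : 0 ≤ d := (norm_nonneg _).trans hd
  set f : ℝ → ℝ := fun t => w (z + t • (y - z)) with hf
  have hlip : LipschitzOnWith (L * d.toNNReal) f (Icc 0 1) := by
    refine LipschitzOnWith.of_dist_le_mul fun s hs t ht => ?_
    have h1 := hL.dist_le_mul _ (str_mem hU hy hz hs) _ (str_mem hU hy hz ht)
    refine h1.trans ?_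
    rw [dist_eq_norm, dist_eq_norm]
    have h2 : z + s • (y - z) - (z + t • (y - z)) = (s - t) • (y - z) := by
      simp only [Complex.real_smul]
      push_cast
      ring
    rw [h2, norm_smul, NNReal.coe_mul, Real.coe_toNNReal d hd0]
    calc (L : ℝ) * (‖s - t‖ * ‖y - z‖) ≤ L * (‖s - t‖ * d) := by gcongr
      _ = L * d * ‖s - t‖ := by ring
  have hac : AbsolutelyContinuousOnInterval f 0 1 := by
    refine LipschitzOnWith.absolutelyContinuousOnInterval (K := L * d.toNNReal) ?_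
    rwa [uIcc_of_le zero_le_one]
  have h4 := hac.integral_deriv_eq_sub
  have h5 : f 1 - f 0 = w y - w z := by simp [hf]
  rw [← h5, ← h4, intervalIntegral.integral_of_le zero_le_one, ← integral_Icc_eq_integral_Ioc,
    integral_Icc_eq_integral_Ioo]
  refine (enorm_integral_le_lintegral_enorm _).trans ?_
  rw [← lintegral_const_mul' _ _ ENNReal.ofReal_ne_top]
  calc ∫⁻ t in Ioo (0 : ℝ) 1, ‖deriv f t‖ₑ ≤ ∫⁻ t in Ioo (0 : ℝ) 1, ENNReal.ofReal d *
      (‖g (z + t • (y - z))‖ₑ + N.indicator (fun _ => (L : ℝ≥0∞)) (z + t • (y - z))) := by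
        refine setLIntegral_mono' measurableSet_Ioo fun t ht => ?_
        by_cases hN : z + t • (y - z) ∈ N
        · have h6 : ‖deriv f t‖ ≤ (L * d.toNNReal : ℝ≥0) :=
            norm_deriv_le_of_lipschitzOn (Icc_mem_nhds ht.1 ht.2) hlip
          calc ‖deriv f t‖ₑ ≤ ENNReal.ofReal (L * d.toNNReal : ℝ≥0) := by
                rw [← ofReal_norm]
                exact ENNReal.ofReal_le_ofReal h6
            _ = ENNReal.ofReal d * (L : ℝ≥0∞) := by
                rw [NNReal.coe_mul, Real.coe_toNNReal d hd0, mul_comm, ENNReal.ofReal_mul hd0,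
                  ENNReal.ofReal_coe_nnreal]
            _ ≤ _ := by
                rw [indicator_of_mem hN]
                gcongr
                exact le_add_self
        · have h1 := hw _ (str_mem hU hy hz (Ioo_subset_Icc_self ht)) hN
          have h2 : HasDerivAt (fun t : ℝ => z + t • (y - z)) (y - z) t := by
            have := ((hasDerivAt_id t).smul_const (y - z)).const_add z
            simpa using this
          have h3 : HasDerivAt f (innerSL ℝ (g (z + t • (y - z))) (y - z)) t :=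
            h1.comp_hasDerivAt t h2
          rw [h3.deriv, innerSL_apply_apply, indicator_of_notMem hN, add_zero, ← ofReal_norm,
            ← ofReal_norm, ← ENNReal.ofReal_mul hd0]
          refine ENNReal.ofReal_le_ofReal ((norm_inner_le_norm _ _).trans ?_)
          rw [mul_comm]
          gcongr
    _ ≤ _ := lintegral_mono_set Ioo_subset_Icc_self

/-- The `L¹` Poincare inequality on convex sets. -/
theorem str_poincare {U : Set ℂ} (hU : Convex ℝ U) (hUm : MeasurableSet U) {w : ℂ → ℝ} {L : ℝ≥0}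
    (hL : LipschitzOnWith L w U) {g : ℂ → ℂ} (hgm : Measurable g)
    (hw : ∀ᵐ x, x ∈ U → HasFDerivAt w (innerSL ℝ (g x)) x)
    {d : ℝ} (hd : ∀ y ∈ U, ∀ z ∈ U, ‖y - z‖ ≤ d) :
    ∫⁻ y in U, ∫⁻ z in U, ‖w y - w z‖ₑ ≤
      ENNReal.ofReal d * (4 * (volume U * ∫⁻ x in U, ‖g x‖ₑ)) := by
  set N := toMeasurable volume {x | ¬ (x ∈ U → HasFDerivAt w (innerSL ℝ (g x)) x)} with hN
  have hNm : MeasurableSet N := measurableSet_toMeasurable _ _
  have hN0 : volume N = 0 := by
    rw [hN, measure_toMeasurable]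
    exact hw
  have hwN : ∀ x ∈ U, x ∉ N → HasFDerivAt w (innerSL ℝ (g x)) x := by
    intro x hx hxN
    by_contra hcon
    exact hxN (subset_toMeasurable _ _ (fun h => hcon (h hx)))
  set F : ℂ → ℝ≥0∞ := U.indicator fun x => ‖g x‖ₑ + N.indicator (fun _ => (L : ℝ≥0∞)) x with hF
  have hFm : Measurable F := (hgm.enorm.add (measurable_const.indicator hNm)).indicator hUm
  have hFi : ∫⁻ x, F x = ∫⁻ x in U, ‖g x‖ₑ := by
    rw [hF, lintegral_indicator hUm]
    refine lintegral_congr_ae ?_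
    have h1 : ∀ᵐ x ∂(volume : Measure ℂ), x ∉ N := by
      rw [ae_iff]
      simpa using hN0
    filter_upwards [ae_restrict_of_ae h1] with x hx
    rw [indicator_of_notMem hx, add_zero]
  have hm3 : Measurable fun p : ℝ × ℂ × ℂ => F (p.2.2 + p.1 • (p.2.1 - p.2.2)) :=
    hFm.comp (by fun_prop)
  have h1 : ∫⁻ y in U, ∫⁻ z in U, ‖w y - w z‖ₑ ≤ ∫⁻ y in U, ∫⁻ z in U,
      ENNReal.ofReal d * ∫⁻ t in Icc (0 : ℝ) 1, F (z + t • (y - z)) := by
    refine setLIntegral_mono' hUm fun y hy => setLIntegral_mono' hUm fun z hz => ?_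
    refine (str_ftc hU hL hwN hy hz (hd y hy z hz)).trans ?_
    gcongr ENNReal.ofReal d * ?_
    refine setLIntegral_mono' measurableSet_Icc fun t ht => ?_
    rw [hF, indicator_of_mem (str_mem hU hy hz ht)]
  refine h1.trans ?_
  have h2 : ∫⁻ y in U, ∫⁻ z in U, ENNReal.ofReal d * ∫⁻ t in Icc (0 : ℝ) 1, F (z + t • (y - z)) =
      ENNReal.ofReal d * ∫⁻ t in Icc (0 : ℝ) 1, ∫⁻ y in U, ∫⁻ z in U, F (z + t • (y - z)) := by
    have e1 : ∀ y, ∫⁻ z in U, ENNReal.ofReal d * ∫⁻ t in Icc (0 : ℝ) 1, F (z + t • (y - z)) =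
        ENNReal.ofReal d * ∫⁻ t in Icc (0 : ℝ) 1, ∫⁻ z in U, F (z + t • (y - z)) := by
      intro y
      rw [lintegral_const_mul' _ _ ENNReal.ofReal_ne_top, lintegral_lintegral_swap]
      exact (hm3.comp (show Measurable fun p : ℂ × ℝ => (p.2, y, p.1) by fun_prop)).aemeasurable
    simp_rw [e1]
    rw [lintegral_const_mul' _ _ ENNReal.ofReal_ne_top, lintegral_lintegral_swap]
    refine Measurable.aemeasurable ?_
    have := Measurable.lintegral_prod_right' (ν := (volume : Measure ℂ).restrict U)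
      (f := fun p : (ℂ × ℝ) × ℂ => F (p.2 + p.1.2 • (p.1.1 - p.2)))
      (hm3.comp (show Measurable fun p : (ℂ × ℝ) × ℂ => (p.1.2, p.1.1, p.2) by fun_prop))
    exact this
  rw [h2]
  gcongr ENNReal.ofReal d * ?_
  have h3 : ∀ t ∈ Icc (0 : ℝ) 1, ∫⁻ y in U, ∫⁻ z in U, F (z + t • (y - z)) ≤
      4 * (volume U * ∫⁻ x in U, ‖g x‖ₑ) := by
    intro t ht
    rcases le_total t (1 / 2) with h | h
    · -- integrate first over `z`
      have e1 : ∀ y, ∫⁻ z in U, F (z + t • (y - z)) ≤ 4 * ∫⁻ x in U, ‖g x‖ₑ := by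
        intro y
        rw [← hFi]
        refine (lintegral_mono' Measure.restrict_le_self le_rfl).trans ?_
        refine le_trans (le_of_eq ?_) (str_scale hFm (c := 1 - t) (by linarith) (t • y))
        refine lintegral_congr fun z => ?_
        congr 1
        simp only [Complex.real_smul]
        push_cast
        ring
      calc ∫⁻ y in U, ∫⁻ z in U, F (z + t • (y - z)) ≤ ∫⁻ y in U, 4 * ∫⁻ x in U, ‖g x‖ₑ :=
            lintegral_mono fun y => e1 y
        _ = 4 * (volume U * ∫⁻ x in U, ‖g x‖ₑ) := by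
            rw [setLIntegral_const]
            ring
    · have e1 : ∀ z, ∫⁻ y in U, F (z + t • (y - z)) ≤ 4 * ∫⁻ x in U, ‖g x‖ₑ := by
        intro z
        rw [← hFi]
        refine (lintegral_mono' Measure.restrict_le_self le_rfl).trans ?_
        refine le_trans (le_of_eq ?_) (str_scale hFm (c := t) (by linarith) (z - t • z))
        refine lintegral_congr fun y => ?_
        congr 1
        simp only [Complex.real_smul]
        ring
      rw [lintegral_lintegral_swap]
      · calc ∫⁻ z in U, ∫⁻ y in U, F (z + t • (y - z)) ≤ ∫⁻ z in U, 4 * ∫⁻ x in U, ‖g x‖ₑ :=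
              lintegral_mono fun z => e1 z
          _ = 4 * (volume U * ∫⁻ x in U, ‖g x‖ₑ) := by
              rw [setLIntegral_const]
              ring
      · exact (hm3.comp (show Measurable fun p : ℂ × ℂ => (t, p.1, p.2) by fun_prop)).aemeasurable
  calc ∫⁻ t in Icc (0 : ℝ) 1, ∫⁻ y in U, ∫⁻ z in U, F (z + t • (y - z))
      ≤ ∫⁻ t in Icc (0 : ℝ) 1, 4 * (volume U * ∫⁻ x in U, ‖g x‖ₑ) :=
        setLIntegral_mono' measurableSet_Icc h3
    _ = 4 * (volume U * ∫⁻ x in U, ‖g x‖ₑ) := by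
        rw [setLIntegral_const, Real.volume_Icc]
        simp

end Pool.Agent.MP099f24
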